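import Mathlib

open MeasureTheory Set Filter Topology
open scoped ENNReal

namespace Pool.Agent.MP_178ab7_mp

lemma ennreal_sq_add (a b : ℝ≥0∞) : (a + b) ^ 2 ≤ 2 * (a ^ 2 + b ^ 2) := by
  have h := ENNReal.rpow_add_le_mul_rpow_add_rpow a b (p := 2) (by norm_num)
  have e : (2 : ℝ) - 1 = 1 := by norm_num
  simp only [ENNReal.rpow_two, e, ENNReal.rpow_one] at h
  exact h

/-- Averages of a function that is a.e. equal to a primitive. -/
lemma tendsto_average {F f : ℝ → ℂ} {B : ℂ} {h : ℝ} (hh : 0 < h) (hf : IntegrableOn f (Ioo 0 h))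
    (hF : ∀ᵐ t ∂(volume.restrict (Ioo 0 h)), F t = B - ∫ τ in t..h, f τ) :
    Tendsto (fun ε : ℝ => ((1 / ε : ℝ) : ℂ) * ∫ t in (0 : ℝ)..ε, F t) (𝓝[>] 0)
      (𝓝 (B - ∫ τ in (0 : ℝ)..h, f τ)) := by
  have hfi : IntervalIntegrable f volume 0 h := by
    rw [intervalIntegrable_iff_integrableOn_Ioo_of_le hh.le]
    exact hf
  set ft : ℝ → ℂ := (Ioo 0 h).indicator f with hft
  have hfti : Integrable ft := (integrable_indicator_iff measurableSet_Ioo).2 hf
  set H : ℝ → ℂ := fun x => (B - ∫ τ in (0 : ℝ)..h, f τ) + ∫ τ in (0 : ℝ)..x, ft τ with hH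
  have hHc : Continuous H :=
    continuous_const.add (intervalIntegral.continuous_primitive (fun a b => hfti.intervalIntegrable) 0)
  have hH0 : H 0 = B - ∫ τ in (0 : ℝ)..h, f τ := by simp [hH]
  have hHF : ∀ t ∈ Ioo 0 h, H t = B - ∫ τ in t..h, f τ := by
    intro t ht
    have e1 : ∫ τ in (0 : ℝ)..t, ft τ = ∫ τ in (0 : ℝ)..t, f τ := by
      rw [intervalIntegral.integral_of_le ht.1.le, intervalIntegral.integral_of_le ht.1.le]
      apply setIntegral_congr_fun measurableSet_Ioc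
      intro τ hτ
      have : τ ∈ Ioo 0 h := ⟨hτ.1, hτ.2.trans_lt ht.2⟩
      simp [hft, this]
    have e2 : (∫ τ in (0 : ℝ)..t, f τ) + ∫ τ in t..h, f τ = ∫ τ in (0 : ℝ)..h, f τ := by
      apply intervalIntegral.integral_add_adjacent_intervals
      · exact hfi.mono_set (by
          rw [uIcc_of_le ht.1.le, uIcc_of_le hh.le]
          exact Icc_subset_Icc_right ht.2.le)
      · exact hfi.mono_set (by
          rw [uIcc_of_le ht.2.le, uIcc_of_le hh.le]
          exact Icc_subset_Icc_left ht.1.le)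
    simp only [hH]
    rw [e1, ← e2]
    ring
  have hder : HasDerivAt (fun x => ∫ t in (0 : ℝ)..x, H t) (H 0) 0 :=
    intervalIntegral.integral_hasDerivAt_right (hHc.intervalIntegrable 0 0)
      (hHc.stronglyMeasurableAtFilter _ _) hHc.continuousAt
  have h1 := hder.tendsto_slope_zero_right
  rw [hH0] at h1
  refine h1.congr' ?_
  have hmem : Ioo (0 : ℝ) h ∈ 𝓝[>] (0 : ℝ) := Ioo_mem_nhdsGT hh
  filter_upwards [hmem] with ε hε
  have e3 : ∫ t in (0 : ℝ)..ε, H t = ∫ t in (0 : ℝ)..ε, F t := by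
    apply intervalIntegral.integral_congr_ae
    rw [ae_restrict_iff' measurableSet_Ioo] at hF
    filter_upwards [hF] with t ht ht'
    rw [uIoc_of_le hε.1.le] at ht'
    have : t ∈ Ioo 0 h := ⟨ht'.1, ht'.2.trans_lt hε.2⟩
    rw [ht this, hHF t this]
  simp only [zero_add, intervalIntegral.integral_same, sub_zero]
  rw [e3, Complex.real_smul, one_div]

end Pool.Agent.MP_178ab7_mp
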