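import Mathlib

open MeasureTheory Set Filter Topology
open scoped ComplexConjugate

namespace Pool.Agent.MP_178ab7_mp

/-- The Hilbert space `L²(ℝ²)` of square integrable complex valued functions
(with respect to Lebesgue measure on `ℝ × ℝ`). -/
abbrev L2 : Type := Lp ℂ 2 (volume : Measure (ℝ × ℝ))

/-- A bounded non-closed plane curve of class `C²`: an injective regular parametrisation
`γ : [0,1] → ℝ²` of class `C²`. -/
structure Arc where
  /-- The parametrisation (only its values on `[0,1]` matter). -/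
  γ : ℝ → ℝ × ℝ
  contDiffOn : ContDiffOn ℝ 2 γ (Icc 0 1)
  injOn : InjOn γ (Icc 0 1)
  regular : ∀ s ∈ Icc (0 : ℝ) 1, derivWithin γ (Icc 0 1) s ≠ 0

namespace Arc

variable (A : Arc)

/-- The curve `Λ = γ([0,1])` as a subset of the plane. -/
def carrier : Set (ℝ × ℝ) := A.γ '' Icc 0 1

/-- The velocity `γ'(s)`. -/
noncomputable def vel (s : ℝ) : ℝ × ℝ := derivWithin A.γ (Icc 0 1) s

/-- The Euclidean length `|γ'(s)|` of the velocity; the arc length element is `speed s ds`. -/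
noncomputable def speed (s : ℝ) : ℝ := Real.sqrt ((A.vel s).1 ^ 2 + (A.vel s).2 ^ 2)

/-- A normal vector to the curve at `γ(s)`: the velocity rotated by a quarter turn. -/
noncomputable def normal (s : ℝ) : ℝ × ℝ := (-(A.vel s).2, (A.vel s).1)

/-- The average of `u` over the normal segment from `γ(s)` to `γ(s) + σ ε normal(s)`. -/
noncomputable def sideAverage (u : ℝ × ℝ → ℂ) (σ s ε : ℝ) : ℂ :=
  ((1 / ε : ℝ) : ℂ) * ∫ t in (0 : ℝ)..ε, u (A.γ s + (σ * t) • A.normal s)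

/-- The trace at `γ(s)` of `u` from the side `σ = 1` or `σ = -1` of the curve: the limit, as
`ε → 0+`, of the averages of `u` over the normal segments from `γ(s)` to
`γ(s) + σ ε normal(s)`. -/
noncomputable def trace (u : ℝ × ℝ → ℂ) (σ s : ℝ) : ℂ :=
  limUnder (𝓝[>] (0 : ℝ)) (fun ε => A.sideAverage u σ s ε)

/-- The jump of `u` across the curve at `γ(s)`: the difference of the two one-sided traces. -/
noncomputable def jump (u : ℝ × ℝ → ℂ) (s : ℝ) : ℂ := A.trace u 1 s - A.trace u (-1) s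

end Arc

open scoped ContDiff in
/-- `(g₁, g₂)` is the weak gradient of `u` on the open set `ℝ² \ Λ`:
`∫ u ∂ᵢφ = - ∫ gᵢ φ` for every smooth `φ` with compact support contained in `ℝ² \ Λ`.  Hence
`u ∈ H¹(ℝ² \ Λ)` iff `IsWeakGradient Λ u g₁ g₂` for some `g₁ g₂ : L2`. -/
def IsWeakGradient (Λ : Set (ℝ × ℝ)) (u g₁ g₂ : L2) : Prop :=
  ∀ φ : ℝ × ℝ → ℝ, ContDiff ℝ ∞ φ → HasCompactSupport φ → tsupport φ ⊆ Λᶜ →
    (∫ x, u x * ((fderiv ℝ φ x (1, 0) : ℝ) : ℂ)) = - ∫ x, g₁ x * ((φ x : ℝ) : ℂ) ∧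
    (∫ x, u x * ((fderiv ℝ φ x (0, 1) : ℝ) : ℂ)) = - ∫ x, g₂ x * ((φ x : ℝ) : ℂ)

/-- The sesquilinear form `h_ω[v, u] = ∫ ∇v̄ · ∇u - ω ∫_Λ conj [v] [u] ds`, where `(h₁, h₂)` and
`(g₁, g₂)` are the weak gradients of `v` and `u` on `ℝ² \ Λ`. -/
noncomputable def formValue (A : Arc) (ω : ℝ) (v h₁ h₂ u g₁ g₂ : L2) : ℂ :=
  inner ℂ h₁ g₁ + inner ℂ h₂ g₂
    - (ω : ℂ) * ∫ s in Ioo (0 : ℝ) 1, conj (A.jump v s) * A.jump u s * ((A.speed s : ℝ) : ℂ)

/-- The graph of the Hamiltonian `H_ω^Λ`, the self-adjoint operator in `L²(ℝ²)` associated with the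
form `h_ω` with domain `H¹(ℝ² \ Λ)`: the pair `(u, f)` belongs to it iff `u ∈ H¹(ℝ² \ Λ)` and
`h_ω[v, u] = ⟨v, f⟩` for every `v ∈ H¹(ℝ² \ Λ)`. -/
def hamiltonianGraph (A : Arc) (ω : ℝ) : Set (L2 × L2) :=
  {p | ∃ g₁ g₂ : L2, IsWeakGradient A.carrier p.1 g₁ g₂ ∧
    ∀ v h₁ h₂ : L2, IsWeakGradient A.carrier v h₁ h₂ →
      formValue A ω v h₁ h₂ p.1 g₁ g₂ = inner ℂ v p.2}

/-- The spectrum of the (unbounded) operator with graph `Γ`: the complex number `z` belongs to the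
resolvent set iff `H - z` has a bounded everywhere defined inverse `R`, that is,
`R f = u` if and only if `u` belongs to the domain and `H u - z u = f`. -/
def spectrumOf (Γ : Set (L2 × L2)) : Set ℂ :=
  {z | ¬ ∃ R : L2 →L[ℂ] L2, ∀ f u : L2, R f = u ↔ (u, f + z • u) ∈ Γ}

end Pool.Agent.MP_178ab7_mp
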