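import Mathlib
import Pool.Agent.MP_178ab7_mp.Defs

open MeasureTheory Set Filter Topology Metric ContinuousLinearMap
open scoped ContDiff Convolution ENNReal

namespace Pool.Agent.MP_178ab7_mp

lemma eLpNorm_two_sq {α : Type*} [MeasurableSpace α] {μ : Measure α} (f : α → ℂ) :
    eLpNorm f 2 μ ^ 2 = ∫⁻ x, ‖f x‖ₑ ^ 2 ∂μ := by
  rw [eLpNorm_eq_lintegral_rpow_enorm_toReal (by norm_num) (by norm_num)]
  simp only [ENNReal.toReal_ofNat, one_div]
  rw [← ENNReal.rpow_natCast, ← ENNReal.rpow_mul]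
  simp

/-- Mollification of a function. -/
noncomputable def moll (φ : ContDiffBump (0 : ℝ × ℝ)) (f : ℝ × ℝ → ℂ) : ℝ × ℝ → ℂ :=
  φ.normed volume ⋆[lsmul ℝ ℝ, volume] f

lemma moll_apply (φ : ContDiffBump (0 : ℝ × ℝ)) (f : ℝ × ℝ → ℂ) (x : ℝ × ℝ) :
    moll φ f x = ∫ t, φ.normed volume t • f (x - t) := rfl

/-- Young's inequality. -/
lemma lintegral_moll_le (φ : ContDiffBump (0 : ℝ × ℝ)) {f : ℝ × ℝ → ℂ} (hf : Measurable f) :
    ∫⁻ x, ‖moll φ f x‖ₑ ^ 2 ≤ ∫⁻ x, ‖f x‖ₑ ^ 2 := by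
  set ρ := φ.normed volume with hρ
  have hρc : Continuous ρ := φ.continuous_normed
  have hρm : Measurable fun t => ENNReal.ofReal (ρ t) := hρc.measurable.ennreal_ofReal
  have h1 : ∫⁻ t, ENNReal.ofReal (ρ t) = 1 := by
    rw [← ofReal_integral_eq_lintegral_ofReal φ.integrable_normed
      (Eventually.of_forall φ.nonneg_normed), φ.integral_normed, ENNReal.ofReal_one]
  have hpt : ∀ x, ‖moll φ f x‖ₑ ^ 2 ≤ ∫⁻ t, ENNReal.ofReal (ρ t) * ‖f (x - t)‖ₑ ^ 2 := by
    intro x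
    have hFm : Measurable fun t => ‖f (x - t)‖ₑ := (hf.comp (measurable_const_sub x)).enorm
    have e1 : ‖moll φ f x‖ₑ ≤ ∫⁻ t, ENNReal.ofReal (ρ t) * ‖f (x - t)‖ₑ := by
      rw [moll_apply]
      refine (enorm_integral_le_lintegral_enorm _).trans (le_of_eq ?_)
      congr 1
      funext t
      rw [enorm_smul, Real.enorm_of_nonneg (φ.nonneg_normed t)]
    have e2 : ∫⁻ t, ENNReal.ofReal (ρ t) * ‖f (x - t)‖ₑ ≤
        (∫⁻ t, ENNReal.ofReal (ρ t) * ‖f (x - t)‖ₑ ^ 2) ^ (1 / 2 : ℝ) := by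
      have hh := ENNReal.lintegral_mul_le_Lp_mul_Lq (volume : Measure (ℝ × ℝ))
        (Real.HolderConjugate.two_two)
        (f := fun t => (ENNReal.ofReal (ρ t)) ^ (1 / 2 : ℝ))
        (g := fun t => (ENNReal.ofReal (ρ t)) ^ (1 / 2 : ℝ) * ‖f (x - t)‖ₑ)
        (hρm.pow_const _).aemeasurable ((hρm.pow_const _).mul hFm).aemeasurable
      have e3 : ∀ t, ((ENNReal.ofReal (ρ t)) ^ (1 / 2 : ℝ)) ^ (2 : ℝ) = ENNReal.ofReal (ρ t) := by
        intro t
        rw [← ENNReal.rpow_mul]; norm_num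
      have e4 : ∀ t, ((ENNReal.ofReal (ρ t)) ^ (1 / 2 : ℝ) * ‖f (x - t)‖ₑ) ^ (2 : ℝ) =
          ENNReal.ofReal (ρ t) * ‖f (x - t)‖ₑ ^ 2 := by
        intro t
        rw [ENNReal.mul_rpow_of_nonneg _ _ (by norm_num), e3, ENNReal.rpow_two]
      have e5 : ∀ t, (ENNReal.ofReal (ρ t)) ^ (1 / 2 : ℝ) *
          ((ENNReal.ofReal (ρ t)) ^ (1 / 2 : ℝ) * ‖f (x - t)‖ₑ) =
          ENNReal.ofReal (ρ t) * ‖f (x - t)‖ₑ := by
        intro t
        rw [← mul_assoc, ← ENNReal.rpow_add_of_nonneg _ _ (by norm_num) (by norm_num)]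
        norm_num
      simp only [Pi.mul_apply, e3, e4, e5, h1, ENNReal.one_rpow, one_mul] at hh
      exact hh
    calc ‖moll φ f x‖ₑ ^ 2 ≤
        ((∫⁻ t, ENNReal.ofReal (ρ t) * ‖f (x - t)‖ₑ ^ 2) ^ (1 / 2 : ℝ)) ^ 2 := by
          gcongr
          exact e1.trans e2
      _ = _ := by
          rw [← ENNReal.rpow_natCast, ← ENNReal.rpow_mul]
          norm_num
  calc ∫⁻ x, ‖moll φ f x‖ₑ ^ 2 ≤ ∫⁻ x, ∫⁻ t, ENNReal.ofReal (ρ t) * ‖f (x - t)‖ₑ ^ 2 :=
        lintegral_mono hpt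
    _ = ∫⁻ t, ∫⁻ x, ENNReal.ofReal (ρ t) * ‖f (x - t)‖ₑ ^ 2 := by
        apply lintegral_lintegral_swap
        apply Measurable.aemeasurable
        have : Measurable fun p : (ℝ × ℝ) × (ℝ × ℝ) => f (p.1 - p.2) :=
          hf.comp (measurable_fst.sub measurable_snd)
        exact (hρm.comp measurable_snd).mul (this.enorm.pow_const 2)
    _ = ∫⁻ t, ENNReal.ofReal (ρ t) * ∫⁻ x, ‖f x‖ₑ ^ 2 := by
        congr 1
        funext t
        rw [lintegral_const_mul' _ _ ENNReal.ofReal_ne_top]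
        congr 1
        exact lintegral_sub_right_eq_self (fun x => ‖f x‖ₑ ^ 2) t
    _ = ∫⁻ x, ‖f x‖ₑ ^ 2 := by
        rw [lintegral_mul_const _ hρm, h1, one_mul]

lemma eLpNorm_moll_le (φ : ContDiffBump (0 : ℝ × ℝ)) {f : ℝ × ℝ → ℂ} (hf : Measurable f) :
    eLpNorm (moll φ f) 2 volume ≤ eLpNorm f 2 volume := by
  have h := lintegral_moll_le φ hf
  rw [← eLpNorm_two_sq, ← eLpNorm_two_sq] at h
  exact (ENNReal.pow_le_pow_left_iff (by norm_num)).1 h

lemma moll_sub (φ : ContDiffBump (0 : ℝ × ℝ)) {f g : ℝ × ℝ → ℂ} (hf : LocallyIntegrable f)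
    (hg : LocallyIntegrable g) : moll φ (f - g) = moll φ f - moll φ g := by
  have e1 : ConvolutionExists (φ.normed volume) f (lsmul ℝ ℝ) (volume : Measure (ℝ × ℝ)) :=
    φ.hasCompactSupport_normed.convolutionExists_left _ φ.continuous_normed hf
  have e2 : ConvolutionExists (φ.normed volume) g (lsmul ℝ ℝ) (volume : Measure (ℝ × ℝ)) :=
    φ.hasCompactSupport_normed.convolutionExists_left _ φ.continuous_normed hg
  funext x
  have h1 : Integrable fun t => φ.normed volume t • f (x - t) := e1 x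
  have h2 : Integrable fun t => φ.normed volume t • g (x - t) := e2 x
  simp only [moll_apply, Pi.sub_apply, smul_sub]
  exact integral_sub h1 h2

lemma contDiff_moll (φ : ContDiffBump (0 : ℝ × ℝ)) {f : ℝ × ℝ → ℂ} (hf : LocallyIntegrable f) :
    ContDiff ℝ ∞ (moll φ f) :=
  φ.hasCompactSupport_normed.contDiff_convolution_left _ φ.contDiff_normed hf

lemma memLp_two_locallyIntegrable {f : ℝ × ℝ → ℂ} (hf : MemLp f 2 volume) :
    LocallyIntegrable f := hf.locallyIntegrable (by norm_num)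

/-- `L²` convergence of mollifications. -/
lemma exists_moll_close {f : ℝ × ℝ → ℂ} (hfm : Measurable f) (hf : MemLp f 2 volume)
    {ε : ℝ} (hε : 0 < ε) : ∃ δ > 0, ∀ φ : ContDiffBump (0 : ℝ × ℝ), φ.rOut < δ →
      eLpNorm (moll φ f - f) 2 volume ≤ ENNReal.ofReal ε := by
  have hε3 : 0 < ε / 3 := by positivity
  obtain ⟨g, hgc, hgs, hg⟩ := hf.exist_eLpNorm_sub_le (by norm_num) (by norm_num) hε3
  have hgcont : Continuous g := hgs.continuous
  have hguc : UniformContinuous g := hgc.uniformContinuous_of_continuous hgcont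
  -- the compact set
  set K : Set (ℝ × ℝ) := cthickening 1 (tsupport g) with hK
  have hKc : IsCompact K := hgc.isCompact.cthickening
  have hKfin : volume K ≠ ⊤ := hKc.measure_lt_top.ne
  obtain ⟨η, hη, hηε⟩ : ∃ η : ℝ, 0 < η ∧
      ENNReal.ofReal η * volume K ^ (1 / (2 : ℝ≥0∞).toReal) ≤ ENNReal.ofReal (ε / 3) := by
    set V : ℝ := (volume K ^ (1 / (2 : ℝ≥0∞).toReal)).toReal with hV
    have hVfin : volume K ^ (1 / (2 : ℝ≥0∞).toReal) ≠ ⊤ :=
      ENNReal.rpow_ne_top_of_nonneg (by positivity) hKfin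
    refine ⟨(ε / 3) / (V + 1), by positivity, ?_⟩
    rw [← ENNReal.ofReal_toReal hVfin, ← ENNReal.ofReal_mul (by positivity), ← hV]
    apply ENNReal.ofReal_le_ofReal
    rw [div_mul_eq_mul_div, div_le_iff₀ (by positivity)]
    nlinarith [show 0 ≤ V from ENNReal.toReal_nonneg]
  obtain ⟨δ₁, hδ₁, hδ⟩ := Metric.uniformContinuous_iff.1 hguc η hη
  refine ⟨min δ₁ 1, lt_min hδ₁ one_pos, ?_⟩
  intro φ hφ
  have hφ1 : φ.rOut < δ₁ := hφ.trans_le (min_le_left _ _)
  have hφ2 : φ.rOut < 1 := hφ.trans_le (min_le_right _ _)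
  have hfl := memLp_two_locallyIntegrable hf
  have hgl : LocallyIntegrable g := hgcont.locallyIntegrable
  -- uniform closeness for g
  have h2 : eLpNorm (moll φ g - g) 2 volume ≤ ENNReal.ofReal (ε / 3) := by
    refine le_trans (eLpNorm_sub_le_of_dist_bdd (s := K) volume (by norm_num)
      hKc.measurableSet hη.le ?_ ?_ ?_) hηε
    · intro x
      apply φ.dist_normed_convolution_le hgcont.aestronglyMeasurable
      intro y hy
      apply (hδ _).le
      exact (mem_ball.1 hy).trans hφ1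
    · intro x hx
      have h3 := support_convolution_subset (lsmul ℝ ℝ) hx
      obtain ⟨a, ha, b, hb, rfl⟩ := Set.mem_add.1 h3
      rw [φ.support_normed_eq, mem_ball_zero_iff] at ha
      apply mem_cthickening_of_dist_le (a + b) b 1
      · exact subset_tsupport g hb
      · rw [dist_eq_norm, add_sub_cancel_right]
        exact (ha.trans hφ2).le
    · exact (subset_tsupport g).trans (self_subset_cthickening _)
  have h1 : eLpNorm (moll φ (f - g)) 2 volume ≤ ENNReal.ofReal (ε / 3) :=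
    (eLpNorm_moll_le φ (hfm.sub hgcont.measurable)).trans hg
  have e : moll φ f - f = moll φ (f - g) + (moll φ g - g) - (f - g) := by
    rw [moll_sub φ hfl hgl]
    abel
  have m1 : AEStronglyMeasurable (moll φ (f - g)) volume :=
    (contDiff_moll φ (hfl.sub hgl)).continuous.aestronglyMeasurable
  have m2 : AEStronglyMeasurable (moll φ g - g) volume :=
    ((contDiff_moll φ hgl).continuous.sub hgcont).aestronglyMeasurable
  have m3 : AEStronglyMeasurable (f - g) volume :=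
    hf.aestronglyMeasurable.sub hgcont.aestronglyMeasurable
  rw [e]
  calc eLpNorm (moll φ (f - g) + (moll φ g - g) - (f - g)) 2 volume
      ≤ eLpNorm (moll φ (f - g) + (moll φ g - g)) 2 volume + eLpNorm (f - g) 2 volume :=
        eLpNorm_sub_le (m1.add m2) m3 (by norm_num)
    _ ≤ (eLpNorm (moll φ (f - g)) 2 volume + eLpNorm (moll φ g - g) 2 volume)
        + eLpNorm (f - g) 2 volume := by
        gcongr
        exact eLpNorm_add_le m1 m2 (by norm_num)
    _ ≤ (ENNReal.ofReal (ε / 3) + ENNReal.ofReal (ε / 3)) + ENNReal.ofReal (ε / 3) := by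
        gcongr
    _ = ENNReal.ofReal ε := by
        rw [← ENNReal.ofReal_add (by positivity) (by positivity),
          ← ENNReal.ofReal_add (by positivity) (by positivity)]
        congr 1
        ring

/-- The bump function of outer radius `r`. -/
noncomputable def bump (r : ℝ) (hr : 0 < r) : ContDiffBump (0 : ℝ × ℝ) :=
  ⟨r / 2, r, half_pos hr, half_lt_self hr⟩

/-- Differentiating a mollification of a function with a weak gradient. -/
lemma fderiv_moll (φ : ContDiffBump (0 : ℝ × ℝ)) {Λ : Set (ℝ × ℝ)} {u g₁ g₂ : L2}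
    (h : IsWeakGradient Λ u g₁ g₂) {x : ℝ × ℝ} (hx : closedBall x φ.rOut ⊆ Λᶜ) :
    fderiv ℝ (moll φ u) x (1, 0) = moll φ g₁ x ∧ fderiv ℝ (moll φ u) x (0, 1) = moll φ g₂ x := by
  set ρ := φ.normed (volume : Measure (ℝ × ℝ)) with hρ
  have hul : LocallyIntegrable (u : ℝ × ℝ → ℂ) := memLp_two_locallyIntegrable (Lp.memLp u)
  have hρs : ContDiff ℝ ∞ ρ := φ.contDiff_normed
  have hρc : HasCompactSupport ρ := φ.hasCompactSupport_normed
  have hder : HasFDerivAt (moll φ u) ((fderiv ℝ ρ ⋆[(lsmul ℝ ℝ).precompL (ℝ × ℝ), volume] u) x) x :=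
    hρc.hasFDerivAt_convolution_left (lsmul ℝ ℝ) (hρs.of_le (by simp)) hul x
  -- the test function
  set ψ : ℝ × ℝ → ℝ := fun y => ρ (x - y) with hψ
  have hψs : ContDiff ℝ ∞ ψ := hρs.comp (contDiff_const.sub contDiff_id)
  have hsupp : Function.support ψ ⊆ closedBall x φ.rOut := by
    intro y hy
    have : x - y ∈ Function.support ρ := hy
    rw [hρ, φ.support_normed_eq, mem_ball_zero_iff] at this
    rw [mem_closedBall, dist_comm, dist_eq_norm]
    exact this.le
  have htsupp : tsupport ψ ⊆ closedBall x φ.rOut := closure_minimal hsupp isClosed_closedBall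
  have hψc : HasCompactSupport ψ :=
    (isCompact_closedBall x φ.rOut).of_isClosed_subset (isClosed_tsupport _) htsupp
  have hw := h ψ hψs hψc (htsupp.trans hx)
  have hψd : ∀ y v, fderiv ℝ ψ y v = - fderiv ℝ ρ (x - y) v := by
    intro y v
    have h1 : HasFDerivAt ρ (fderiv ℝ ρ (x - y)) (x - y) :=
      ((hρs.differentiable (by simp)) (x - y)).hasFDerivAt
    have h2 : HasFDerivAt (fun y : ℝ × ℝ => x - y)
        (-(ContinuousLinearMap.id ℝ (ℝ × ℝ))) y := by
      simpa using (hasFDerivAt_id y).const_sub x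
    have h3 : HasFDerivAt ψ ((fderiv ℝ ρ (x - y)).comp (-(ContinuousLinearMap.id ℝ (ℝ × ℝ)))) y :=
      h1.comp y h2
    rw [h3.fderiv]
    simp
  have hconv : ∀ v : ℝ × ℝ, ((fderiv ℝ ρ ⋆[(lsmul ℝ ℝ).precompL (ℝ × ℝ), volume] (u : ℝ × ℝ → ℂ)) x) v
      = - ∫ y, u y * ((fderiv ℝ ψ y v : ℝ) : ℂ) := by
    intro v
    have hex : ConvolutionExistsAt (fderiv ℝ ρ) (u : ℝ × ℝ → ℂ) x
        ((lsmul ℝ ℝ).precompL (ℝ × ℝ)) volume :=
      (hρc.fderiv ℝ).convolutionExists_left _ (hρs.continuous_fderiv (by simp)) hul x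
    rw [convolution_def, ContinuousLinearMap.integral_apply hex]
    rw [← integral_neg]
    rw [← integral_sub_left_eq_self (fun y => -(u y * ((fderiv ℝ ψ y v : ℝ) : ℂ))) volume x]
    congr 1
    funext t
    rw [hψd]
    simp [ContinuousLinearMap.precompL_apply, mul_comm]
  have hmoll : ∀ g : L2, moll φ g x = ∫ y, g y * ((ψ y : ℝ) : ℂ) := by
    intro g
    rw [moll_apply, ← integral_sub_left_eq_self (fun y => g y * ((ψ y : ℝ) : ℂ)) volume x]
    congr 1
    funext t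
    simp [hψ, mul_comm, hρ]
  rw [hder.fderiv]
  constructor
  · rw [hconv, hw.1, neg_neg, hmoll]
  · rw [hconv, hw.2, neg_neg, hmoll]

end Pool.Agent.MP_178ab7_mp
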