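import Mathlib
import Pool.Agent.MP_178ab7_mp.Mollify

open MeasureTheory Set Filter Topology Metric
open scoped ENNReal ContDiff

namespace Pool.Agent.MP_178ab7_mp

lemma measurable_L2 (g : L2) : Measurable (g : ℝ × ℝ → ℂ) := (Lp.stronglyMeasurable g).measurable

/-- Cauchy-Schwarz on an interval. -/
lemma lintegral_le_sqrt {I : Set ℝ} {F : ℝ → ℝ≥0∞} (hF : Measurable F) :
    ∫⁻ t in I, F t ≤ volume I ^ (1 / 2 : ℝ) * (∫⁻ t in I, F t ^ 2) ^ (1 / 2 : ℝ) := by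
  have h := ENNReal.lintegral_mul_le_Lp_mul_Lq (volume.restrict I)
    Real.HolderConjugate.two_two (f := fun _ => 1) (g := F) aemeasurable_const hF.aemeasurable
  simpa using h

/-- `F` in `L²(I)`, `I` bounded, is in `L¹(I)`. -/
lemma lintegral_lt_top_of_sq {α β : ℝ} {F : ℝ → ℝ≥0∞} (hF : Measurable F)
    (h : ∫⁻ t in Ioo α β, F t ^ 2 < ⊤) : ∫⁻ t in Ioo α β, F t < ⊤ := by
  refine (lintegral_le_sqrt hF).trans_lt ?_
  apply ENNReal.mul_lt_top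
  · apply ENNReal.rpow_lt_top_of_nonneg (by norm_num)
    simp
  · exact ENNReal.rpow_lt_top_of_nonneg (by norm_num) h.ne

lemma tendsto_lintegral_of_sq {α β : ℝ} {F : ℕ → ℝ → ℝ≥0∞} (hF : ∀ k, Measurable (F k))
    (h : Tendsto (fun k => ∫⁻ t in Ioo α β, F k t ^ 2) atTop (𝓝 0)) :
    Tendsto (fun k => ∫⁻ t in Ioo α β, F k t) atTop (𝓝 0) := by
  have h1 : Tendsto (fun k => volume (Ioo α β) ^ (1 / 2 : ℝ) *
      (∫⁻ t in Ioo α β, F k t ^ 2) ^ (1 / 2 : ℝ)) atTop (𝓝 0) := by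
    have h2 : Tendsto (fun k => (∫⁻ t in Ioo α β, F k t ^ 2) ^ (1 / 2 : ℝ)) atTop (𝓝 0) := by
      have := (ENNReal.continuous_rpow_const (y := (1 / 2 : ℝ))).tendsto 0
      rw [ENNReal.zero_rpow_of_pos (by norm_num)] at this
      exact this.comp h
    have h3 := ENNReal.Tendsto.const_mul (a := volume (Ioo α β) ^ (1 / 2 : ℝ)) h2
      (Or.inr (ENNReal.rpow_lt_top_of_nonneg (by norm_num) (by simp)).ne)
    rwa [mul_zero] at h3
  exact tendsto_of_tendsto_of_tendsto_of_le_of_le tendsto_const_nhds h1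
    (fun _ => zero_le) (fun k => lintegral_le_sqrt (hF k))

/-- The line integral of the vector field `(g₁, g₂)` along the curve `C` with velocity `C'`. -/
noncomputable def lineInt (g₁ g₂ : ℝ × ℝ → ℂ) (C C' : ℝ → ℝ × ℝ) (a b : ℝ) : ℂ :=
  ∫ τ in a..b, ((C' τ).1 • g₁ (C τ) + (C' τ).2 • g₂ (C τ))

lemma lineInt_eq (g₁ g₂ : ℝ × ℝ → ℂ) (C C' : ℝ → ℝ × ℝ) {a b : ℝ} (hab : a ≤ b) :
    lineInt g₁ g₂ C C' a b = ∫ τ in Ioc a b, ((C' τ).1 • g₁ (C τ) + (C' τ).2 • g₂ (C τ)) :=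
  intervalIntegral.integral_of_le hab

section

variable {C C' : ℝ → ℝ × ℝ} {α β : ℝ}

lemma measurable_integrand {g₁ g₂ : ℝ × ℝ → ℂ} (hg₁ : Measurable g₁) (hg₂ : Measurable g₂)
    (hC : Continuous C) (hC' : Continuous C') :
    Measurable fun τ => ((C' τ).1 • g₁ (C τ) + (C' τ).2 • g₂ (C τ)) := by
  have h1 : Measurable fun τ => g₁ (C τ) := hg₁.comp hC.measurable
  have h2 : Measurable fun τ => g₂ (C τ) := hg₂.comp hC.measurable
  exact (hC'.fst.measurable.smul h1).add (hC'.snd.measurable.smul h2)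

lemma enorm_integrand_le {M : ℝ} {w : ℝ × ℝ} (hM : ‖w‖ ≤ M) (z₁ z₂ : ℂ) :
    ‖w.1 • z₁ + w.2 • z₂‖ₑ ≤ ENNReal.ofReal M * (‖z₁‖ₑ + ‖z₂‖ₑ) := by
  have h1 : ‖w.1‖ₑ ≤ ENNReal.ofReal M := by
    rw [← ofReal_norm]
    exact ENNReal.ofReal_le_ofReal ((norm_fst_le w).trans hM)
  have h2 : ‖w.2‖ₑ ≤ ENNReal.ofReal M := by
    rw [← ofReal_norm]
    exact ENNReal.ofReal_le_ofReal ((norm_snd_le w).trans hM)
  calc ‖w.1 • z₁ + w.2 • z₂‖ₑ ≤ ‖w.1 • z₁‖ₑ + ‖w.2 • z₂‖ₑ := enorm_add_le _ _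
    _ = ‖w.1‖ₑ * ‖z₁‖ₑ + ‖w.2‖ₑ * ‖z₂‖ₑ := by rw [enorm_smul, enorm_smul]
    _ ≤ ENNReal.ofReal M * ‖z₁‖ₑ + ENNReal.ofReal M * ‖z₂‖ₑ := by gcongr
    _ = _ := by ring

lemma integrableOn_integrand {g₁ g₂ : ℝ × ℝ → ℂ} (hg₁ : Measurable g₁) (hg₂ : Measurable g₂)
    (hC : Continuous C) (hC' : Continuous C')
    (f₁ : ∫⁻ τ in Ioo α β, ‖g₁ (C τ)‖ₑ ^ 2 < ⊤) (f₂ : ∫⁻ τ in Ioo α β, ‖g₂ (C τ)‖ₑ ^ 2 < ⊤) :
    IntegrableOn (fun τ => ((C' τ).1 • g₁ (C τ) + (C' τ).2 • g₂ (C τ))) (Ioo α β) := by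
  obtain ⟨M, hM⟩ := (isCompact_Icc (a := α) (b := β)).exists_bound_of_continuousOn
    hC'.continuousOn
  refine ⟨(measurable_integrand hg₁ hg₂ hC hC').aestronglyMeasurable, ?_⟩
  have m1 : Measurable fun τ => ‖g₁ (C τ)‖ₑ := (hg₁.comp hC.measurable).enorm
  have m2 : Measurable fun τ => ‖g₂ (C τ)‖ₑ := (hg₂.comp hC.measurable).enorm
  calc ∫⁻ τ in Ioo α β, ‖(C' τ).1 • g₁ (C τ) + (C' τ).2 • g₂ (C τ)‖ₑ
      ≤ ∫⁻ τ in Ioo α β, ENNReal.ofReal M * (‖g₁ (C τ)‖ₑ + ‖g₂ (C τ)‖ₑ) := by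
        apply setLIntegral_mono' measurableSet_Ioo
        intro τ hτ
        exact enorm_integrand_le (hM τ (Ioo_subset_Icc_self hτ)) _ _
    _ = ENNReal.ofReal M *
          ((∫⁻ τ in Ioo α β, ‖g₁ (C τ)‖ₑ) + (∫⁻ τ in Ioo α β, ‖g₂ (C τ)‖ₑ)) := by
        rw [lintegral_const_mul' _ _ ENNReal.ofReal_ne_top, lintegral_add_left m1]
    _ < ⊤ := by
        apply ENNReal.mul_lt_top ENNReal.ofReal_lt_top
        exact ENNReal.add_lt_top.2 ⟨lintegral_lt_top_of_sq m1 f₁, lintegral_lt_top_of_sq m2 f₂⟩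

/-- The limit of the increments of the mollifications along a curve avoiding `Λ`. -/
lemma curve_limit {u g₁ g₂ : L2} {Λ : Set (ℝ × ℝ)} (hΛ : IsClosed Λ)
    (h : IsWeakGradient Λ u g₁ g₂) {φ : ℕ → ContDiffBump (0 : ℝ × ℝ)}
    (hφ : Tendsto (fun k => (φ k).rOut) atTop (𝓝 0)) (hC : ∀ τ, HasDerivAt C (C' τ) τ)
    (hC' : Continuous C') {a b : ℝ} (hαa : α ≤ a) (hab : a ≤ b) (hbβ : b ≤ β)
    (havoid : ∀ τ ∈ Icc a b, C τ ∉ Λ)
    (h₁ : Tendsto (fun k => ∫⁻ τ in Ioo α β, ‖moll (φ k) g₁ (C τ) - g₁ (C τ)‖ₑ ^ 2) atTop (𝓝 0))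
    (h₂ : Tendsto (fun k => ∫⁻ τ in Ioo α β, ‖moll (φ k) g₂ (C τ) - g₂ (C τ)‖ₑ ^ 2) atTop (𝓝 0))
    (f₁ : ∫⁻ τ in Ioo α β, ‖g₁ (C τ)‖ₑ ^ 2 < ⊤) (f₂ : ∫⁻ τ in Ioo α β, ‖g₂ (C τ)‖ₑ ^ 2 < ⊤) :
    Tendsto (fun k => moll (φ k) u (C b) - moll (φ k) u (C a)) atTop
      (𝓝 (lineInt g₁ g₂ C C' a b)) := by
  have hCc : Continuous C := continuous_iff_continuousAt.2 fun τ => (hC τ).continuousAt
  have hul : LocallyIntegrable (u : ℝ × ℝ → ℂ) := memLp_two_locallyIntegrable (Lp.memLp u)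
  have hg₁l : LocallyIntegrable (g₁ : ℝ × ℝ → ℂ) := memLp_two_locallyIntegrable (Lp.memLp g₁)
  have hg₂l : LocallyIntegrable (g₂ : ℝ × ℝ → ℂ) := memLp_two_locallyIntegrable (Lp.memLp g₂)
  have hmc₁ : ∀ k, Continuous (moll (φ k) g₁) := fun k => (contDiff_moll (φ k) hg₁l).continuous
  have hmc₂ : ∀ k, Continuous (moll (φ k) g₂) := fun k => (contDiff_moll (φ k) hg₂l).continuous
  have mg₁ := measurable_L2 g₁
  have mg₂ := measurable_L2 g₂
  -- the mollified gradient is the gradient of the mollification near the curve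
  have hK : IsCompact (C '' Icc a b) := isCompact_Icc.image hCc
  have hsub : C '' Icc a b ⊆ Λᶜ := by
    rintro _ ⟨τ, hτ, rfl⟩
    exact havoid τ hτ
  obtain ⟨δ, hδ, hδΛ⟩ := hK.exists_cthickening_subset_open hΛ.isOpen_compl hsub
  have hev : ∀ᶠ k in atTop, moll (φ k) u (C b) - moll (φ k) u (C a) =
      ∫ τ in Ioc a b, ((C' τ).1 • moll (φ k) g₁ (C τ) + (C' τ).2 • moll (φ k) g₂ (C τ)) := by
    filter_upwards [hφ.eventually (gt_mem_nhds hδ)] with k hk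
    have hd : ∀ τ ∈ Icc a b, fderiv ℝ (moll (φ k) u) (C τ) (C' τ) =
        (C' τ).1 • moll (φ k) g₁ (C τ) + (C' τ).2 • moll (φ k) g₂ (C τ) := by
      intro τ hτ
      have hball : closedBall (C τ) (φ k).rOut ⊆ Λᶜ := by
        refine Subset.trans ?_ hδΛ
        intro y hy
        exact mem_cthickening_of_dist_le y (C τ) δ _ (mem_image_of_mem C hτ)
          ((mem_closedBall.1 hy).trans hk.le)
      obtain ⟨e1, e2⟩ := fderiv_moll (φ k) h hball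
      have : C' τ = (C' τ).1 • ((1 : ℝ), (0 : ℝ)) + (C' τ).2 • ((0 : ℝ), (1 : ℝ)) := by
        ext <;> simp
      conv_lhs => rw [this]
      rw [map_add, map_smul, map_smul, e1, e2]
    have hv := contDiff_moll (φ k) hul
    have hder : ∀ τ ∈ uIcc a b, HasDerivAt (fun τ => moll (φ k) u (C τ))
        (fderiv ℝ (moll (φ k) u) (C τ) (C' τ)) τ := by
      intro τ _
      exact ((hv.differentiable (by simp)) (C τ)).hasFDerivAt.comp_hasDerivAt τ (hC τ)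
    have hcont : Continuous fun τ => fderiv ℝ (moll (φ k) u) (C τ) (C' τ) :=
      ((hv.continuous_fderiv (by simp)).comp hCc).clm_apply hC'
    rw [← intervalIntegral.integral_eq_sub_of_hasDerivAt hder (hcont.intervalIntegrable _ _),
      intervalIntegral.integral_of_le hab]
    apply setIntegral_congr_fun measurableSet_Ioc
    intro τ hτ
    exact hd τ (Ioc_subset_Icc_self hτ)
  rw [tendsto_congr' hev, lineInt_eq _ _ _ _ hab]
  -- restrict to `Ioc a b`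
  have hle : (volume : Measure ℝ).restrict (Ioc a b) ≤ volume.restrict (Ioo α β) := by
    rw [← Measure.restrict_congr_set (Ioo_ae_eq_Ioc (μ := volume) (a := a) (b := b))]
    exact Measure.restrict_mono_set _ (Ioo_subset_Ioo hαa hbβ)
  have hI := integrableOn_integrand mg₁ mg₂ hCc hC' f₁ f₂
  have hIab : Integrable (fun τ => ((C' τ).1 • g₁ (C τ) + (C' τ).2 • g₂ (C τ)))
      (volume.restrict (Ioc a b)) := Integrable.mono_measure hI hle
  apply tendsto_integral_of_L1 _ hIab.aestronglyMeasurable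
  · apply Eventually.of_forall
    intro k
    have : Continuous fun τ => ((C' τ).1 • moll (φ k) g₁ (C τ) + (C' τ).2 • moll (φ k) g₂ (C τ)) :=
      (hC'.fst.smul ((hmc₁ k).comp hCc)).add (hC'.snd.smul ((hmc₂ k).comp hCc))
    exact (this.integrableOn_Icc (a := a) (b := b)).mono_set Ioc_subset_Icc_self
  · obtain ⟨M, hM⟩ := (isCompact_Icc (a := α) (b := β)).exists_bound_of_continuousOn
      hC'.continuousOn
    have m1 : ∀ k, Measurable fun τ => ‖moll (φ k) g₁ (C τ) - g₁ (C τ)‖ₑ := fun k =>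
      (((hmc₁ k).comp hCc).measurable.sub (mg₁.comp hCc.measurable)).enorm
    have m2 : ∀ k, Measurable fun τ => ‖moll (φ k) g₂ (C τ) - g₂ (C τ)‖ₑ := fun k =>
      (((hmc₂ k).comp hCc).measurable.sub (mg₂.comp hCc.measurable)).enorm
    have t1 := tendsto_lintegral_of_sq m1 h₁
    have t2 := tendsto_lintegral_of_sq m2 h₂
    have t3 : Tendsto (fun k => ENNReal.ofReal M *
        ((∫⁻ τ in Ioo α β, ‖moll (φ k) g₁ (C τ) - g₁ (C τ)‖ₑ) +
          (∫⁻ τ in Ioo α β, ‖moll (φ k) g₂ (C τ) - g₂ (C τ)‖ₑ))) atTop (𝓝 0) := by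
      have := ENNReal.Tendsto.const_mul (a := ENNReal.ofReal M) (t1.add t2)
        (Or.inr ENNReal.ofReal_ne_top)
      simpa using this
    refine tendsto_of_tendsto_of_tendsto_of_le_of_le tendsto_const_nhds t3
      (fun _ => zero_le) (fun k => ?_)
    calc ∫⁻ τ in Ioc a b, ‖((C' τ).1 • moll (φ k) g₁ (C τ) + (C' τ).2 • moll (φ k) g₂ (C τ)) -
          ((C' τ).1 • g₁ (C τ) + (C' τ).2 • g₂ (C τ))‖ₑ
        ≤ ∫⁻ τ in Ioo α β, ‖((C' τ).1 • moll (φ k) g₁ (C τ) + (C' τ).2 • moll (φ k) g₂ (C τ)) -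
          ((C' τ).1 • g₁ (C τ) + (C' τ).2 • g₂ (C τ))‖ₑ := lintegral_mono' hle le_rfl
      _ ≤ ∫⁻ τ in Ioo α β, ENNReal.ofReal M * (‖moll (φ k) g₁ (C τ) - g₁ (C τ)‖ₑ +
          ‖moll (φ k) g₂ (C τ) - g₂ (C τ)‖ₑ) := by
          apply setLIntegral_mono' measurableSet_Ioo
          intro τ hτ
          have e : ((C' τ).1 • moll (φ k) g₁ (C τ) + (C' τ).2 • moll (φ k) g₂ (C τ)) -
              ((C' τ).1 • g₁ (C τ) + (C' τ).2 • g₂ (C τ)) =
              (C' τ).1 • (moll (φ k) g₁ (C τ) - g₁ (C τ)) +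
              (C' τ).2 • (moll (φ k) g₂ (C τ) - g₂ (C τ)) := by
            rw [smul_sub, smul_sub]; abel
          rw [e]
          exact enorm_integrand_le (hM τ (Ioo_subset_Icc_self hτ)) _ _
      _ = _ := by
          rw [lintegral_const_mul' _ _ ENNReal.ofReal_ne_top, lintegral_add_left (m1 k)]

end

end Pool.Agent.MP_178ab7_mp
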