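import Mathlib

open MeasureTheory Set Filter Topology

namespace Pool.Agent.MP_178ab7_mp

variable {F : Type*} [NormedAddCommGroup F] [NormedSpace ℝ F] [CompleteSpace F]

/-- Continuous primitive. -/
lemma hasDerivAt_primitive {f : ℝ → F} (hf : Continuous f) (a : F) (x : ℝ) :
    HasDerivAt (fun s => a + ∫ t in (0 : ℝ)..s, f t) (f x) x := by
  have h := intervalIntegral.integral_hasDerivAt_right (hf.intervalIntegrable 0 x)
    (hf.stronglyMeasurableAtFilter _ _) hf.continuousAt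
  exact h.const_add a

/-- A `C²` function on `[0,1]` extends to a `C²` function on the line. -/
lemma exists_C2_extension (γ : ℝ → F) (h : ContDiffOn ℝ 2 γ (Icc 0 1)) :
    ∃ g : ℝ → F, ContDiff ℝ 2 g ∧ EqOn g γ (Icc 0 1) := by
  have hu : UniqueDiffOn ℝ (Icc (0 : ℝ) 1) := uniqueDiffOn_Icc zero_lt_one
  have h1 : ContDiffOn ℝ 1 (derivWithin γ (Icc 0 1)) (Icc 0 1) :=
    h.derivWithin hu (by norm_num)
  have h2 : ContinuousOn (derivWithin (derivWithin γ (Icc 0 1)) (Icc 0 1)) (Icc (0 : ℝ) 1) :=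
    h1.continuousOn_derivWithin hu le_rfl
  set γ1 : ℝ → F := derivWithin γ (Icc 0 1) with hγ1
  set γ2 : ℝ → F := derivWithin γ1 (Icc 0 1) with hγ2
  let a2 : ℝ → F := fun s => γ2 (projIcc (0 : ℝ) 1 zero_le_one s)
  have ha2 : Continuous a2 := by
    have := h2.domRestrict
    exact this.comp continuous_projIcc
  let a1 : ℝ → F := fun s => γ1 0 + ∫ t in (0 : ℝ)..s, a2 t
  have ha1d : ∀ x, HasDerivAt a1 (a2 x) x := hasDerivAt_primitive ha2 _
  have ha1 : Continuous a1 := continuous_iff_continuousAt.2 fun x => (ha1d x).continuousAt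
  let a0 : ℝ → F := fun s => γ 0 + ∫ t in (0 : ℝ)..s, a1 t
  have ha0d : ∀ x, HasDerivAt a0 (a1 x) x := hasDerivAt_primitive ha1 _
  have e1 : deriv a1 = a2 := funext fun x => (ha1d x).deriv
  have e0 : deriv a0 = a1 := funext fun x => (ha0d x).deriv
  have c1 : ContDiff ℝ 1 a1 := by
    rw [contDiff_one_iff_deriv, e1]
    exact ⟨fun x => (ha1d x).differentiableAt, ha2⟩
  have c0 : ContDiff ℝ 2 a0 := by
    have : (2 : WithTop ℕ∞) = 1 + 1 := by norm_num
    rw [this, contDiff_succ_iff_deriv, e0]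
    exact ⟨fun x => (ha0d x).differentiableAt, by simp, c1⟩
  have a2eq : ∀ x ∈ Icc (0 : ℝ) 1, a2 x = γ2 x := by
    intro x hx
    simp only [a2, projIcc_of_mem zero_le_one hx]
  have hd1 : ∀ x ∈ Ioo (0 : ℝ) 1, HasDerivAt γ1 (γ2 x) x := by
    intro x hx
    have := ((h1.differentiableOn (by norm_num)) x (Ioo_subset_Icc_self hx)).hasDerivWithinAt
    exact this.hasDerivAt (Icc_mem_nhds hx.1 hx.2)
  have hd0 : ∀ x ∈ Ioo (0 : ℝ) 1, HasDerivAt γ (γ1 x) x := by
    intro x hx
    have := ((h.differentiableOn (by norm_num)) x (Ioo_subset_Icc_self hx)).hasDerivWithinAt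
    exact this.hasDerivAt (Icc_mem_nhds hx.1 hx.2)
  have a1eq : ∀ x ∈ Icc (0 : ℝ) 1, a1 x = γ1 x := by
    intro x hx
    have h3 : ∫ t in (0 : ℝ)..x, γ2 t = γ1 x - γ1 0 := by
      apply intervalIntegral.integral_eq_sub_of_hasDerivAt_of_le hx.1
      · exact h1.continuousOn.mono (Icc_subset_Icc_right hx.2)
      · intro y hy
        exact hd1 y ⟨hy.1, hy.2.trans_le hx.2⟩
      · apply ContinuousOn.intervalIntegrable_of_Icc hx.1
        exact h2.mono (Icc_subset_Icc_right hx.2)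
    have h4 : ∫ t in (0 : ℝ)..x, a2 t = ∫ t in (0 : ℝ)..x, γ2 t := by
      apply intervalIntegral.integral_congr
      intro t ht
      rw [uIcc_of_le hx.1] at ht
      exact a2eq t ⟨ht.1, ht.2.trans hx.2⟩
    simp only [a1]
    rw [h4, h3]
    abel
  have a0eq : ∀ x ∈ Icc (0 : ℝ) 1, a0 x = γ x := by
    intro x hx
    have h3 : ∫ t in (0 : ℝ)..x, γ1 t = γ x - γ 0 := by
      apply intervalIntegral.integral_eq_sub_of_hasDerivAt_of_le hx.1
      · exact h.continuousOn.mono (Icc_subset_Icc_right hx.2)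
      · intro y hy
        exact hd0 y ⟨hy.1, hy.2.trans_le hx.2⟩
      · apply ContinuousOn.intervalIntegrable_of_Icc hx.1
        exact h1.continuousOn.mono (Icc_subset_Icc_right hx.2)
    have h4 : ∫ t in (0 : ℝ)..x, a1 t = ∫ t in (0 : ℝ)..x, γ1 t := by
      apply intervalIntegral.integral_congr
      intro t ht
      rw [uIcc_of_le hx.1] at ht
      exact a1eq t ⟨ht.1, ht.2.trans hx.2⟩
    simp only [a0]
    rw [h4, h3]
    abel
  exact ⟨a0, c0, a0eq⟩

end Pool.Agent.MP_178ab7_mp
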