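import Mathlib
import Pool.Agent.MP_178ab7_mp.Defs
import Pool.Agent.MP_178ab7_mp.Extend

open MeasureTheory Set Filter Topology

namespace Pool.Agent.MP_178ab7_mp

/-- The planar determinant. -/
def pdet (a b : ℝ × ℝ) : ℝ := a.1 * b.2 - b.1 * a.2

lemma det_eq_pdet (L : (ℝ × ℝ) →L[ℝ] (ℝ × ℝ)) : L.det = pdet (L (1, 0)) (L (0, 1)) := by
  rw [ContinuousLinearMap.det, ← LinearMap.det_toMatrix (Module.Basis.finTwoProd ℝ),
    Matrix.det_fin_two]
  simp [LinearMap.toMatrix_apply, pdet]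

/-- The normal field of a curve. -/
noncomputable def nrm (g : ℝ → ℝ × ℝ) (x : ℝ) : ℝ × ℝ := (-(deriv g x).2, (deriv g x).1)

/-- The normal coordinates of a curve. -/
noncomputable def tube (g : ℝ → ℝ × ℝ) (p : ℝ × ℝ) : ℝ × ℝ := g p.1 + p.2 • nrm g p.1

lemma contDiff_nrm {g : ℝ → ℝ × ℝ} (hg : ContDiff ℝ 2 g) : ContDiff ℝ 1 (nrm g) := by
  have h : ContDiff ℝ 1 (deriv g) := by
    have : (2 : WithTop ℕ∞) = 1 + 1 := by norm_num
    rw [this] at hg
    exact (contDiff_succ_iff_deriv.1 hg).2.2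
  unfold nrm
  fun_prop

lemma contDiff_tube {g : ℝ → ℝ × ℝ} (hg : ContDiff ℝ 2 g) : ContDiff ℝ 1 (tube g) := by
  have h := contDiff_nrm hg
  have h' : ContDiff ℝ 1 g := hg.of_le (by norm_num)
  unfold tube
  fun_prop

lemma fderiv_tube_snd {g : ℝ → ℝ × ℝ} (hg : ContDiff ℝ 2 g) (p : ℝ × ℝ) :
    fderiv ℝ (tube g) p (0, 1) = nrm g p.1 := by
  have hd : HasFDerivAt (tube g) (fderiv ℝ (tube g) p) p :=
    ((contDiff_tube hg).differentiable one_ne_zero p).hasFDerivAt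
  have hc : HasDerivAt (fun t : ℝ => (p.1, t)) ((0 : ℝ), (1 : ℝ)) p.2 :=
    (hasDerivAt_const _ _).prodMk (hasDerivAt_id _)
  have h1 : HasDerivAt (tube g ∘ fun t : ℝ => (p.1, t)) (fderiv ℝ (tube g) p (0, 1)) p.2 := by
    apply HasFDerivAt.comp_hasDerivAt
    · exact hd
    · exact hc
  have h2 : HasDerivAt (fun t : ℝ => tube g (p.1, t)) (nrm g p.1) p.2 := by
    have := ((hasDerivAt_id p.2).smul_const (nrm g p.1)).const_add (g p.1)
    simpa [tube] using this
  exact h1.unique h2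

lemma fderiv_tube_fst {g : ℝ → ℝ × ℝ} (hg : ContDiff ℝ 2 g) (x : ℝ) :
    fderiv ℝ (tube g) (x, 0) (1, 0) = deriv g x := by
  have hd : HasFDerivAt (tube g) (fderiv ℝ (tube g) (x, 0)) (x, 0) :=
    ((contDiff_tube hg).differentiable one_ne_zero (x, 0)).hasFDerivAt
  have hc : HasDerivAt (fun t : ℝ => (t, (0 : ℝ))) ((1 : ℝ), (0 : ℝ)) x :=
    (hasDerivAt_id _).prodMk (hasDerivAt_const _ _)
  have h1 : HasDerivAt (tube g ∘ fun t : ℝ => (t, (0 : ℝ)))
      (fderiv ℝ (tube g) (x, 0) (1, 0)) x := by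
    apply HasFDerivAt.comp_hasDerivAt
    · exact hd
    · exact hc
  have h2 : HasDerivAt (fun t : ℝ => tube g (t, 0)) (deriv g x) x := by
    have h3 : (fun t : ℝ => tube g (t, 0)) = g := by
      funext t
      simp [tube]
    rw [h3]
    exact ((hg.differentiable (by norm_num)) x).hasDerivAt
  exact h1.unique h2

lemma det_tube_pos {g : ℝ → ℝ × ℝ} (hg : ContDiff ℝ 2 g) {x : ℝ} (hx : deriv g x ≠ 0) :
    0 < (fderiv ℝ (tube g) (x, 0)).det := by
  rw [det_eq_pdet, fderiv_tube_snd hg, fderiv_tube_fst hg]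
  simp only [pdet, nrm]
  have : (deriv g x).1 ≠ 0 ∨ (deriv g x).2 ≠ 0 := by
    by_contra hcon
    push Not at hcon
    exact hx (Prod.ext hcon.1 hcon.2)
  rcases this with h | h
  · nlinarith [sq_nonneg (deriv g x).2, mul_self_pos.2 h]
  · nlinarith [sq_nonneg (deriv g x).1, mul_self_pos.2 h]

/-- Normal coordinates in a neighbourhood of the arc, extended a little beyond the end point
`γ(0)`. -/
structure Tube (A : Arc) where
  /-- the coordinate map -/
  Φ : ℝ × ℝ → ℝ × ℝ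
  /-- the width -/
  c : ℝ
  c_pos : 0 < c
  c_le : c ≤ 1
  contDiff : ContDiff ℝ 1 Φ
  eq : ∀ s ∈ Icc (0 : ℝ) 1, ∀ t : ℝ, Φ (s, t) = A.γ s + t • A.normal s
  inj : InjOn Φ (Icc (-c) 1 ×ˢ Icc (-c) c)
  /-- lower bound for the Jacobian -/
  m : ℝ
  m_pos : 0 < m
  det : ∀ p ∈ Icc (-c) 1 ×ˢ Icc (-c) c, m ≤ |(fderiv ℝ Φ p).det|
  avoid : ∀ p ∈ Icc (-c) 1 ×ˢ Icc (-c) c, Φ p ∈ A.carrier → p.2 = 0 ∧ 0 ≤ p.1

theorem exists_tube (A : Arc) : Nonempty (Tube A) := by
  obtain ⟨g, hg, hgγ⟩ := exists_C2_extension A.γ A.contDiffOn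
  have hdg : ∀ s ∈ Icc (0 : ℝ) 1, deriv g s = derivWithin A.γ (Icc 0 1) s := by
    intro s hs
    have hd : DifferentiableAt ℝ g s := (hg.differentiable (by norm_num)) s
    have hu : UniqueDiffWithinAt ℝ (Icc (0 : ℝ) 1) s := uniqueDiffOn_Icc zero_lt_one s hs
    rw [← hd.derivWithin hu]
    exact derivWithin_congr hgγ (hgγ hs)
  have hΦ := contDiff_tube hg
  -- the compact set
  set K : Set (ℝ × ℝ) := Icc 0 1 ×ˢ {0} with hK
  have hKc : IsCompact K := isCompact_Icc.prod isCompact_singleton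
  have hdet : ∀ p ∈ K, 0 < (fderiv ℝ (tube g) p).det := by
    rintro ⟨x, t⟩ ⟨hx, ht⟩
    simp only [mem_singleton_iff] at ht
    subst ht
    apply det_tube_pos hg
    rw [hdg x hx]
    exact A.regular x hx
  have hinjK : InjOn (tube g) K := by
    rintro ⟨x, t⟩ ⟨hx, ht⟩ ⟨y, t'⟩ ⟨hy, ht'⟩ hxy
    simp only [mem_singleton_iff] at ht ht'
    subst ht ht'
    simp only [tube, zero_smul, add_zero] at hxy
    rw [hgγ hx, hgγ hy] at hxy
    have h1 : x = y := A.injOn hx hy hxy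
    rw [h1]
  have hloc : ∀ p ∈ K, ∃ u ∈ 𝓝 p, InjOn (tube g) u := by
    intro p hp
    have hs : HasStrictFDerivAt (tube g) (fderiv ℝ (tube g) p) p :=
      hΦ.contDiffAt.hasStrictFDerivAt one_ne_zero
    set e := (fderiv ℝ (tube g) p).toContinuousLinearEquivOfDetNeZero (hdet p hp).ne'
    have hs' : HasStrictFDerivAt (tube g) (e : (ℝ × ℝ) →L[ℝ] (ℝ × ℝ)) p := by
      rw [ContinuousLinearMap.coe_toContinuousLinearEquivOfDetNeZero]
      exact hs
    refine ⟨(hs'.toOpenPartialHomeomorph (tube g)).source, ?_, ?_⟩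
    · exact (hs'.toOpenPartialHomeomorph (tube g)).open_source.mem_nhds
        hs'.mem_toOpenPartialHomeomorph_source
    · exact (hs'.toOpenPartialHomeomorph (tube g)).injOn
  obtain ⟨t, ht, hti⟩ := hinjK.exists_mem_nhdsSet hKc
    (fun x _ => hΦ.continuous.continuousAt) hloc
  have hdc : Continuous fun p => (fderiv ℝ (tube g) p).det :=
    ContinuousLinearMap.continuous_det.comp (hΦ.continuous_fderiv one_ne_zero)
  set V : Set (ℝ × ℝ) := interior t ∩ {p | 0 < (fderiv ℝ (tube g) p).det} with hV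
  have hVo : IsOpen V := isOpen_interior.inter (isOpen_lt continuous_const hdc)
  have hKV : K ⊆ V := fun p hp => ⟨subset_interior_iff_mem_nhdsSet.2 ht hp, hdet p hp⟩
  obtain ⟨δ, hδ, hδV⟩ := hKc.exists_cthickening_subset_open hVo hKV
  set c : ℝ := min δ 1 with hc
  have hc0 : 0 < c := lt_min hδ one_pos
  have hsub : Icc (-c) 1 ×ˢ Icc (-c) c ⊆ V := by
    rintro ⟨x, t⟩ ⟨hx, ht⟩
    apply hδV
    apply Metric.mem_cthickening_of_dist_le (x, t) (max x 0, 0) δ K
    · refine ⟨⟨le_max_right _ _, max_le hx.2 zero_le_one⟩, rfl⟩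
    · rw [Prod.dist_eq]
      apply max_le
      · simp only [Real.dist_eq]
        have hcδ : c ≤ δ := min_le_left _ _
        rcases le_total x 0 with h | h
        · rw [max_eq_right h, sub_zero, abs_of_nonpos h]
          have := hx.1
          simp only at this
          linarith
        · rw [max_eq_left h, sub_self, abs_zero]
          exact hδ.le
      · simp only [Real.dist_eq, sub_zero]
        exact (abs_le.2 ⟨ht.1, ht.2⟩).trans (min_le_left _ _)
  have hcomp : IsCompact (Icc (-c) 1 ×ˢ Icc (-c) c) := isCompact_Icc.prod isCompact_Icc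
  have hne : (Icc (-c) (1 : ℝ) ×ˢ Icc (-c) c).Nonempty :=
    ⟨(0, 0), ⟨by constructor <;> simp <;> linarith, by constructor <;> simp <;> linarith⟩⟩
  obtain ⟨p₀, hp₀, hmin⟩ := hcomp.exists_isMinOn hne hdc.continuousOn
  refine ⟨⟨tube g, c, hc0, min_le_right _ _, hΦ, ?_, ?_, (fderiv ℝ (tube g) p₀).det,
    (hsub hp₀).2, ?_, ?_⟩⟩
  · intro s hs t
    simp only [tube, Arc.normal, Arc.vel, nrm]
    rw [hgγ hs, hdg s hs]
  · exact hti.mono (fun p hp => interior_subset (hsub hp).1)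
  · intro p hp
    exact (hmin hp).trans (le_abs_self _)
  · rintro p hp ⟨s, hs, hsp⟩
    have h1 : tube g (s, 0) = tube g p := by
      rw [← hsp]
      simp only [tube, zero_smul, add_zero]
      exact hgγ hs
    have h0 : ((s, 0) : ℝ × ℝ) ∈ K := ⟨hs, mem_singleton _⟩
    have h2 : ((s, 0) : ℝ × ℝ) ∈ t := interior_subset (hKV h0).1
    have h3 := hti h2 (interior_subset (hsub hp).1) h1
    rw [← h3]
    exact ⟨rfl, hs.1⟩

end Pool.Agent.MP_178ab7_mp
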