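import Mathlib
import Pool.Agent.MP_178ab7_mp.Geometry
import Pool.Agent.MP_178ab7_mp.Mollify

open MeasureTheory Set Filter Topology
open scoped ENNReal

namespace Pool.Agent.MP_178ab7_mp

/-- Change of variables inequality. -/
lemma lintegral_comp_le {Ψ : ℝ × ℝ → ℝ × ℝ} {Ψ' : ℝ × ℝ → (ℝ × ℝ) →L[ℝ] (ℝ × ℝ)}
    {D : Set (ℝ × ℝ)} (hD : MeasurableSet D)
    (hder : ∀ x ∈ D, HasFDerivWithinAt Ψ (Ψ' x) D x) (hinj : InjOn Ψ D) {m : ℝ} (hm : 0 < m)
    (hdet : ∀ x ∈ D, m ≤ |(Ψ' x).det|) (f : ℝ × ℝ → ℝ≥0∞) :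
    ∫⁻ x in D, f (Ψ x) ≤ ENNReal.ofReal m⁻¹ * ∫⁻ x, f x := by
  calc ∫⁻ x in D, f (Ψ x) ≤ ∫⁻ x in D, ENNReal.ofReal m⁻¹ *
        (ENNReal.ofReal |(Ψ' x).det| * f (Ψ x)) := by
        apply setLIntegral_mono' hD
        intro x hx
        rw [← mul_assoc, ← ENNReal.ofReal_mul (by positivity)]
        have : 1 ≤ m⁻¹ * |(Ψ' x).det| := by
          rw [← inv_mul_cancel₀ hm.ne']
          exact mul_le_mul_of_nonneg_left (hdet x hx) (by positivity)
        calc f (Ψ x) = 1 * f (Ψ x) := (one_mul _).symm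
          _ ≤ ENNReal.ofReal (m⁻¹ * |(Ψ' x).det|) * f (Ψ x) := by
              gcongr
              rw [← ENNReal.ofReal_one]
              exact ENNReal.ofReal_le_ofReal this
    _ = ENNReal.ofReal m⁻¹ * ∫⁻ x in D, ENNReal.ofReal |(Ψ' x).det| * f (Ψ x) :=
        lintegral_const_mul' _ _ ENNReal.ofReal_ne_top
    _ = ENNReal.ofReal m⁻¹ * ∫⁻ x in Ψ '' D, f x := by
        rw [lintegral_image_eq_lintegral_abs_det_fderiv_mul volume hD hder hinj]
    _ ≤ ENNReal.ofReal m⁻¹ * ∫⁻ x, f x := by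
        gcongr
        exact Measure.restrict_le_self

/-- A continuous map on the strip `(0,1) × (α, β)` which does not increase integrals by more than
a constant factor. -/
structure Good (Ψ : ℝ × ℝ → ℝ × ℝ) (α β : ℝ) (K : ℝ≥0∞) : Prop where
  cont : Continuous Ψ
  fin : K ≠ ⊤
  le : ∀ f : ℝ × ℝ → ℝ≥0∞, ∫⁻ p in Ioo 0 1 ×ˢ Ioo α β, f (Ψ p) ≤ K * ∫⁻ p, f p

namespace Good

variable {Ψ : ℝ × ℝ → ℝ × ℝ} {α β : ℝ} {K : ℝ≥0∞}

lemma restrict_eq (α β : ℝ) : (volume : Measure (ℝ × ℝ)).restrict (Ioo 0 1 ×ˢ Ioo α β) =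
    (volume.restrict (Ioo (0 : ℝ) 1)).prod (volume.restrict (Ioo α β)) := by
  rw [Measure.prod_restrict]
  rfl

lemma quasi (h : Good Ψ α β K) : Measure.QuasiMeasurePreserving Ψ
    (volume.restrict (Ioo 0 1 ×ˢ Ioo α β)) volume := by
  refine ⟨h.cont.measurable, ?_⟩
  refine Measure.AbsolutelyContinuous.mk fun s hs hs0 => ?_
  rw [Measure.map_apply h.cont.measurable hs]
  have h1 := h.le (s.indicator 1)
  rw [lintegral_indicator_one hs, hs0, mul_zero, nonpos_iff_eq_zero] at h1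
  have h2 : ∫⁻ p in Ioo 0 1 ×ˢ Ioo α β, (Ψ ⁻¹' s).indicator 1 p = 0 := h1
  rwa [lintegral_indicator_one (h.cont.measurable hs)] at h2

/-- Almost everywhere statements pull back. -/
lemma ae (h : Good Ψ α β K) {p : ℝ × ℝ → Prop} (hp : ∀ᵐ x, p x) :
    ∀ᵐ s ∂(volume.restrict (Ioo (0 : ℝ) 1)), ∀ᵐ t ∂(volume.restrict (Ioo α β)), p (Ψ (s, t)) := by
  have h1 : ∀ᵐ x ∂((volume : Measure (ℝ × ℝ)).restrict (Ioo 0 1 ×ˢ Ioo α β)), p (Ψ x) :=
    h.quasi.ae hp
  rw [restrict_eq] at h1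
  exact Measure.ae_ae_of_ae_prod h1

lemma lintegral_lintegral (h : Good Ψ α β K) {f : ℝ × ℝ → ℝ≥0∞} (hf : Measurable f) :
    ∫⁻ s in Ioo (0 : ℝ) 1, ∫⁻ t in Ioo α β, f (Ψ (s, t)) ≤ K * ∫⁻ p, f p := by
  refine le_trans (le_of_eq ?_) (h.le f)
  have hm : Measurable fun p => f (Ψ p) := hf.comp h.cont.measurable
  rw [restrict_eq, lintegral_prod (fun p => f (Ψ p)) hm.aemeasurable]

lemma ae_lintegral_lt_top (h : Good Ψ α β K) {f : ℝ × ℝ → ℝ≥0∞} (hf : Measurable f)
    (hfin : ∫⁻ p, f p ≠ ⊤) :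
    ∀ᵐ s ∂(volume.restrict (Ioo (0 : ℝ) 1)), ∫⁻ t in Ioo α β, f (Ψ (s, t)) < ⊤ := by
  apply ae_lt_top
  · have hm : Measurable fun p => f (Ψ p) := hf.comp h.cont.measurable
    exact hm.lintegral_prod_right'
  · exact ne_top_of_le_ne_top (ENNReal.mul_ne_top h.fin hfin) (h.lintegral_lintegral hf)

/-- If `∑ ∫ f_k < ∞` then for almost every `s`, `∫ f_k(Ψ(s, t)) dt → 0`. -/
lemma ae_tendsto_zero (h : Good Ψ α β K) {f : ℕ → ℝ × ℝ → ℝ≥0∞} (hf : ∀ k, Measurable (f k))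
    (hfin : ∑' k, ∫⁻ p, f k p ≠ ⊤) :
    ∀ᵐ s ∂(volume.restrict (Ioo (0 : ℝ) 1)),
      Tendsto (fun k => ∫⁻ t in Ioo α β, f k (Ψ (s, t))) atTop (𝓝 0) := by
  have h1 : ∫⁻ p, ∑' k, f k p ≠ ⊤ := by
    rw [lintegral_tsum (fun k => (hf k).aemeasurable)]
    exact hfin
  have h2 := h.ae_lintegral_lt_top (f := fun p => ∑' k, f k p) (Measurable.tsum hf) h1
  filter_upwards [h2] with s hs
  rw [lintegral_tsum] at hs
  · exact ENNReal.tendsto_atTop_zero_of_tsum_ne_top hs.ne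
  · intro k
    exact ((hf k).comp (h.cont.measurable.comp measurable_prodMk_left)).aemeasurable

end Good

lemma det_comp' (L M : (ℝ × ℝ) →L[ℝ] (ℝ × ℝ)) : (L.comp M).det = L.det * M.det := by
  simp only [ContinuousLinearMap.det]
  exact LinearMap.det_comp _ _

namespace Tube

variable {A : Arc} (T : Tube A)

lemma good_comp {a : ℝ × ℝ → ℝ × ℝ} {L : (ℝ × ℝ) →L[ℝ] (ℝ × ℝ)} {α β m' : ℝ}
    (ha : ∀ p, HasFDerivAt a L p) (hinj : Function.Injective a) (hm' : 0 < m')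
    (hL : m' ≤ |L.det|) (hmaps : MapsTo a (Ioo 0 1 ×ˢ Ioo α β) (Icc (-T.c) 1 ×ˢ Icc (-T.c) T.c)) :
    Good (T.Φ ∘ a) α β (ENNReal.ofReal (T.m * m')⁻¹) := by
  have hac : Continuous a := continuous_iff_continuousAt.2 fun p => (ha p).continuousAt
  refine ⟨T.contDiff.continuous.comp hac, ENNReal.ofReal_ne_top, ?_⟩
  intro f
  refine lintegral_comp_le (Ψ' := fun p => (fderiv ℝ T.Φ (a p)).comp L)
    (measurableSet_Ioo.prod measurableSet_Ioo) ?_ ?_ (mul_pos T.m_pos hm') ?_ f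
  · intro p _
    have h1 : HasFDerivAt T.Φ (fderiv ℝ T.Φ (a p)) (a p) :=
      (T.contDiff.differentiable one_ne_zero (a p)).hasFDerivAt
    exact (h1.comp p (ha p)).hasFDerivWithinAt
  · exact T.inj.comp (hinj.injOn) hmaps
  · intro p hp
    rw [det_comp', abs_mul]
    exact mul_le_mul (T.det _ (hmaps hp)) hL hm'.le (abs_nonneg _)

/-- The height of the loop with parameter `s`. -/
noncomputable def ht (s : ℝ) : ℝ := T.c * (1 + s) / 2

lemma ht_mem {s : ℝ} (hs : s ∈ Icc (0 : ℝ) 1) : T.ht s ∈ Icc (T.c / 2) T.c := by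
  have := T.c_pos
  unfold ht
  constructor <;> nlinarith [hs.1, hs.2]

lemma ht_pos {s : ℝ} (hs : s ∈ Icc (0 : ℝ) 1) : 0 < T.ht s := by
  have := T.c_pos
  have := (T.ht_mem hs).1
  linarith

/-- Verticals. -/
noncomputable def Ψ₁ (p : ℝ × ℝ) : ℝ × ℝ := T.Φ p
/-- Upper horizontals. -/
noncomputable def Ψ₂ (p : ℝ × ℝ) : ℝ × ℝ := T.Φ (p.2, T.ht p.1)
/-- Verticals beyond the tip. -/
noncomputable def Ψ₃ (p : ℝ × ℝ) : ℝ × ℝ := T.Φ (-T.ht p.1, p.2)
/-- Lower horizontals. -/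
noncomputable def Ψ₄ (p : ℝ × ℝ) : ℝ × ℝ := T.Φ (p.2, -T.ht p.1)

/-- The constant in the change of variables inequalities. -/
noncomputable def K : ℝ≥0∞ := ENNReal.ofReal (T.m * (T.c / 2))⁻¹

lemma good₁ : Good T.Ψ₁ (-T.c) T.c T.K := by
  have hc := T.c_pos
  have := T.c_le
  have h := T.good_comp (a := id) (L := ContinuousLinearMap.id ℝ (ℝ × ℝ)) (α := -T.c) (β := T.c)
    (m' := T.c / 2) (fun p => hasFDerivAt_id p) Function.injective_id (by linarith)
    (by simp [ContinuousLinearMap.det, abs_of_pos]; linarith)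
    (by
      rintro ⟨s, t⟩ ⟨hs, ht⟩
      simp only [mem_Ioo, id, mem_prod, mem_Icc] at *
      constructor <;> constructor <;> linarith [hs.1, hs.2, ht.1, ht.2])
  exact h

lemma good₂ : Good T.Ψ₂ (-T.c) 1 T.K := by
  have hc := T.c_pos
  have := T.c_le
  let L : (ℝ × ℝ) →L[ℝ] (ℝ × ℝ) := (ContinuousLinearMap.snd ℝ ℝ ℝ).prod
    ((T.c / 2) • ContinuousLinearMap.fst ℝ ℝ ℝ)
  have h := T.good_comp (a := fun p => (p.2, T.ht p.1)) (L := L) (α := -T.c) (β := 1)
    (m' := T.c / 2)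
    (by
      intro p
      apply HasFDerivAt.prodMk
      · exact hasFDerivAt_snd
      · have h1 : HasFDerivAt (fun p : ℝ × ℝ => p.1) (ContinuousLinearMap.fst ℝ ℝ ℝ) p :=
          hasFDerivAt_fst
        have h2 := (h1.const_mul (T.c / 2)).add_const (T.c / 2)
        refine h2.congr_of_eventuallyEq (Eventually.of_forall fun q => ?_)
        simp only [ht]
        ring)
    (by
      rintro ⟨a, b⟩ ⟨a', b'⟩ h
      simp only [ht, Prod.mk.injEq] at h
      have : a = a' := by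
        have := h.2
        field_simp at this
        linarith
      rw [this, h.1]) (by linarith)
    (by
      rw [det_eq_pdet]
      simp only [L, pdet, ContinuousLinearMap.prod_apply, ContinuousLinearMap.coe_snd',
        ContinuousLinearMap.coe_fst', smul_apply,
        neg_apply, smul_eq_mul]
      rw [le_abs']
      first
        | (left; linarith)
        | (right; linarith))
    (by
      rintro ⟨s, t⟩ ⟨hs, ht⟩
      have h1 := T.ht_mem (Ioo_subset_Icc_self hs)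
      simp only [mem_Ioo, mem_prod, mem_Icc] at *
      refine ⟨⟨ht.1.le, ht.2.le⟩, ?_, ?_⟩ <;> linarith [h1.1, h1.2])
  exact h

lemma good₃ : Good T.Ψ₃ (-T.c) T.c T.K := by
  have hc := T.c_pos
  have := T.c_le
  let L : (ℝ × ℝ) →L[ℝ] (ℝ × ℝ) := (-((T.c / 2) • ContinuousLinearMap.fst ℝ ℝ ℝ)).prod
    (ContinuousLinearMap.snd ℝ ℝ ℝ)
  have h := T.good_comp (a := fun p => (-T.ht p.1, p.2)) (L := L) (α := -T.c) (β := T.c)
    (m' := T.c / 2)
    (by
      intro p
      apply HasFDerivAt.prodMk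
      · have h1 : HasFDerivAt (fun p : ℝ × ℝ => p.1) (ContinuousLinearMap.fst ℝ ℝ ℝ) p :=
          hasFDerivAt_fst
        have h2 := ((h1.const_mul (T.c / 2)).add_const (T.c / 2)).neg
        refine h2.congr_of_eventuallyEq (Eventually.of_forall fun q => ?_)
        simp only [ht, Pi.neg_apply]
        ring
      · exact hasFDerivAt_snd)
    (by
      rintro ⟨a, b⟩ ⟨a', b'⟩ h
      simp only [ht, Prod.mk.injEq] at h
      have : a = a' := by
        have := h.1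
        field_simp at this
        linarith
      rw [this, h.2]) (by linarith)
    (by
      rw [det_eq_pdet]
      simp only [L, pdet, ContinuousLinearMap.prod_apply, ContinuousLinearMap.coe_snd',
        ContinuousLinearMap.coe_fst', smul_apply,
        neg_apply, smul_eq_mul]
      rw [le_abs']
      first
        | (left; linarith)
        | (right; linarith))
    (by
      rintro ⟨s, t⟩ ⟨hs, ht⟩
      have h1 := T.ht_mem (Ioo_subset_Icc_self hs)
      simp only [mem_Ioo, mem_prod, mem_Icc] at *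
      refine ⟨⟨?_, ?_⟩, ?_, ?_⟩ <;> linarith [h1.1, h1.2])
  exact h

lemma good₄ : Good T.Ψ₄ (-T.c) 1 T.K := by
  have hc := T.c_pos
  have := T.c_le
  let L : (ℝ × ℝ) →L[ℝ] (ℝ × ℝ) := (ContinuousLinearMap.snd ℝ ℝ ℝ).prod
    (-((T.c / 2) • ContinuousLinearMap.fst ℝ ℝ ℝ))
  have h := T.good_comp (a := fun p => (p.2, -T.ht p.1)) (L := L) (α := -T.c) (β := 1)
    (m' := T.c / 2)
    (by
      intro p
      apply HasFDerivAt.prodMk
      · exact hasFDerivAt_snd
      · have h1 : HasFDerivAt (fun p : ℝ × ℝ => p.1) (ContinuousLinearMap.fst ℝ ℝ ℝ) p :=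
          hasFDerivAt_fst
        have h2 := ((h1.const_mul (T.c / 2)).add_const (T.c / 2)).neg
        refine h2.congr_of_eventuallyEq (Eventually.of_forall fun q => ?_)
        simp only [ht, Pi.neg_apply]
        ring)
    (by
      rintro ⟨a, b⟩ ⟨a', b'⟩ h
      simp only [ht, Prod.mk.injEq] at h
      have : a = a' := by
        have := h.2
        field_simp at this
        linarith
      rw [this, h.1]) (by linarith)
    (by
      rw [det_eq_pdet]
      simp only [L, pdet, ContinuousLinearMap.prod_apply, ContinuousLinearMap.coe_snd',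
        ContinuousLinearMap.coe_fst', smul_apply,
        neg_apply, smul_eq_mul]
      rw [le_abs']
      first
        | (left; linarith)
        | (right; linarith))
    (by
      rintro ⟨s, t⟩ ⟨hs, ht⟩
      have h1 := T.ht_mem (Ioo_subset_Icc_self hs)
      simp only [mem_Ioo, mem_prod, mem_Icc] at *
      refine ⟨⟨ht.1.le, ht.2.le⟩, ?_, ?_⟩ <;> linarith [h1.1, h1.2])
  exact h

end Tube

end Pool.Agent.MP_178ab7_mp
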