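import Mathlib
import Pool.Agent.MP_178ab7_mp.Pieces
import Pool.Agent.MP_178ab7_mp.Curve
import Pool.Agent.MP_178ab7_mp.Average

open MeasureTheory Set Filter Topology Metric
open scoped ENNReal ContDiff

namespace Pool.Agent.MP_178ab7_mp

lemma lintegral_sq_ne_top (g : L2) : ∫⁻ x, ‖g x‖ₑ ^ 2 ≠ ⊤ := by
  rw [← eLpNorm_two_sq]
  exact ENNReal.pow_ne_top (Lp.memLp g).eLpNorm_ne_top

lemma sq_le_of_eLpNorm_le {f g : ℝ × ℝ → ℂ} {k : ℕ}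
    (h : eLpNorm (f - g) 2 volume ≤ ENNReal.ofReal ((1 / 2) ^ k)) :
    ∫⁻ x, ‖f x - g x‖ₑ ^ 2 ≤ (ENNReal.ofReal (1 / 2)) ^ k := by
  have e2 : ∫⁻ x, ‖f x - g x‖ₑ ^ 2 = eLpNorm (f - g) 2 volume ^ 2 := (eLpNorm_two_sq _).symm
  rw [e2]
  calc eLpNorm (f - g) 2 volume ^ 2
      ≤ (ENNReal.ofReal ((1 / 2) ^ k)) ^ 2 := by gcongr
    _ ≤ ENNReal.ofReal ((1 / 2) ^ k) ^ 1 := by
        apply pow_le_pow_right_of_le_one' _ (by norm_num)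
        rw [← ENNReal.ofReal_one]
        exact ENNReal.ofReal_le_ofReal (pow_le_one₀ (by norm_num) (by norm_num))
    _ = _ := by rw [pow_one, ENNReal.ofReal_pow (by norm_num)]

lemma tsum_ne_top_of_le {a : ℕ → ℝ≥0∞} (h : ∀ k, a k ≤ (ENNReal.ofReal (1 / 2)) ^ k) :
    ∑' k, a k ≠ ⊤ := by
  refine ne_top_of_le_ne_top ?_ (ENNReal.tsum_le_tsum h)
  rw [ENNReal.tsum_geometric]
  apply ENNReal.inv_ne_top.2
  apply (tsub_pos_of_lt _).ne'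
  rw [← ENNReal.ofReal_one]
  exact (ENNReal.ofReal_lt_ofReal_iff one_pos).2 (by norm_num)

/-- A good sequence of mollifiers. -/
lemma exists_seq (u g₁ g₂ : L2) : ∃ φ : ℕ → ContDiffBump (0 : ℝ × ℝ),
    Tendsto (fun k => (φ k).rOut) atTop (𝓝 0) ∧
    (∀ᵐ x, Tendsto (fun k => moll (φ k) u x) atTop (𝓝 (u x))) ∧
    (∑' k, ∫⁻ x, ‖moll (φ k) g₁ x - g₁ x‖ₑ ^ 2 ≠ ⊤) ∧
    (∑' k, ∫⁻ x, ‖moll (φ k) g₂ x - g₂ x‖ₑ ^ 2 ≠ ⊤) := by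
  have hpos : ∀ k : ℕ, (0 : ℝ) < (1 / 2) ^ k := fun k => by positivity
  choose δ₁ hδ₁ h₁ using fun k : ℕ =>
    exists_moll_close (measurable_L2 g₁) (Lp.memLp g₁) (hpos k)
  choose δ₂ hδ₂ h₂ using fun k : ℕ =>
    exists_moll_close (measurable_L2 g₂) (Lp.memLp g₂) (hpos k)
  set r : ℕ → ℝ := fun k => min (min (δ₁ k) (δ₂ k)) (1 / (k + 1)) / 2 with hr
  have hpos' : ∀ k : ℕ, 0 < min (min (δ₁ k) (δ₂ k)) (1 / ((k : ℝ) + 1)) := fun k =>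
    lt_min (lt_min (hδ₁ k) (hδ₂ k)) (by positivity)
  have hr0 : ∀ k, 0 < r k := fun k => half_pos (hpos' k)
  have hrlt : ∀ k, r k < min (min (δ₁ k) (δ₂ k)) (1 / (k + 1)) := fun k => half_lt_self (hpos' k)
  have hrt : Tendsto r atTop (𝓝 0) := by
    refine squeeze_zero (fun k => (hr0 k).le) (fun k => ?_)
      tendsto_one_div_add_atTop_nhds_zero_nat
    exact (hrlt k).le.trans (min_le_right _ _)
  refine ⟨fun k => bump (r k) (hr0 k), hrt, ?_, ?_, ?_⟩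
  · apply ContDiffBump.ae_convolution_tendsto_right_of_locallyIntegrable (K := 2)
    · exact hrt
    · apply Eventually.of_forall
      intro k
      show r k ≤ 2 * (r k / 2)
      linarith
    · exact memLp_two_locallyIntegrable (Lp.memLp u)
  · apply tsum_ne_top_of_le
    intro k
    apply sq_le_of_eLpNorm_le
    exact h₁ k (bump (r k) (hr0 k))
      ((hrlt k).trans_le ((min_le_left _ _).trans (min_le_left _ _)))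
  · apply tsum_ne_top_of_le
    intro k
    apply sq_le_of_eLpNorm_le
    exact h₂ k (bump (r k) (hr0 k))
      ((hrlt k).trans_le ((min_le_left _ _).trans (min_le_right _ _)))

/-- The behaviour required of `g` along one curve of a family. -/
def PieceOK (Ψ : ℝ × ℝ → ℝ × ℝ) (α β : ℝ) (φ : ℕ → ContDiffBump (0 : ℝ × ℝ)) (g : L2)
    (s : ℝ) : Prop :=
  Tendsto (fun k => ∫⁻ t in Ioo α β, ‖moll (φ k) g (Ψ (s, t)) - g (Ψ (s, t))‖ₑ ^ 2) atTop (𝓝 0) ∧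
    ∫⁻ t in Ioo α β, ‖g (Ψ (s, t))‖ₑ ^ 2 < ⊤

lemma Good.pieceOK {Ψ : ℝ × ℝ → ℝ × ℝ} {α β : ℝ} {K : ℝ≥0∞} (h : Good Ψ α β K)
    {φ : ℕ → ContDiffBump (0 : ℝ × ℝ)} {g : L2}
    (hsum : ∑' k, ∫⁻ x, ‖moll (φ k) g x - g x‖ₑ ^ 2 ≠ ⊤) :
    ∀ᵐ s ∂(volume.restrict (Ioo (0 : ℝ) 1)), PieceOK Ψ α β φ g s := by
  have mg := measurable_L2 g
  have hl : LocallyIntegrable (g : ℝ × ℝ → ℂ) := memLp_two_locallyIntegrable (Lp.memLp g)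
  have h1 := h.ae_tendsto_zero (f := fun k x => ‖moll (φ k) g x - g x‖ₑ ^ 2)
    (fun k => ((contDiff_moll (φ k) hl).continuous.measurable.sub mg).enorm.pow_const 2) hsum
  have h2 := h.ae_lintegral_lt_top (f := fun x => ‖g x‖ₑ ^ 2) (mg.enorm.pow_const 2)
    (lintegral_sq_ne_top g)
  filter_upwards [h1, h2] with s a b
  exact ⟨a, b⟩

namespace Tube

variable {A : Arc} (T : Tube A)

lemma hasDerivAt_vert (x τ : ℝ) :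
    HasDerivAt (fun t => T.Φ (x, t)) (fderiv ℝ T.Φ (x, τ) (0, 1)) τ := by
  have hd : HasFDerivAt T.Φ (fderiv ℝ T.Φ (x, τ)) (x, τ) :=
    (T.contDiff.differentiable one_ne_zero (x, τ)).hasFDerivAt
  have hc : HasDerivAt (fun t : ℝ => (x, t)) ((0 : ℝ), (1 : ℝ)) τ :=
    (hasDerivAt_const _ _).prodMk (hasDerivAt_id _)
  have h1 : HasDerivAt (T.Φ ∘ fun t : ℝ => (x, t)) (fderiv ℝ T.Φ (x, τ) (0, 1)) τ := by
    apply HasFDerivAt.comp_hasDerivAt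
    · exact hd
    · exact hc
  exact h1

lemma hasDerivAt_horiz (y τ : ℝ) :
    HasDerivAt (fun t => T.Φ (t, y)) (fderiv ℝ T.Φ (τ, y) (1, 0)) τ := by
  have hd : HasFDerivAt T.Φ (fderiv ℝ T.Φ (τ, y)) (τ, y) :=
    (T.contDiff.differentiable one_ne_zero (τ, y)).hasFDerivAt
  have hc : HasDerivAt (fun t : ℝ => (t, y)) ((1 : ℝ), (0 : ℝ)) τ :=
    (hasDerivAt_id _).prodMk (hasDerivAt_const _ _)
  have h1 : HasDerivAt (T.Φ ∘ fun t : ℝ => (t, y)) (fderiv ℝ T.Φ (τ, y) (1, 0)) τ := by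
    apply HasFDerivAt.comp_hasDerivAt
    · exact hd
    · exact hc
  exact h1

lemma continuous_vert (x : ℝ) : Continuous fun τ => fderiv ℝ T.Φ (x, τ) (0, 1) :=
  ((T.contDiff.continuous_fderiv one_ne_zero).comp (by fun_prop)).clm_apply continuous_const

lemma continuous_horiz (y : ℝ) : Continuous fun τ => fderiv ℝ T.Φ (τ, y) (1, 0) :=
  ((T.contDiff.continuous_fderiv one_ne_zero).comp (by fun_prop)).clm_apply continuous_const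

lemma exists_bound : ∃ M : ℝ, 0 ≤ M ∧ ∀ p ∈ Icc (-T.c) 1 ×ˢ Icc (-T.c) T.c,
    ‖fderiv ℝ T.Φ p (0, 1)‖ ≤ M ∧ ‖fderiv ℝ T.Φ p (1, 0)‖ ≤ M := by
  have hcomp : IsCompact (Icc (-T.c) (1 : ℝ) ×ˢ Icc (-T.c) T.c) :=
    isCompact_Icc.prod isCompact_Icc
  obtain ⟨M, hM⟩ := hcomp.exists_bound_of_continuousOn
    (T.contDiff.continuous_fderiv one_ne_zero).continuousOn
  refine ⟨max M 0, le_max_right _ _, fun p hp => ⟨?_, ?_⟩⟩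
  · calc ‖fderiv ℝ T.Φ p (0, 1)‖ ≤ ‖fderiv ℝ T.Φ p‖ * ‖((0 : ℝ), (1 : ℝ))‖ :=
          (fderiv ℝ T.Φ p).le_opNorm _
      _ = ‖fderiv ℝ T.Φ p‖ := by simp [Prod.norm_def]
      _ ≤ max M 0 := (hM p hp).trans (le_max_left _ _)
  · calc ‖fderiv ℝ T.Φ p (1, 0)‖ ≤ ‖fderiv ℝ T.Φ p‖ * ‖((1 : ℝ), (0 : ℝ))‖ :=
          (fderiv ℝ T.Φ p).le_opNorm _
      _ = ‖fderiv ℝ T.Φ p‖ := by simp [Prod.norm_def]
      _ ≤ max M 0 := (hM p hp).trans (le_max_left _ _)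

end Tube

lemma isCompact_carrier (A : Arc) : IsCompact A.carrier :=
  isCompact_Icc.image_of_continuousOn A.contDiffOn.continuousOn

/-- Bound for line integrals. -/
lemma enorm_lineInt_sq_le {g₁ g₂ : ℝ × ℝ → ℂ} (hg₁ : Measurable g₁) (hg₂ : Measurable g₂)
    {C C' : ℝ → ℝ × ℝ} (hC : Continuous C) {α β a b M : ℝ} (hαa : α ≤ a)
    (hab : a ≤ b) (hbβ : b ≤ β) (h2 : β - α ≤ 2) (hM : ∀ τ ∈ Ioo α β, ‖C' τ‖ ≤ M) :
    ‖lineInt g₁ g₂ C C' a b‖ₑ ^ 2 ≤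
      ENNReal.ofReal M ^ 2 * (4 * ∫⁻ τ in Ioo α β, (‖g₁ (C τ)‖ₑ ^ 2 + ‖g₂ (C τ)‖ₑ ^ 2)) := by
  have m1 : Measurable fun τ => ‖g₁ (C τ)‖ₑ := (hg₁.comp hC.measurable).enorm
  have m2 : Measurable fun τ => ‖g₂ (C τ)‖ₑ := (hg₂.comp hC.measurable).enorm
  have hle : (volume : Measure ℝ).restrict (Ioc a b) ≤ volume.restrict (Ioo α β) := by
    rw [← Measure.restrict_congr_set (Ioo_ae_eq_Ioc (μ := volume) (a := a) (b := b))]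
    exact Measure.restrict_mono_set _ (Ioo_subset_Ioo hαa hbβ)
  have h1 : ‖lineInt g₁ g₂ C C' a b‖ₑ ≤
      ENNReal.ofReal M * ∫⁻ τ in Ioo α β, (‖g₁ (C τ)‖ₑ + ‖g₂ (C τ)‖ₑ) := by
    rw [lineInt_eq _ _ _ _ hab, ← lintegral_const_mul' _ _ ENNReal.ofReal_ne_top]
    refine (enorm_integral_le_lintegral_enorm _).trans ?_
    refine (lintegral_mono' hle le_rfl).trans ?_
    apply setLIntegral_mono' measurableSet_Ioo
    intro τ hτ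
    exact enorm_integrand_le (hM τ hτ) _ _
  have h3 : (∫⁻ τ in Ioo α β, (‖g₁ (C τ)‖ₑ + ‖g₂ (C τ)‖ₑ)) ^ 2 ≤
      4 * ∫⁻ τ in Ioo α β, (‖g₁ (C τ)‖ₑ ^ 2 + ‖g₂ (C τ)‖ₑ ^ 2) := by
    have h4 := lintegral_le_sqrt (I := Ioo α β) (m1.add m2)
    calc (∫⁻ τ in Ioo α β, (‖g₁ (C τ)‖ₑ + ‖g₂ (C τ)‖ₑ)) ^ 2
        ≤ (volume (Ioo α β) ^ (1 / 2 : ℝ) *
          (∫⁻ t in Ioo α β, (‖g₁ (C t)‖ₑ + ‖g₂ (C t)‖ₑ) ^ 2) ^ (1 / 2 : ℝ)) ^ 2 := by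
          gcongr
          exact h4
      _ = volume (Ioo α β) * ∫⁻ t in Ioo α β, (‖g₁ (C t)‖ₑ + ‖g₂ (C t)‖ₑ) ^ 2 := by
          rw [mul_pow, ← ENNReal.rpow_natCast, ← ENNReal.rpow_natCast, ← ENNReal.rpow_mul,
            ← ENNReal.rpow_mul]
          norm_num
      _ ≤ 2 * ∫⁻ t in Ioo α β, 2 * (‖g₁ (C t)‖ₑ ^ 2 + ‖g₂ (C t)‖ₑ ^ 2) := by
          gcongr
          · rw [Real.volume_Ioo]
            have : (2 : ℝ≥0∞) = ENNReal.ofReal 2 := by simp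
            rw [this]
            exact ENNReal.ofReal_le_ofReal h2
          · exact ennreal_sq_add _ _
      _ = 4 * ∫⁻ τ in Ioo α β, (‖g₁ (C τ)‖ₑ ^ 2 + ‖g₂ (C τ)‖ₑ ^ 2) := by
          rw [lintegral_const_mul' _ _ (by norm_num), ← mul_assoc]
          norm_num
  calc ‖lineInt g₁ g₂ C C' a b‖ₑ ^ 2 ≤
      (ENNReal.ofReal M * ∫⁻ τ in Ioo α β, (‖g₁ (C τ)‖ₑ + ‖g₂ (C τ)‖ₑ)) ^ 2 := by gcongr
    _ = ENNReal.ofReal M ^ 2 * (∫⁻ τ in Ioo α β, (‖g₁ (C τ)‖ₑ + ‖g₂ (C τ)‖ₑ)) ^ 2 := mul_pow _ _ _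
    _ ≤ _ := by gcongr

end Pool.Agent.MP_178ab7_mp
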