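import Mathlib
import Pool.Agent.MP_178ab7_mp.Trace

open MeasureTheory Set Filter Topology Metric
open scoped ENNReal ContDiff

namespace Pool.Agent.MP_178ab7_mp

namespace Tube

variable {A : Arc} (T : Tube A)

/-- All the conditions needed at a parameter `s`. -/
structure GoodAt (u g₁ g₂ : L2) (φ : ℕ → ContDiffBump (0 : ℝ × ℝ)) (s : ℝ) : Prop where
  hs : s ∈ Ioo (0 : ℝ) 1
  pt : ∀ᵐ t ∂(volume.restrict (Ioo (-T.c) T.c)),
    Tendsto (fun k => moll (φ k) u (T.Φ (s, t))) atTop (𝓝 (u (T.Φ (s, t))))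
  a₁ : PieceOK T.Ψ₁ (-T.c) T.c φ g₁ s
  b₁ : PieceOK T.Ψ₁ (-T.c) T.c φ g₂ s
  a₂ : PieceOK T.Ψ₂ (-T.c) 1 φ g₁ s
  b₂ : PieceOK T.Ψ₂ (-T.c) 1 φ g₂ s
  a₃ : PieceOK T.Ψ₃ (-T.c) T.c φ g₁ s
  b₃ : PieceOK T.Ψ₃ (-T.c) T.c φ g₂ s
  a₄ : PieceOK T.Ψ₄ (-T.c) 1 φ g₁ s
  b₄ : PieceOK T.Ψ₄ (-T.c) 1 φ g₂ s

lemma ae_goodAt {u g₁ g₂ : L2} {φ : ℕ → ContDiffBump (0 : ℝ × ℝ)}
    (hae : ∀ᵐ x, Tendsto (fun k => moll (φ k) u x) atTop (𝓝 (u x)))
    (hs₁ : ∑' k, ∫⁻ x, ‖moll (φ k) g₁ x - g₁ x‖ₑ ^ 2 ≠ ⊤)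
    (hs₂ : ∑' k, ∫⁻ x, ‖moll (φ k) g₂ x - g₂ x‖ₑ ^ 2 ≠ ⊤) :
    ∀ᵐ s ∂(volume.restrict (Ioo (0 : ℝ) 1)), T.GoodAt u g₁ g₂ φ s := by
  filter_upwards [ae_restrict_mem measurableSet_Ioo, T.good₁.ae hae, T.good₁.pieceOK hs₁,
    T.good₁.pieceOK hs₂, T.good₂.pieceOK hs₁, T.good₂.pieceOK hs₂, T.good₃.pieceOK hs₁,
    T.good₃.pieceOK hs₂, T.good₄.pieceOK hs₁, T.good₄.pieceOK hs₂] with s h0 h1 h2 h3 h4 h5 h6 h7
    h8 h9
  exact ⟨h0, h1, h2, h3, h4, h5, h6, h7, h8, h9⟩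

/-- The four line integrals. -/
noncomputable def L₁ (g₁ g₂ : L2) (s a b : ℝ) : ℂ :=
  lineInt g₁ g₂ (fun t => T.Φ (s, t)) (fun t => fderiv ℝ T.Φ (s, t) (0, 1)) a b
noncomputable def L₂ (g₁ g₂ : L2) (s : ℝ) : ℂ :=
  lineInt g₁ g₂ (fun t => T.Φ (t, T.ht s)) (fun t => fderiv ℝ T.Φ (t, T.ht s) (1, 0)) (-T.ht s) s
noncomputable def L₃ (g₁ g₂ : L2) (s : ℝ) : ℂ :=
  lineInt g₁ g₂ (fun t => T.Φ (-T.ht s, t)) (fun t => fderiv ℝ T.Φ (-T.ht s, t) (0, 1))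
    (-T.ht s) (T.ht s)
noncomputable def L₄ (g₁ g₂ : L2) (s : ℝ) : ℂ :=
  lineInt g₁ g₂ (fun t => T.Φ (t, -T.ht s)) (fun t => fderiv ℝ T.Φ (t, -T.ht s) (1, 0)) (-T.ht s) s

/-- The jump as a sum of line integrals. -/
noncomputable def loopInt (g₁ g₂ : L2) (s : ℝ) : ℂ :=
  T.L₂ g₁ g₂ s + T.L₃ g₁ g₂ s - T.L₄ g₁ g₂ s - T.L₁ g₁ g₂ s (-T.ht s) (T.ht s)

lemma GoodAt.main {u g₁ g₂ : L2} {φ : ℕ → ContDiffBump (0 : ℝ × ℝ)} {s : ℝ}
    (G : T.GoodAt u g₁ g₂ φ s) (hφ : Tendsto (fun k => (φ k).rOut) atTop (𝓝 0))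
    (h : IsWeakGradient A.carrier u g₁ g₂) :
    ∃ a b : ℂ, Tendsto (fun ε => A.sideAverage u 1 s ε) (𝓝[>] 0) (𝓝 a) ∧
      Tendsto (fun ε => A.sideAverage u (-1) s ε) (𝓝[>] 0) (𝓝 b) ∧
      a - b = T.loopInt g₁ g₂ s := by
  have hs := G.hs
  have hs' : s ∈ Icc (0 : ℝ) 1 := Ioo_subset_Icc_self hs
  have hΛ : IsClosed A.carrier := (isCompact_carrier A).isClosed
  have hc := T.c_pos
  have hc1 := T.c_le
  have hh := T.ht_mem hs'
  have hh0 := T.ht_pos hs'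
  set y := T.ht s with hy
  have hyc : y ≤ T.c := hh.2
  -- the limits along the curves
  have V : ∀ a b : ℝ, -T.c ≤ a → a ≤ b → b ≤ T.c → (0 < a ∨ b < 0) →
      Tendsto (fun k => moll (φ k) u (T.Φ (s, b)) - moll (φ k) u (T.Φ (s, a))) atTop
        (𝓝 (T.L₁ g₁ g₂ s a b)) := by
    intro a b ha hab hb h0
    refine curve_limit hΛ h hφ (fun τ => T.hasDerivAt_vert s τ) (T.continuous_vert s) ha hab hb
      ?_ G.a₁.1 G.b₁.1 G.a₁.2 G.b₁.2
    intro τ hτ hmem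
    have h1 := T.avoid (s, τ) ⟨⟨by simp only; linarith [hs.1], by simp only; linarith [hs.2]⟩,
      ⟨by simp only; linarith [hτ.1], by simp only; linarith [hτ.2]⟩⟩ hmem
    have h2 : τ = 0 := h1.1
    rcases h0 with h0 | h0
    · linarith [hτ.1]
    · linarith [hτ.2]
  have H2 : Tendsto (fun k => moll (φ k) u (T.Φ (s, y)) - moll (φ k) u (T.Φ (-y, y))) atTop
      (𝓝 (T.L₂ g₁ g₂ s)) := by
    refine curve_limit hΛ h hφ (fun τ => T.hasDerivAt_horiz y τ) (T.continuous_horiz y)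
      (by linarith) (by linarith [hs.1]) (by linarith [hs.2]) ?_ G.a₂.1 G.b₂.1 G.a₂.2 G.b₂.2
    intro τ hτ hmem
    have h1 := T.avoid (τ, y) ⟨⟨by simp only; linarith [hτ.1], by simp only; linarith [hτ.2, hs.2]⟩,
      ⟨by simp only; linarith, by simp only; linarith⟩⟩ hmem
    have h2 : y = 0 := h1.1
    linarith
  have H3 : Tendsto (fun k => moll (φ k) u (T.Φ (-y, y)) - moll (φ k) u (T.Φ (-y, -y))) atTop
      (𝓝 (T.L₃ g₁ g₂ s)) := by
    refine curve_limit hΛ h hφ (fun τ => T.hasDerivAt_vert (-y) τ) (T.continuous_vert (-y))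
      (by linarith) (by linarith) (by linarith) ?_ G.a₃.1 G.b₃.1 G.a₃.2 G.b₃.2
    intro τ hτ hmem
    have h1 := T.avoid (-y, τ) ⟨⟨by simp only; linarith, by simp only; linarith⟩,
      ⟨by simp only; linarith [hτ.1], by simp only; linarith [hτ.2]⟩⟩ hmem
    have h2 : 0 ≤ -y := h1.2
    linarith
  have H4 : Tendsto (fun k => moll (φ k) u (T.Φ (s, -y)) - moll (φ k) u (T.Φ (-y, -y))) atTop
      (𝓝 (T.L₄ g₁ g₂ s)) := by
    refine curve_limit hΛ h hφ (fun τ => T.hasDerivAt_horiz (-y) τ) (T.continuous_horiz (-y))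
      (by linarith) (by linarith [hs.1]) (by linarith [hs.2]) ?_ G.a₄.1 G.b₄.1 G.a₄.2 G.b₄.2
    intro τ hτ hmem
    have h1 := T.avoid (τ, -y) ⟨⟨by simp only; linarith [hτ.1],
      by simp only; linarith [hτ.2, hs.2]⟩,
      ⟨by simp only; linarith, by simp only; linarith⟩⟩ hmem
    have h2 : -y = 0 := h1.1
    linarith
  -- a.e. statements on `(0, y)`
  have hpt := G.pt
  rw [ae_restrict_iff' measurableSet_Ioo] at hpt
  have hpt' : ∀ᵐ t : ℝ, -t ∈ Ioo (-T.c) T.c →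
      Tendsto (fun k => moll (φ k) u (T.Φ (s, -t))) atTop (𝓝 (u (T.Φ (s, -t)))) :=
    (Measure.measurePreserving_neg (volume : Measure ℝ)).quasiMeasurePreserving.ae hpt
  -- the value at the upper corner
  obtain ⟨κ₀, hκ₀, hκ₀l⟩ : ∃ κ ∈ Ioo 0 y,
      Tendsto (fun k => moll (φ k) u (T.Φ (s, κ))) atTop (𝓝 (u (T.Φ (s, κ)))) := by
    have hne : (ae (volume.restrict (Ioo 0 y))).NeBot := by
      rw [ae_neBot, Ne, Measure.restrict_eq_zero, Real.volume_Ioo]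
      simp [hh0]
    have h1 : ∀ᵐ κ ∂(volume.restrict (Ioo 0 y)), κ ∈ Ioo 0 y ∧
        Tendsto (fun k => moll (φ k) u (T.Φ (s, κ))) atTop (𝓝 (u (T.Φ (s, κ)))) := by
      rw [ae_restrict_iff' measurableSet_Ioo]
      filter_upwards [hpt] with κ hκ hκ'
      exact ⟨hκ', hκ ⟨by linarith [hκ'.1], by linarith [hκ'.2]⟩⟩
    exact h1.exists
  set B : ℂ := T.L₁ g₁ g₂ s κ₀ y + u (T.Φ (s, κ₀)) with hB
  have hBl : Tendsto (fun k => moll (φ k) u (T.Φ (s, y))) atTop (𝓝 B) := by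
    have := (V κ₀ y (by linarith [hκ₀.1]) hκ₀.2.le hyc (Or.inl hκ₀.1)).add hκ₀l
    refine this.congr (fun k => ?_)
    ring
  set B' : ℂ := B - T.L₂ g₁ g₂ s - T.L₃ g₁ g₂ s + T.L₄ g₁ g₂ s with hB'
  have hBl' : Tendsto (fun k => moll (φ k) u (T.Φ (s, -y))) atTop (𝓝 B') := by
    have := ((hBl.sub H2).sub H3).add H4
    refine this.congr (fun k => ?_)
    ring
  -- the integrand on the vertical line
  set f : ℝ → ℂ := fun t => (fderiv ℝ T.Φ (s, t) (0, 1)).1 • g₁ (T.Φ (s, t)) +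
    (fderiv ℝ T.Φ (s, t) (0, 1)).2 • g₂ (T.Φ (s, t)) with hf
  have hL : ∀ a b : ℝ, T.L₁ g₁ g₂ s a b = ∫ τ in a..b, f τ := fun a b => rfl
  have hfi : IntegrableOn f (Ioo (-T.c) T.c) := by
    have hCc : Continuous fun t : ℝ => T.Φ (s, t) :=
      T.contDiff.continuous.comp (by fun_prop)
    exact integrableOn_integrand (measurable_L2 g₁) (measurable_L2 g₂) hCc (T.continuous_vert s)
      G.a₁.2 G.b₁.2
  have hfi1 : IntegrableOn f (Ioo 0 y) :=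
    hfi.mono_set (Ioo_subset_Ioo (by linarith) hyc)
  have hfi2 : IntegrableOn (fun t => -f (-t)) (Ioo 0 y) := by
    have h1 : IntegrableOn f (Ioo (-y) 0) := hfi.mono_set (Ioo_subset_Ioo (by linarith) hc.le)
    have h2 : IntervalIntegrable f volume (-y) 0 := by
      rw [intervalIntegrable_iff_integrableOn_Ioo_of_le (by linarith)]
      exact h1
    have h3 : IntervalIntegrable (fun t => f (-t)) volume 0 y := by
      have := (IntervalIntegrable.iff_comp_neg (by simp)).1 h2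
      simp only [neg_neg, neg_zero] at this
      exact this.symm
    have h4 := h3.neg
    rw [intervalIntegrable_iff_integrableOn_Ioo_of_le hh0.le] at h4
    exact h4
  -- upper side
  have hup : Tendsto (fun ε => A.sideAverage u 1 s ε) (𝓝[>] 0)
      (𝓝 (B - ∫ τ in (0 : ℝ)..y, f τ)) := by
    unfold Arc.sideAverage
    apply tendsto_average hh0 hfi1
    rw [ae_restrict_iff' measurableSet_Ioo]
    filter_upwards [hpt] with t ht ht'
    have h1 := ht ⟨by linarith [ht'.1], by linarith [ht'.2]⟩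
    have h2 := V t y (by linarith [ht'.1]) ht'.2.le hyc (Or.inl ht'.1)
    have h3 := hBl.sub h2
    have h4 : Tendsto (fun k => moll (φ k) u (T.Φ (s, t))) atTop
        (𝓝 (B - T.L₁ g₁ g₂ s t y)) := h3.congr (fun k => by ring)
    have h5 := tendsto_nhds_unique h1 h4
    rw [one_mul, ← T.eq s hs' t, h5, hL]
  have hdown : Tendsto (fun ε => A.sideAverage u (-1) s ε) (𝓝[>] 0)
      (𝓝 (B' - ∫ τ in (0 : ℝ)..y, -f (-τ))) := by
    unfold Arc.sideAverage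
    apply tendsto_average hh0 hfi2
    rw [ae_restrict_iff' measurableSet_Ioo]
    filter_upwards [hpt'] with t ht ht'
    have h1 := ht ⟨by linarith [ht'.2], by linarith [ht'.1]⟩
    have h2 := V (-y) (-t) (by linarith) (by linarith [ht'.2]) (by linarith [ht'.1])
      (Or.inr (by linarith [ht'.1]))
    have h3 := hBl'.add h2
    have h4 : Tendsto (fun k => moll (φ k) u (T.Φ (s, -t))) atTop
        (𝓝 (B' + T.L₁ g₁ g₂ s (-y) (-t))) := h3.congr (fun k => by ring)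
    have h5 := tendsto_nhds_unique h1 h4
    rw [neg_one_mul, ← T.eq s hs' (-t), h5, hL, intervalIntegral.integral_neg,
      intervalIntegral.integral_comp_neg f]
    ring
  refine ⟨_, _, hup, hdown, ?_⟩
  rw [intervalIntegral.integral_neg, intervalIntegral.integral_comp_neg f, neg_zero]
  have hadd : (∫ τ in (-y)..0, f τ) + ∫ τ in (0 : ℝ)..y, f τ = T.L₁ g₁ g₂ s (-y) y := by
    rw [hL]
    apply intervalIntegral.integral_add_adjacent_intervals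
    · rw [intervalIntegrable_iff_integrableOn_Ioo_of_le (by linarith)]
      exact hfi.mono_set (Ioo_subset_Ioo (by linarith) hc.le)
    · rw [intervalIntegrable_iff_integrableOn_Ioo_of_le hh0.le]
      exact hfi1
  unfold loopInt
  rw [← hy, ← hadd, hB']
  ring

end Tube

end Pool.Agent.MP_178ab7_mp
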