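import Mathlib
import Pool.Agent.MP_178ab7_mp.Jump

open MeasureTheory Set Filter Topology Metric
open scoped ENNReal ContDiff

namespace Pool.Agent.MP_178ab7_mp

variable {A : Arc}

/-- Existence of the one-sided traces and the formula for the jump, almost everywhere. -/
lemma ae_trace (T : Tube A) {u g₁ g₂ : L2} (h : IsWeakGradient A.carrier u g₁ g₂) :
    ∀ᵐ s ∂(volume.restrict (Ioo (0 : ℝ) 1)),
      (Tendsto (fun ε => A.sideAverage u 1 s ε) (𝓝[>] 0) (𝓝 (A.trace u 1 s)) ∧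
      Tendsto (fun ε => A.sideAverage u (-1) s ε) (𝓝[>] 0) (𝓝 (A.trace u (-1) s))) ∧
      A.jump u s = T.loopInt g₁ g₂ s := by
  obtain ⟨φ, hφ, hae, hs₁, hs₂⟩ := exists_seq u g₁ g₂
  filter_upwards [T.ae_goodAt hae hs₁ hs₂] with s G
  obtain ⟨a, b, ha, hb, hab⟩ := G.main T hφ h
  have e1 : A.trace u 1 s = a := ha.limUnder_eq
  have e2 : A.trace u (-1) s = b := hb.limUnder_eq
  refine ⟨⟨by rw [e1]; exact ha, by rw [e2]; exact hb⟩, ?_⟩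
  unfold Arc.jump
  rw [e1, e2, hab]

/-- The measure on the plane energy density along a family of curves. -/
noncomputable def enDens (g₁ g₂ : L2) (x : ℝ × ℝ) : ℝ≥0∞ := ‖g₁ x‖ₑ ^ 2 + ‖g₂ x‖ₑ ^ 2

lemma measurable_enDens (g₁ g₂ : L2) : Measurable (enDens g₁ g₂) :=
  ((measurable_L2 g₁).enorm.pow_const 2).add ((measurable_L2 g₂).enorm.pow_const 2)

lemma lintegral_enDens (g₁ g₂ : L2) :
    ∫⁻ x, enDens g₁ g₂ x = (∫⁻ x, ‖g₁ x‖ₑ ^ 2) + ∫⁻ x, ‖g₂ x‖ₑ ^ 2 := by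
  unfold enDens
  rw [lintegral_add_left ((measurable_L2 g₁).enorm.pow_const 2)]

lemma lintegral_four {μ : Measure ℝ} {a b c d : ℝ → ℝ≥0∞} (ha : Measurable a)
    (hb : Measurable b) (hc : Measurable c) :
    ∫⁻ s, ((a s + b s) + (c s + d s)) ∂μ =
      ((∫⁻ s, a s ∂μ) + (∫⁻ s, b s ∂μ)) + ((∫⁻ s, c s ∂μ) + (∫⁻ s, d s ∂μ)) := by
  have hab : Measurable fun s => a s + b s := ha.add hb
  rw [lintegral_add_left hab, lintegral_add_left ha, lintegral_add_left hc]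

namespace Tube

variable (T : Tube A)

lemma exists_loop_bound : ∃ M : ℝ, ∀ (g₁ g₂ : L2) (s : ℝ), s ∈ Ioo (0 : ℝ) 1 →
    ‖T.loopInt g₁ g₂ s‖ₑ ^ 2 ≤ 16 * ENNReal.ofReal M ^ 2 *
      (((∫⁻ t in Ioo (-T.c) T.c, enDens g₁ g₂ (T.Ψ₁ (s, t))) +
        (∫⁻ t in Ioo (-T.c) 1, enDens g₁ g₂ (T.Ψ₂ (s, t)))) +
       ((∫⁻ t in Ioo (-T.c) T.c, enDens g₁ g₂ (T.Ψ₃ (s, t))) +
        (∫⁻ t in Ioo (-T.c) 1, enDens g₁ g₂ (T.Ψ₄ (s, t))))) := by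
  obtain ⟨M, hM0, hM⟩ := T.exists_bound
  refine ⟨M, ?_⟩
  intro g₁ g₂ s hs
  have hs' : s ∈ Icc (0 : ℝ) 1 := Ioo_subset_Icc_self hs
  have hc := T.c_pos
  have hc1 := T.c_le
  have hh := T.ht_mem hs'
  have hh0 := T.ht_pos hs'
  have m₁ := measurable_L2 g₁
  have m₂ := measurable_L2 g₂
  have hΦ := T.contDiff.continuous
  have l1 : ‖T.L₁ g₁ g₂ s (-T.ht s) (T.ht s)‖ₑ ^ 2 ≤
      ENNReal.ofReal M ^ 2 * (4 * ∫⁻ t in Ioo (-T.c) T.c, enDens g₁ g₂ (T.Ψ₁ (s, t))) := by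
    apply enorm_lineInt_sq_le m₁ m₂ (hΦ.comp (by fun_prop)) (by linarith [hh.2])
      (by linarith) (by linarith [hh.2]) (by linarith)
    intro τ hτ
    exact (hM (s, τ) ⟨⟨by simp only; linarith [hs.1], hs.2.le⟩, ⟨hτ.1.le, hτ.2.le⟩⟩).1
  have l2 : ‖T.L₂ g₁ g₂ s‖ₑ ^ 2 ≤
      ENNReal.ofReal M ^ 2 * (4 * ∫⁻ t in Ioo (-T.c) 1, enDens g₁ g₂ (T.Ψ₂ (s, t))) := by
    apply enorm_lineInt_sq_le m₁ m₂ (hΦ.comp (by fun_prop)) (by linarith [hh.2])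
      (by linarith [hs.1]) (by linarith [hs.2]) (by linarith)
    intro τ hτ
    exact (hM (τ, T.ht s) ⟨⟨hτ.1.le, hτ.2.le⟩, ⟨by simp only; linarith, hh.2⟩⟩).2
  have l3 : ‖T.L₃ g₁ g₂ s‖ₑ ^ 2 ≤
      ENNReal.ofReal M ^ 2 * (4 * ∫⁻ t in Ioo (-T.c) T.c, enDens g₁ g₂ (T.Ψ₃ (s, t))) := by
    apply enorm_lineInt_sq_le m₁ m₂ (hΦ.comp (by fun_prop)) (by linarith [hh.2])
      (by linarith) (by linarith [hh.2]) (by linarith)
    intro τ hτ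
    exact (hM (-T.ht s, τ) ⟨⟨by simp only; linarith [hh.2], by simp only; linarith⟩,
      ⟨hτ.1.le, hτ.2.le⟩⟩).1
  have l4 : ‖T.L₄ g₁ g₂ s‖ₑ ^ 2 ≤
      ENNReal.ofReal M ^ 2 * (4 * ∫⁻ t in Ioo (-T.c) 1, enDens g₁ g₂ (T.Ψ₄ (s, t))) := by
    apply enorm_lineInt_sq_le m₁ m₂ (hΦ.comp (by fun_prop)) (by linarith [hh.2])
      (by linarith [hs.1]) (by linarith [hs.2]) (by linarith)
    intro τ hτ
    exact (hM (τ, -T.ht s) ⟨⟨hτ.1.le, hτ.2.le⟩, ⟨by simp only; linarith [hh.2],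
      by simp only; linarith⟩⟩).2
  set x₁ := ‖T.L₁ g₁ g₂ s (-T.ht s) (T.ht s)‖ₑ
  set x₂ := ‖T.L₂ g₁ g₂ s‖ₑ
  set x₃ := ‖T.L₃ g₁ g₂ s‖ₑ
  set x₄ := ‖T.L₄ g₁ g₂ s‖ₑ
  have e : ‖T.loopInt g₁ g₂ s‖ₑ ≤ (x₂ + x₃) + (x₄ + x₁) := by
    unfold loopInt
    calc ‖T.L₂ g₁ g₂ s + T.L₃ g₁ g₂ s - T.L₄ g₁ g₂ s - T.L₁ g₁ g₂ s (-T.ht s) (T.ht s)‖ₑ
        ≤ ‖T.L₂ g₁ g₂ s + T.L₃ g₁ g₂ s - T.L₄ g₁ g₂ s‖ₑ + x₁ := enorm_sub_le
      _ ≤ (‖T.L₂ g₁ g₂ s + T.L₃ g₁ g₂ s‖ₑ + x₄) + x₁ := by gcongr; exact enorm_sub_le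
      _ ≤ ((x₂ + x₃) + x₄) + x₁ := by gcongr; exact enorm_add_le _ _
      _ = _ := by ring
  calc ‖T.loopInt g₁ g₂ s‖ₑ ^ 2 ≤ ((x₂ + x₃) + (x₄ + x₁)) ^ 2 := by gcongr
    _ ≤ 2 * ((x₂ + x₃) ^ 2 + (x₄ + x₁) ^ 2) := ennreal_sq_add _ _
    _ ≤ 2 * (2 * (x₂ ^ 2 + x₃ ^ 2) + 2 * (x₄ ^ 2 + x₁ ^ 2)) := by
        gcongr <;> exact ennreal_sq_add _ _
    _ ≤ 2 * (2 * (ENNReal.ofReal M ^ 2 *
          (4 * ∫⁻ t in Ioo (-T.c) 1, enDens g₁ g₂ (T.Ψ₂ (s, t))) +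
          ENNReal.ofReal M ^ 2 * (4 * ∫⁻ t in Ioo (-T.c) T.c, enDens g₁ g₂ (T.Ψ₃ (s, t)))) +
          2 * (ENNReal.ofReal M ^ 2 *
          (4 * ∫⁻ t in Ioo (-T.c) 1, enDens g₁ g₂ (T.Ψ₄ (s, t))) +
          ENNReal.ofReal M ^ 2 * (4 * ∫⁻ t in Ioo (-T.c) T.c, enDens g₁ g₂ (T.Ψ₁ (s, t))))) := by
        gcongr
    _ = _ := by ring

include T in
/-- The fundamental inequality: the jump is controlled by the gradient. -/
theorem exists_jump_bound : ∃ C : ℝ≥0∞, C ≠ ⊤ ∧ ∀ u g₁ g₂ : L2,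
    IsWeakGradient A.carrier u g₁ g₂ →
    ∫⁻ s in Ioo (0 : ℝ) 1, ‖A.jump u s‖ₑ ^ 2 ≤
      C * ((∫⁻ x, ‖g₁ x‖ₑ ^ 2) + ∫⁻ x, ‖g₂ x‖ₑ ^ 2) := by
  obtain ⟨M, hM⟩ := T.exists_loop_bound
  refine ⟨16 * ENNReal.ofReal M ^ 2 * ((T.K + T.K) + (T.K + T.K)), ?_, ?_⟩
  · have hK : T.K ≠ ⊤ := ENNReal.ofReal_ne_top
    apply ENNReal.mul_ne_top
    · apply ENNReal.mul_ne_top (by norm_num)
      exact ENNReal.pow_ne_top ENNReal.ofReal_ne_top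
    · finiteness
  intro u g₁ g₂ h
  have mE := measurable_enDens g₁ g₂
  have meas : ∀ (Ψ : ℝ × ℝ → ℝ × ℝ) (I : Set ℝ), Continuous Ψ →
      Measurable fun s => ∫⁻ t in I, enDens g₁ g₂ (Ψ (s, t)) := by
    intro Ψ I hΨ
    have hm : Measurable fun p => enDens g₁ g₂ (Ψ p) := mE.comp hΨ.measurable
    exact hm.lintegral_prod_right'
  calc ∫⁻ s in Ioo (0 : ℝ) 1, ‖A.jump u s‖ₑ ^ 2
      = ∫⁻ s in Ioo (0 : ℝ) 1, ‖T.loopInt g₁ g₂ s‖ₑ ^ 2 := by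
        apply lintegral_congr_ae
        filter_upwards [ae_trace T h] with s hs
        rw [hs.2]
    _ ≤ ∫⁻ s in Ioo (0 : ℝ) 1, 16 * ENNReal.ofReal M ^ 2 *
      (((∫⁻ t in Ioo (-T.c) T.c, enDens g₁ g₂ (T.Ψ₁ (s, t))) +
        (∫⁻ t in Ioo (-T.c) 1, enDens g₁ g₂ (T.Ψ₂ (s, t)))) +
       ((∫⁻ t in Ioo (-T.c) T.c, enDens g₁ g₂ (T.Ψ₃ (s, t))) +
        (∫⁻ t in Ioo (-T.c) 1, enDens g₁ g₂ (T.Ψ₄ (s, t))))) :=
        setLIntegral_mono' measurableSet_Ioo (fun s hs => hM g₁ g₂ s hs)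
    _ = 16 * ENNReal.ofReal M ^ 2 *
      (((∫⁻ s in Ioo (0 : ℝ) 1, ∫⁻ t in Ioo (-T.c) T.c, enDens g₁ g₂ (T.Ψ₁ (s, t))) +
        (∫⁻ s in Ioo (0 : ℝ) 1, ∫⁻ t in Ioo (-T.c) 1, enDens g₁ g₂ (T.Ψ₂ (s, t)))) +
       ((∫⁻ s in Ioo (0 : ℝ) 1, ∫⁻ t in Ioo (-T.c) T.c, enDens g₁ g₂ (T.Ψ₃ (s, t))) +
        (∫⁻ s in Ioo (0 : ℝ) 1, ∫⁻ t in Ioo (-T.c) 1, enDens g₁ g₂ (T.Ψ₄ (s, t))))) := by
        rw [lintegral_const_mul' _ _ (ENNReal.mul_ne_top (by norm_num)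
          (ENNReal.pow_ne_top ENNReal.ofReal_ne_top))]
        rw [lintegral_four (meas _ _ T.good₁.cont) (meas _ _ T.good₂.cont)
          (meas _ _ T.good₃.cont)]
    _ ≤ 16 * ENNReal.ofReal M ^ 2 *
      (((T.K * ∫⁻ x, enDens g₁ g₂ x) + (T.K * ∫⁻ x, enDens g₁ g₂ x)) +
       ((T.K * ∫⁻ x, enDens g₁ g₂ x) + (T.K * ∫⁻ x, enDens g₁ g₂ x))) := by
        gcongr
        · exact T.good₁.lintegral_lintegral mE
        · exact T.good₂.lintegral_lintegral mE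
        · exact T.good₃.lintegral_lintegral mE
        · exact T.good₄.lintegral_lintegral mE
    _ = _ := by
        rw [← lintegral_enDens]
        ring

end Tube

/-- Measurability of the averages. -/
lemma aestronglyMeasurable_sideAverage (T : Tube A) (u : L2) (σ ε : ℝ) :
    AEStronglyMeasurable (fun s => A.sideAverage u σ s ε) (volume.restrict (Ioo (0 : ℝ) 1)) := by
  have hm : StronglyMeasurable fun p : ℝ × ℝ => u (T.Φ (p.1, σ * p.2)) := by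
    apply Measurable.stronglyMeasurable
    have hc : Continuous fun p : ℝ × ℝ => T.Φ (p.1, σ * p.2) :=
      T.contDiff.continuous.comp (by fun_prop)
    exact (measurable_L2 u).comp hc.measurable
  have h1 : StronglyMeasurable fun s => ∫ t in Ioc 0 ε, u (T.Φ (s, σ * t)) :=
    hm.integral_prod_right'
  have h2 : StronglyMeasurable fun s => ∫ t in Ioc ε 0, u (T.Φ (s, σ * t)) :=
    hm.integral_prod_right'
  have h3 : StronglyMeasurable fun s => ((1 / ε : ℝ) : ℂ) *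
      ∫ t in (0 : ℝ)..ε, u (T.Φ (s, σ * t)) := (h1.sub h2).const_mul _
  refine h3.aestronglyMeasurable.congr ?_
  filter_upwards [ae_restrict_mem measurableSet_Ioo] with s hs
  unfold Arc.sideAverage
  congr 1
  apply intervalIntegral.integral_congr
  intro t _
  simp only
  rw [T.eq s (Ioo_subset_Icc_self hs)]

lemma aestronglyMeasurable_jump (T : Tube A) {u g₁ g₂ : L2}
    (h : IsWeakGradient A.carrier u g₁ g₂) :
    AEStronglyMeasurable (A.jump u) (volume.restrict (Ioo (0 : ℝ) 1)) := by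
  have hε : Tendsto (fun n : ℕ => (1 / ((n : ℝ) + 1))) atTop (𝓝[>] 0) := by
    rw [tendsto_nhdsWithin_iff]
    refine ⟨tendsto_one_div_add_atTop_nhds_zero_nat, Eventually.of_forall fun n => ?_⟩
    have : (0 : ℝ) < 1 / ((n : ℝ) + 1) := by positivity
    exact this
  have h1 : AEStronglyMeasurable (A.trace u 1) (volume.restrict (Ioo (0 : ℝ) 1)) := by
    apply aestronglyMeasurable_of_tendsto_ae atTop
      (f := fun (n : ℕ) s => A.sideAverage u 1 s (1 / ((n : ℝ) + 1)))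
    · intro n
      exact aestronglyMeasurable_sideAverage T u _ _
    · filter_upwards [ae_trace T h] with s hs
      exact hs.1.1.comp hε
  have h2 : AEStronglyMeasurable (A.trace u (-1)) (volume.restrict (Ioo (0 : ℝ) 1)) := by
    apply aestronglyMeasurable_of_tendsto_ae atTop
      (f := fun (n : ℕ) s => A.sideAverage u (-1) s (1 / ((n : ℝ) + 1)))
    · intro n
      exact aestronglyMeasurable_sideAverage T u _ _
    · filter_upwards [ae_trace T h] with s hs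
      exact hs.1.2.comp hε
  exact h1.sub h2

end Pool.Agent.MP_178ab7_mp
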