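import Mathlib
import Pool.Agent.MP_178ab7_mp.TraceThm

open MeasureTheory Set Filter Topology Metric
open scoped ENNReal ContDiff

namespace Pool.Agent.MP_178ab7_mp

variable {A : Arc}

lemma Tube.good_side (T : Tube A) {σ : ℝ} (hσ : σ = 1 ∨ σ = -1) :
    Good (fun p => T.Φ (p.1, σ * p.2)) 0 T.c (ENNReal.ofReal (T.m * 1)⁻¹) := by
  have hc := T.c_pos
  have := T.c_le
  let L : (ℝ × ℝ) →L[ℝ] (ℝ × ℝ) := (ContinuousLinearMap.fst ℝ ℝ ℝ).prod
    (σ • ContinuousLinearMap.snd ℝ ℝ ℝ)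
  have hσ0 : σ ≠ 0 := by rcases hσ with h | h <;> rw [h] <;> norm_num
  have h := T.good_comp (a := fun p => (p.1, σ * p.2)) (L := L) (α := 0) (β := T.c)
    (m' := 1)
    (by
      intro p
      apply HasFDerivAt.prodMk
      · exact hasFDerivAt_fst
      · exact hasFDerivAt_snd.const_mul σ)
    (by
      rintro ⟨a, b⟩ ⟨a', b'⟩ h
      simp only [Prod.mk.injEq] at h
      rw [h.1, mul_left_cancel₀ hσ0 h.2]) one_pos
    (by
      rw [det_eq_pdet]
      rcases hσ with h | h <;> simp [L, pdet, h])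
    (by
      rintro ⟨s, t⟩ ⟨hs, ht⟩
      simp only [mem_Ioo, mem_prod, mem_Icc] at *
      rcases hσ with h | h <;> rw [h] <;>
        refine ⟨⟨?_, ?_⟩, ?_, ?_⟩ <;> linarith [hs.1, hs.2, ht.1, ht.2])
  exact h

/-- Linearity of the averages, almost everywhere. -/
lemma ae_sideAverage_linear (T : Tube A) {u v w : L2} {a : ℂ}
    (hw : ∀ᵐ x, w x = a * u x + v x) {σ : ℝ} (hσ : σ = 1 ∨ σ = -1) :
    ∀ᵐ s ∂(volume.restrict (Ioo (0 : ℝ) 1)), ∀ᶠ ε in 𝓝[>] (0 : ℝ),
      A.sideAverage w σ s ε = a * A.sideAverage u σ s ε + A.sideAverage v σ s ε := by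
  have hc := T.c_pos
  have hG := T.good_side hσ
  filter_upwards [ae_restrict_mem measurableSet_Ioo, hG.ae hw,
    hG.ae_lintegral_lt_top (f := fun x => ‖u x‖ₑ ^ 2) ((measurable_L2 u).enorm.pow_const 2)
      (lintegral_sq_ne_top u),
    hG.ae_lintegral_lt_top (f := fun x => ‖v x‖ₑ ^ 2) ((measurable_L2 v).enorm.pow_const 2)
      (lintegral_sq_ne_top v)] with s hs h1 hu hv
  have hcont : Continuous fun t : ℝ => T.Φ (s, σ * t) := T.contDiff.continuous.comp (by fun_prop)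
  have mu : Measurable fun t : ℝ => u (T.Φ (s, σ * t)) := (measurable_L2 u).comp hcont.measurable
  have mv : Measurable fun t : ℝ => v (T.Φ (s, σ * t)) := (measurable_L2 v).comp hcont.measurable
  have iu : IntegrableOn (fun t : ℝ => u (T.Φ (s, σ * t))) (Ioo 0 T.c) :=
    ⟨mu.aestronglyMeasurable, lintegral_lt_top_of_sq mu.enorm hu⟩
  have iv : IntegrableOn (fun t : ℝ => v (T.Φ (s, σ * t))) (Ioo 0 T.c) :=
    ⟨mv.aestronglyMeasurable, lintegral_lt_top_of_sq mv.enorm hv⟩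
  filter_upwards [Ioo_mem_nhdsGT hc] with ε hε
  have e : ∀ f : L2, A.sideAverage f σ s ε =
      ((1 / ε : ℝ) : ℂ) * ∫ t in (0 : ℝ)..ε, f (T.Φ (s, σ * t)) := by
    intro f
    unfold Arc.sideAverage
    congr 1
    apply intervalIntegral.integral_congr
    intro t _
    simp only
    rw [T.eq s (Ioo_subset_Icc_self hs)]
  have iu' : IntervalIntegrable (fun t : ℝ => u (T.Φ (s, σ * t))) volume 0 ε := by
    rw [intervalIntegrable_iff_integrableOn_Ioo_of_le hε.1.le]
    exact iu.mono_set (Ioo_subset_Ioo_right hε.2.le)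
  have iv' : IntervalIntegrable (fun t : ℝ => v (T.Φ (s, σ * t))) volume 0 ε := by
    rw [intervalIntegrable_iff_integrableOn_Ioo_of_le hε.1.le]
    exact iv.mono_set (Ioo_subset_Ioo_right hε.2.le)
  rw [e, e, e]
  have h2 : ∫ t in (0 : ℝ)..ε, w (T.Φ (s, σ * t)) =
      ∫ t in (0 : ℝ)..ε, (a * u (T.Φ (s, σ * t)) + v (T.Φ (s, σ * t))) := by
    apply intervalIntegral.integral_congr_ae
    rw [ae_restrict_iff' measurableSet_Ioo] at h1
    filter_upwards [h1] with t ht ht'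
    rw [uIoc_of_le hε.1.le] at ht'
    exact ht ⟨ht'.1, ht'.2.trans_lt hε.2⟩
  rw [h2, intervalIntegral.integral_add (iu'.const_mul a) iv',
    intervalIntegral.integral_const_mul]
  ring

lemma ae_jump_linear (T : Tube A) {u g₁ g₂ v h₁ h₂ w k₁ k₂ : L2} {a : ℂ}
    (hu : IsWeakGradient A.carrier u g₁ g₂) (hv : IsWeakGradient A.carrier v h₁ h₂)
    (hw : IsWeakGradient A.carrier w k₁ k₂) (hw' : ∀ᵐ x, w x = a * u x + v x) :
    ∀ᵐ s ∂(volume.restrict (Ioo (0 : ℝ) 1)), A.jump w s = a * A.jump u s + A.jump v s := by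
  filter_upwards [ae_trace T hu, ae_trace T hv, ae_trace T hw,
    ae_sideAverage_linear T hw' (Or.inl rfl), ae_sideAverage_linear T hw' (Or.inr rfl)]
    with s tu tv tw l1 l2
  have e1 : A.trace w 1 s = a * A.trace u 1 s + A.trace v 1 s := by
    apply tendsto_nhds_unique tw.1.1
    refine Tendsto.congr' ?_ ((tu.1.1.const_mul a).add tv.1.1)
    filter_upwards [l1] with ε hε
    exact hε.symm
  have e2 : A.trace w (-1) s = a * A.trace u (-1) s + A.trace v (-1) s := by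
    apply tendsto_nhds_unique tw.1.2
    refine Tendsto.congr' ?_ ((tu.1.2.const_mul a).add tv.1.2)
    filter_upwards [l2] with ε hε
    exact hε.symm
  unfold Arc.jump
  rw [e1, e2]
  ring

end Pool.Agent.MP_178ab7_mp
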