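import Mathlib
import Pool.Agent.MP_178ab7_mp.Linear

open MeasureTheory Set Filter Topology Metric
open scoped ENNReal ContDiff ComplexConjugate

namespace Pool.Agent.MP_178ab7_mp

/-- A continuous compactly supported function as an element of `L²`. -/
noncomputable def toL2 (ψ : ℝ × ℝ → ℂ) (h1 : Continuous ψ) (h2 : HasCompactSupport ψ) : L2 :=
  (h1.memLp_of_hasCompactSupport h2 : MemLp ψ 2 volume).toLp ψ

lemma toL2_ae (ψ : ℝ × ℝ → ℂ) (h1 : Continuous ψ) (h2 : HasCompactSupport ψ) :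
    toL2 ψ h1 h2 =ᵐ[volume] ψ := MemLp.coeFn_toLp _

lemma inner_L2 (f g : L2) : inner ℂ f g = ∫ x, conj (f x) * g x := by
  rw [L2.inner_def]
  congr 1
  funext x
  rw [RCLike.inner_apply, mul_comm]

lemma inner_toL2 (ψ : ℝ × ℝ → ℂ) (h1 : Continuous ψ) (h2 : HasCompactSupport ψ) (u : L2) :
    inner ℂ (toL2 ψ h1 h2) u = ∫ x, conj (ψ x) * u x := by
  rw [inner_L2]
  apply integral_congr_ae
  filter_upwards [toL2_ae ψ h1 h2] with x hx
  rw [hx]

lemma inner_toL2_right (ψ : ℝ × ℝ → ℂ) (h1 : Continuous ψ) (h2 : HasCompactSupport ψ) (u : L2) :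
    inner ℂ u (toL2 ψ h1 h2) = ∫ x, conj (u x) * ψ x := by
  rw [inner_L2]
  apply integral_congr_ae
  filter_upwards [toL2_ae ψ h1 h2] with x hx
  rw [hx]

/-- The function `∂_v φ` as a complex valued function. -/
noncomputable def dC (φ : ℝ × ℝ → ℝ) (v : ℝ × ℝ) (x : ℝ × ℝ) : ℂ := ((fderiv ℝ φ x v : ℝ) : ℂ)

lemma continuous_dC {φ : ℝ × ℝ → ℝ} (h : ContDiff ℝ ∞ φ) (v : ℝ × ℝ) : Continuous (dC φ v) :=
  Complex.continuous_ofReal.comp ((h.continuous_fderiv (by simp)).clm_apply continuous_const)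

lemma hasCompactSupport_dC {φ : ℝ × ℝ → ℝ} (h : HasCompactSupport φ) (v : ℝ × ℝ) :
    HasCompactSupport (dC φ v) := by
  have h1 : HasCompactSupport (fderiv ℝ φ) := h.fderiv ℝ
  exact h1.comp_left (g := fun L : (ℝ × ℝ) →L[ℝ] ℝ => ((L v : ℝ) : ℂ)) (by simp)

lemma continuous_ofRealφ {φ : ℝ × ℝ → ℝ} (h : ContDiff ℝ ∞ φ) :
    Continuous fun x => ((φ x : ℝ) : ℂ) := Complex.continuous_ofReal.comp h.continuous

lemma hasCompactSupport_ofRealφ {φ : ℝ × ℝ → ℝ} (h : HasCompactSupport φ) :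
    HasCompactSupport fun x => ((φ x : ℝ) : ℂ) := h.comp_left (g := fun r : ℝ => (r : ℂ)) (by simp)

lemma weak_iff {φ : ℝ × ℝ → ℝ} (h : ContDiff ℝ ∞ φ) (hc : HasCompactSupport φ) (v : ℝ × ℝ)
    (u g : L2) :
    (∫ x, u x * ((fderiv ℝ φ x v : ℝ) : ℂ)) = - ∫ x, g x * ((φ x : ℝ) : ℂ) ↔
      inner ℂ (toL2 (dC φ v) (continuous_dC h v) (hasCompactSupport_dC hc v)) u +
        inner ℂ (toL2 (fun x => ((φ x : ℝ) : ℂ)) (continuous_ofRealφ h)
          (hasCompactSupport_ofRealφ hc)) g = 0 := by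
  rw [inner_toL2, inner_toL2]
  simp only [dC, Complex.conj_ofReal]
  rw [eq_neg_iff_add_eq_zero]
  simp only [mul_comm]

lemma IsWeakGradient.add {Λ : Set (ℝ × ℝ)} {u g₁ g₂ v h₁ h₂ : L2} (hu : IsWeakGradient Λ u g₁ g₂)
    (hv : IsWeakGradient Λ v h₁ h₂) : IsWeakGradient Λ (u + v) (g₁ + h₁) (g₂ + h₂) := by
  intro φ h hc hs
  have a := hu φ h hc hs
  have b := hv φ h hc hs
  rw [weak_iff h hc, weak_iff h hc] at *
  simp only [inner_add_right]
  constructor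
  · linear_combination a.1 + b.1
  · linear_combination a.2 + b.2

lemma IsWeakGradient.smul {Λ : Set (ℝ × ℝ)} {u g₁ g₂ : L2} (hu : IsWeakGradient Λ u g₁ g₂)
    (c : ℂ) : IsWeakGradient Λ (c • u) (c • g₁) (c • g₂) := by
  intro φ h hc hs
  have a := hu φ h hc hs
  rw [weak_iff h hc, weak_iff h hc] at *
  simp only [inner_smul_right]
  constructor
  · linear_combination c * a.1
  · linear_combination c * a.2

lemma isWeakGradient_zero (Λ : Set (ℝ × ℝ)) : IsWeakGradient Λ 0 0 0 := by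
  intro φ h hc hs
  rw [weak_iff h hc, weak_iff h hc]
  simp

/-- Three copies of `L²`. -/
abbrev H3 : Type := PiLp 2 (fun _ : Fin 3 => L2)

/-- The Sobolev space `H¹(ℝ² \ Λ)`, realised as the space of triples `(u, ∂₁u, ∂₂u)`. -/
def W (Λ : Set (ℝ × ℝ)) : Submodule ℂ H3 where
  carrier := {p | IsWeakGradient Λ (p 0) (p 1) (p 2)}
  add_mem' := fun ha hb => IsWeakGradient.add ha hb
  zero_mem' := isWeakGradient_zero Λ
  smul_mem' := fun c _ hp => IsWeakGradient.smul hp c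

lemma mem_W {Λ : Set (ℝ × ℝ)} {p : H3} : p ∈ W Λ ↔ IsWeakGradient Λ (p 0) (p 1) (p 2) := Iff.rfl

lemma isClosed_W (Λ : Set (ℝ × ℝ)) : IsClosed (W Λ : Set H3) := by
  have e : (W Λ : Set H3) = ⋂ (φ : ℝ × ℝ → ℝ) (h : ContDiff ℝ ∞ φ) (hc : HasCompactSupport φ)
      (_ : tsupport φ ⊆ Λᶜ), {p : H3 |
      inner ℂ (toL2 (dC φ (1, 0)) (continuous_dC h _) (hasCompactSupport_dC hc _)) (p 0) +
        inner ℂ (toL2 (fun x => ((φ x : ℝ) : ℂ)) (continuous_ofRealφ h)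
          (hasCompactSupport_ofRealφ hc)) (p 1) = 0 ∧
      inner ℂ (toL2 (dC φ (0, 1)) (continuous_dC h _) (hasCompactSupport_dC hc _)) (p 0) +
        inner ℂ (toL2 (fun x => ((φ x : ℝ) : ℂ)) (continuous_ofRealφ h)
          (hasCompactSupport_ofRealφ hc)) (p 2) = 0} := by
    ext p
    simp only [mem_iInter, mem_ofPred_eq, SetLike.mem_coe, mem_W, IsWeakGradient]
    constructor
    · intro H φ h hc hs
      have := H φ h hc hs
      rw [weak_iff h hc, weak_iff h hc] at this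
      exact this
    · intro H φ h hc hs
      have := H φ h hc hs
      rw [← weak_iff h hc, ← weak_iff h hc] at this
      exact this
  rw [e]
  refine isClosed_iInter fun φ => isClosed_iInter fun h => isClosed_iInter fun hc =>
    isClosed_iInter fun hs => ?_
  have c0 : ∀ i : Fin 3, Continuous fun p : H3 => p i := fun i => PiLp.continuous_apply 2 _ i
  apply IsClosed.and
  · apply isClosed_eq _ continuous_const
    exact (continuous_const.inner (c0 0)).add (continuous_const.inner (c0 1))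
  · apply isClosed_eq _ continuous_const
    exact (continuous_const.inner (c0 0)).add (continuous_const.inner (c0 2))

instance (Λ : Set (ℝ × ℝ)) : CompleteSpace (W Λ) := (isClosed_W Λ).completeSpace_coe

/-- Coordinates of `W`. -/
noncomputable def coordW (Λ : Set (ℝ × ℝ)) (i : Fin 3) : W Λ →L[ℂ] L2 :=
  (PiLp.proj 2 (fun _ : Fin 3 => L2) i).comp (W Λ).subtypeL

lemma coordW_apply {Λ : Set (ℝ × ℝ)} (i : Fin 3) (w : W Λ) : coordW Λ i w = (w : H3) i := rfl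

lemma W_ext {Λ : Set (ℝ × ℝ)} {w w' : W Λ} (h : ∀ i, coordW Λ i w = coordW Λ i w') : w = w' := by
  apply Subtype.ext
  ext1 i
  exact h i

lemma inner_W {Λ : Set (ℝ × ℝ)} (w w' : W Λ) : inner ℂ w w' =
    inner ℂ (coordW Λ 0 w) (coordW Λ 0 w') + inner ℂ (coordW Λ 1 w) (coordW Λ 1 w') +
      inner ℂ (coordW Λ 2 w) (coordW Λ 2 w') := by
  rw [Submodule.coe_inner, PiLp.inner_apply, Fin.sum_univ_three]
  rfl

lemma norm_sq_W {Λ : Set (ℝ × ℝ)} (w : W Λ) : ‖w‖ ^ 2 =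
    ‖coordW Λ 0 w‖ ^ 2 + ‖coordW Λ 1 w‖ ^ 2 + ‖coordW Λ 2 w‖ ^ 2 := by
  have h := congrArg Complex.re (inner_W w w)
  simp only [Complex.add_re] at h
  rw [@norm_sq_eq_re_inner ℂ _ _ _ _ w, @norm_sq_eq_re_inner ℂ _ _ _ _ (coordW Λ 0 w),
    @norm_sq_eq_re_inner ℂ _ _ _ _ (coordW Λ 1 w), @norm_sq_eq_re_inner ℂ _ _ _ _ (coordW Λ 2 w)]
  exact h

end Pool.Agent.MP_178ab7_mp
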