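import Mathlib
import Pool.Agent.MP_178ab7_mp.Space

open MeasureTheory Set Filter Topology Metric
open scoped ENNReal ContDiff ComplexConjugate

namespace Pool.Agent.MP_178ab7_mp

variable (A : Arc)

lemma Arc.continuousOn_speed : ContinuousOn A.speed (Icc 0 1) := by
  have h : ContinuousOn A.vel (Icc 0 1) :=
    A.contDiffOn.continuousOn_derivWithin (uniqueDiffOn_Icc zero_lt_one) (by norm_num)
  unfold Arc.speed
  apply Real.continuous_sqrt.comp_continuousOn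
  exact (h.fst.pow 2).add (h.snd.pow 2)

lemma Arc.exists_speed_le : ∃ S : ℝ, 0 ≤ S ∧ ∀ s ∈ Icc (0 : ℝ) 1, A.speed s ≤ S := by
  obtain ⟨S, hS⟩ := isCompact_Icc.exists_bound_of_continuousOn A.continuousOn_speed
  refine ⟨max S 0, le_max_right _ _, fun s hs => ?_⟩
  exact ((le_abs_self _).trans (hS s hs)).trans (le_max_left _ _)

lemma Arc.speed_nonneg (s : ℝ) : 0 ≤ A.speed s := Real.sqrt_nonneg _

/-- The jump weighted by the square root of the arc length density. -/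
noncomputable def jfun (u : ℝ × ℝ → ℂ) (s : ℝ) : ℂ := ((√(A.speed s) : ℝ) : ℂ) * A.jump u s

lemma aestronglyMeasurable_jfun {u g₁ g₂ : L2} (h : IsWeakGradient A.carrier u g₁ g₂) :
    AEStronglyMeasurable (jfun A u) (volume.restrict (Ioo (0 : ℝ) 1)) := by
  obtain ⟨T⟩ := exists_tube A
  have h1 : AEStronglyMeasurable (fun s => ((√(A.speed s) : ℝ) : ℂ))
      (volume.restrict (Ioo (0 : ℝ) 1)) := by
    apply ContinuousOn.aestronglyMeasurable _ measurableSet_Ioo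
    apply Complex.continuous_ofReal.comp_continuousOn
    exact Real.continuous_sqrt.comp_continuousOn (A.continuousOn_speed.mono Ioo_subset_Icc_self)
  exact h1.mul (aestronglyMeasurable_jump T h)

lemma exists_jfun_bound : ∃ C : ℝ≥0∞, C ≠ ⊤ ∧ ∀ u g₁ g₂ : L2,
    IsWeakGradient A.carrier u g₁ g₂ →
    ∫⁻ s in Ioo (0 : ℝ) 1, ‖jfun A u s‖ₑ ^ 2 ≤
      C * ((∫⁻ x, ‖g₁ x‖ₑ ^ 2) + ∫⁻ x, ‖g₂ x‖ₑ ^ 2) := by
  obtain ⟨T⟩ := exists_tube A
  obtain ⟨C, hC, h⟩ := T.exists_jump_bound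
  obtain ⟨S, hS0, hS⟩ := A.exists_speed_le
  refine ⟨ENNReal.ofReal S * C, ENNReal.mul_ne_top ENNReal.ofReal_ne_top hC, ?_⟩
  intro u g₁ g₂ hw
  calc ∫⁻ s in Ioo (0 : ℝ) 1, ‖jfun A u s‖ₑ ^ 2
      ≤ ∫⁻ s in Ioo (0 : ℝ) 1, ENNReal.ofReal S * ‖A.jump u s‖ₑ ^ 2 := by
        apply setLIntegral_mono' measurableSet_Ioo
        intro s hs
        unfold jfun
        rw [enorm_mul, mul_pow]
        gcongr
        rw [← ofReal_norm, Complex.norm_real, Real.norm_eq_abs,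
          abs_of_nonneg (Real.sqrt_nonneg _), ← ENNReal.ofReal_pow (Real.sqrt_nonneg _),
          Real.sq_sqrt (A.speed_nonneg s)]
        exact ENNReal.ofReal_le_ofReal (hS s (Ioo_subset_Icc_self hs))
    _ = ENNReal.ofReal S * ∫⁻ s in Ioo (0 : ℝ) 1, ‖A.jump u s‖ₑ ^ 2 :=
        lintegral_const_mul' _ _ ENNReal.ofReal_ne_top
    _ ≤ ENNReal.ofReal S * (C * ((∫⁻ x, ‖g₁ x‖ₑ ^ 2) + ∫⁻ x, ‖g₂ x‖ₑ ^ 2)) := by
        gcongr
        exact h u g₁ g₂ hw
    _ = _ := by ring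

lemma memLp_jfun {u g₁ g₂ : L2} (h : IsWeakGradient A.carrier u g₁ g₂) :
    MemLp (jfun A u) 2 (volume.restrict (Ioo (0 : ℝ) 1)) := by
  refine ⟨aestronglyMeasurable_jfun A h, ?_⟩
  obtain ⟨C, hC, hb⟩ := exists_jfun_bound A
  have h1 : eLpNorm (jfun A u) 2 (volume.restrict (Ioo (0 : ℝ) 1)) ^ 2 < ⊤ := by
    rw [eLpNorm_two_sq]
    refine (hb u g₁ g₂ h).trans_lt ?_
    apply ENNReal.mul_lt_top hC.lt_top
    exact ENNReal.add_lt_top.2 ⟨(lintegral_sq_ne_top g₁).lt_top, (lintegral_sq_ne_top g₂).lt_top⟩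
  exact (ENNReal.pow_lt_top_iff.1 h1).resolve_right (by norm_num)

/-- The Hilbert space of jump functions. -/
abbrev LJ : Type := Lp ℂ 2 (volume.restrict (Ioo (0 : ℝ) 1))

lemma ofReal_norm_sq_L2 (g : L2) : ENNReal.ofReal (‖g‖ ^ 2) = ∫⁻ x, ‖g x‖ₑ ^ 2 := by
  rw [Lp.norm_def, ← eLpNorm_two_sq, ENNReal.ofReal_pow ENNReal.toReal_nonneg,
    ENNReal.ofReal_toReal (Lp.memLp g).eLpNorm_ne_top]

/-- The jump operator. -/
noncomputable def jumpLin : W A.carrier →ₗ[ℂ] LJ where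
  toFun w := (memLp_jfun A w.2).toLp _
  map_add' w w' := by
    obtain ⟨T⟩ := exists_tube A
    rw [← MemLp.toLp_add]
    apply MemLp.toLp_congr
    have h1 : ∀ᵐ x, ((w + w' : W A.carrier) : H3) 0 x =
        1 * (w : H3) 0 x + (w' : H3) 0 x := by
      have : ((w + w' : W A.carrier) : H3) 0 = (w : H3) 0 + (w' : H3) 0 := rfl
      rw [this]
      filter_upwards [Lp.coeFn_add ((w : H3) 0) ((w' : H3) 0)] with x hx
      rw [hx, one_mul, Pi.add_apply]
    filter_upwards [ae_jump_linear T w.2 w'.2 (w + w').2 h1] with s hs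
    simp only [jfun, Pi.add_apply]
    rw [hs]
    ring
  map_smul' c w := by
    obtain ⟨T⟩ := exists_tube A
    rw [RingHom.id_apply, ← MemLp.toLp_const_smul]
    apply MemLp.toLp_congr
    have h1 : ∀ᵐ x, ((c • w : W A.carrier) : H3) 0 x =
        (c - 1) * (w : H3) 0 x + (w : H3) 0 x := by
      have : ((c • w : W A.carrier) : H3) 0 = c • (w : H3) 0 := rfl
      rw [this]
      filter_upwards [Lp.coeFn_smul c ((w : H3) 0)] with x hx
      rw [hx, Pi.smul_apply, smul_eq_mul]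
      ring
    filter_upwards [ae_jump_linear T w.2 w.2 (c • w).2 h1] with s hs
    simp only [jfun, Pi.smul_apply, smul_eq_mul]
    rw [hs]
    ring

lemma jumpLin_ae (w : W A.carrier) :
    jumpLin A w =ᵐ[volume.restrict (Ioo (0 : ℝ) 1)] jfun A ((w : H3) 0) :=
  (memLp_jfun A w.2).coeFn_toLp

/-- The trace inequality in terms of norms. -/
lemma exists_jumpLin_bound : ∃ C : ℝ, 0 ≤ C ∧ ∀ w : W A.carrier,
    ‖jumpLin A w‖ ^ 2 ≤ C * (‖coordW _ 1 w‖ ^ 2 + ‖coordW _ 2 w‖ ^ 2) := by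
  obtain ⟨C, hC, hb⟩ := exists_jfun_bound A
  refine ⟨C.toReal, ENNReal.toReal_nonneg, fun w => ?_⟩
  have h1 : ENNReal.ofReal (‖jumpLin A w‖ ^ 2) =
      ∫⁻ s in Ioo (0 : ℝ) 1, ‖jfun A ((w : H3) 0) s‖ₑ ^ 2 := by
    rw [Lp.norm_def, ENNReal.ofReal_pow ENNReal.toReal_nonneg,
      ENNReal.ofReal_toReal (Lp.memLp _).eLpNorm_ne_top, eLpNorm_congr_ae (jumpLin_ae A w),
      eLpNorm_two_sq]
  have h2 := hb _ _ _ w.2
  rw [← h1, ← ofReal_norm_sq_L2, ← ofReal_norm_sq_L2,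
    ← ENNReal.ofReal_add (by positivity) (by positivity), ← ENNReal.ofReal_toReal hC,
    ← ENNReal.ofReal_mul ENNReal.toReal_nonneg] at h2
  exact (ENNReal.ofReal_le_ofReal_iff (by positivity)).1 h2

/-- The jump operator as a bounded operator on `H¹(ℝ² \ Λ)`. -/
noncomputable def jumpOp : W A.carrier →L[ℂ] LJ :=
  (jumpLin A).mkContinuous (√(exists_jumpLin_bound A).choose) (by
    intro w
    obtain ⟨h0, h⟩ := (exists_jumpLin_bound A).choose_spec
    have h1 : ‖jumpLin A w‖ ^ 2 ≤ (exists_jumpLin_bound A).choose * ‖w‖ ^ 2 := by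
      refine (h w).trans ?_
      rw [norm_sq_W w]
      gcongr
      nlinarith [sq_nonneg ‖coordW A.carrier 0 w‖]
    rw [← Real.sqrt_sq (norm_nonneg (jumpLin A w)), ← Real.sqrt_sq (norm_nonneg w),
      ← Real.sqrt_mul h0]
    exact Real.sqrt_le_sqrt h1)

lemma jumpOp_apply (w : W A.carrier) : jumpOp A w = jumpLin A w := rfl

/-- The boundary term of the form. -/
lemma inner_jumpOp (w w' : W A.carrier) : inner ℂ (jumpOp A w) (jumpOp A w') =
    ∫ s in Ioo (0 : ℝ) 1, conj (A.jump ((w : H3) 0) s) * A.jump ((w' : H3) 0) s *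
      ((A.speed s : ℝ) : ℂ) := by
  rw [L2.inner_def]
  apply integral_congr_ae
  filter_upwards [jumpLin_ae A w, jumpLin_ae A w'] with s h1 h2
  rw [jumpOp_apply, jumpOp_apply, h1, h2, RCLike.inner_apply]
  simp only [jfun, map_mul, Complex.conj_ofReal]
  have : ((A.speed s : ℝ) : ℂ) = ((√(A.speed s) : ℝ) : ℂ) * ((√(A.speed s) : ℝ) : ℂ) := by
    rw [← Complex.ofReal_mul, Real.mul_self_sqrt (A.speed_nonneg s)]
  rw [this]
  ring

/-- The form in terms of the operators. -/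
lemma formValue_eq (b : ℝ) (w w' : W A.carrier) :
    formValue A b ((w : H3) 0) ((w : H3) 1) ((w : H3) 2) ((w' : H3) 0) ((w' : H3) 1)
      ((w' : H3) 2) =
    inner ℂ (coordW _ 1 w) (coordW _ 1 w') + inner ℂ (coordW _ 2 w) (coordW _ 2 w') -
      (b : ℂ) * inner ℂ (jumpOp A w) (jumpOp A w') := by
  rw [inner_jumpOp]
  rfl

end Pool.Agent.MP_178ab7_mp
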