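import Mathlib
import Pool.Agent.MP_178ab7_mp.JumpOp

open MeasureTheory Set Filter Topology Metric
open scoped ENNReal ContDiff ComplexConjugate InnerProductSpace

namespace Pool.Agent.MP_178ab7_mp

section Abstract

variable {V : Type*} [NormedAddCommGroup V] [InnerProductSpace ℂ V] [CompleteSpace V]

/-- A Lax-Milgram lemma. -/
lemma exists_equiv_of_coercive (B : V →L[ℂ] V) {c : ℝ} (hc : 0 < c)
    (h : ∀ w, c * ‖w‖ ^ 2 ≤ ‖(inner ℂ w (B w) : ℂ)‖) : ∃ e : V ≃L[ℂ] V, ∀ w, e w = B w := by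
  have hb : ∀ w, c * ‖w‖ ≤ ‖B w‖ := by
    intro w
    rcases eq_or_ne w 0 with rfl | hw
    · simp
    have hw' : 0 < ‖w‖ := norm_pos_iff.2 hw
    have h1 : c * ‖w‖ ^ 2 ≤ ‖w‖ * ‖B w‖ := (h w).trans (norm_inner_le_norm w (B w))
    have h2 : ‖w‖ * (c * ‖w‖) ≤ ‖w‖ * ‖B w‖ := by
      calc ‖w‖ * (c * ‖w‖) = c * ‖w‖ ^ 2 := by ring
        _ ≤ _ := h1
    exact le_of_mul_le_mul_left h2 hw'
  have hanti : AntilipschitzWith (Real.toNNReal c⁻¹) B := by
    apply AddMonoidHomClass.antilipschitz_of_bound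
    intro w
    rw [Real.coe_toNNReal _ (by positivity)]
    rw [← div_eq_inv_mul, le_div_iff₀ hc, mul_comm]
    exact hb w
  have hker : LinearMap.ker (B : V →ₗ[ℂ] V) = ⊥ := LinearMap.ker_eq_bot.2 hanti.injective
  have hclosed : IsClosed (LinearMap.range (B : V →ₗ[ℂ] V) : Set V) := by
    exact hanti.isClosed_range B.uniformContinuous
  have hrange : LinearMap.range (B : V →ₗ[ℂ] V) = ⊤ := by
    have : CompleteSpace (LinearMap.range (B : V →ₗ[ℂ] V)) := hclosed.completeSpace_coe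
    rw [← (LinearMap.range (B : V →ₗ[ℂ] V)).orthogonal_orthogonal]
    rw [Submodule.eq_top_iff']
    intro v w hw
    rw [Submodule.mem_orthogonal'] at hw
    have h1 := hw (B w) (LinearMap.mem_range_self (B : V →ₗ[ℂ] V) w)
    have h2 := h w
    rw [h1, norm_zero] at h2
    have h3 : ‖w‖ ^ 2 ≤ 0 := by
      by_contra hcon
      push Not at hcon
      have := mul_pos hc hcon
      linarith
    have h4 : ‖w‖ = 0 := by
      have := sq_nonneg ‖w‖
      exact pow_eq_zero_iff (by norm_num) |>.1 (le_antisymm h3 this)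
    rw [norm_eq_zero.1 h4]
    simp
  exact ⟨ContinuousLinearEquiv.ofBijective B hker hrange, fun w => rfl⟩

/-- The distance from the numerical range. -/
lemma exists_sector_bound {z : ℂ} (hz : ¬ (0 ≤ z.re ∧ z.im = 0)) : ∃ κ : ℝ, 0 < κ ∧
    ∀ x y : ℝ, 0 ≤ x → 0 ≤ y → κ * (x + y) ≤ ‖(x : ℂ) - z * (y : ℂ)‖ := by
  by_cases him : z.im = 0
  · have hre : z.re < 0 := by
      by_contra hcon
      push Not at hcon
      exact hz ⟨hcon, him⟩
    refine ⟨min 1 (-z.re), lt_min one_pos (by linarith), ?_⟩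
    intro x y hx hy
    have e : (x : ℂ) - z * (y : ℂ) = ((x - z.re * y : ℝ) : ℂ) := by
      apply Complex.ext <;> simp [him]
    rw [e, Complex.norm_real, Real.norm_eq_abs]
    refine le_trans ?_ (le_abs_self _)
    have h1 : min 1 (-z.re) * x ≤ 1 * x := mul_le_mul_of_nonneg_right (min_le_left _ _) hx
    have h2 : min 1 (-z.re) * y ≤ (-z.re) * y := mul_le_mul_of_nonneg_right (min_le_right _ _) hy
    linarith
  · set m : ℝ := |z.im| with hm
    have hm0 : 0 < m := abs_pos.2 him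
    refine ⟨(1 + (‖z‖ + 1) / m)⁻¹, by positivity, ?_⟩
    intro x y hx hy
    set n : ℝ := ‖(x : ℂ) - z * (y : ℂ)‖ with hn
    have h1 : m * y ≤ n := by
      have := Complex.abs_im_le_norm ((x : ℂ) - z * (y : ℂ))
      simp only [Complex.sub_im, Complex.ofReal_im, Complex.mul_im, Complex.ofReal_re, mul_zero,
        zero_add, zero_sub, abs_neg, abs_mul, abs_of_nonneg hy] at this
      exact this
    have h2 : x - ‖z‖ * y ≤ n := by
      have h3 := norm_sub_norm_le (x : ℂ) (z * (y : ℂ))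
      rw [norm_mul, Complex.norm_real, Complex.norm_real, Real.norm_of_nonneg hx,
        Real.norm_of_nonneg hy] at h3
      exact h3
    have h4 : y ≤ n / m := by
      rw [le_div_iff₀ hm0]; linarith
    rw [inv_mul_le_iff₀ (by positivity)]
    calc x + y ≤ n + (‖z‖ + 1) * y := by linarith
      _ ≤ n + (‖z‖ + 1) * (n / m) := by gcongr
      _ = (1 + (‖z‖ + 1) / m) * n := by ring

/-- The operator representing a form. -/
lemma inner_abstract {L L' : Type*} [NormedAddCommGroup L] [InnerProductSpace ℂ L]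
    [CompleteSpace L] [NormedAddCommGroup L'] [InnerProductSpace ℂ L'] [CompleteSpace L']
    (D₁ D₂ P : V →L[ℂ] L) (J : V →L[ℂ] L') (b z : ℂ) (v w : V) :
    inner ℂ v ((ContinuousLinearMap.adjoint D₁ ∘L D₁ + ContinuousLinearMap.adjoint D₂ ∘L D₂ -
      b • (ContinuousLinearMap.adjoint J ∘L J) - z • (ContinuousLinearMap.adjoint P ∘L P)) w) =
    inner ℂ (D₁ v) (D₁ w) + inner ℂ (D₂ v) (D₂ w) - b * inner ℂ (J v) (J w) -
      z * inner ℂ (P v) (P w) := by
  simp only [sub_apply, add_apply, smul_apply, ContinuousLinearMap.coe_comp, Function.comp_apply,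
    inner_sub_right, inner_add_right, inner_smul_right, ContinuousLinearMap.adjoint_inner_right]

end Abstract

variable (A : Arc)

/-- The operator in `H¹(ℝ² \ Λ)` representing the form `h_b - z`. -/
noncomputable def formOp (b : ℝ) (z : ℂ) : W A.carrier →L[ℂ] W A.carrier :=
  (coordW A.carrier 1).adjoint ∘L (coordW A.carrier 1) +
    (coordW A.carrier 2).adjoint ∘L (coordW A.carrier 2) -
    (b : ℂ) • ((jumpOp A).adjoint ∘L (jumpOp A)) -
    z • ((coordW A.carrier 0).adjoint ∘L (coordW A.carrier 0))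

lemma inner_formOp (b : ℝ) (z : ℂ) (v w : W A.carrier) : inner ℂ v (formOp A b z w) =
    inner ℂ (coordW _ 1 v) (coordW _ 1 w) + inner ℂ (coordW _ 2 v) (coordW _ 2 w) -
      (b : ℂ) * inner ℂ (jumpOp A v) (jumpOp A w) -
      z * inner ℂ (coordW _ 0 v) (coordW _ 0 w) :=
  inner_abstract _ _ _ _ _ _ _ _

/-- Coercivity. -/
lemma exists_coercive : ∃ b₀ : ℝ, 0 < b₀ ∧ ∀ b : ℝ, b ≤ b₀ → ∀ z : ℂ,
    ¬ (0 ≤ z.re ∧ z.im = 0) → ∃ c : ℝ, 0 < c ∧ ∀ w : W A.carrier,
      c * ‖w‖ ^ 2 ≤ ‖(inner ℂ w (formOp A b z w) : ℂ)‖ := by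
  obtain ⟨C, hC0, hC⟩ := exists_jumpLin_bound A
  refine ⟨1 / (2 * (C + 1)), by positivity, ?_⟩
  intro b hb z hz
  obtain ⟨κ, hκ, hκ'⟩ := exists_sector_bound hz
  refine ⟨κ / 2, by positivity, ?_⟩
  intro w
  set G : ℝ := ‖coordW _ 1 w‖ ^ 2 + ‖coordW _ 2 w‖ ^ 2 with hG
  have hG0 : 0 ≤ G := by positivity
  set x : ℝ := G - b * ‖jumpOp A w‖ ^ 2 with hx
  set y : ℝ := ‖coordW _ 0 w‖ ^ 2 with hy
  have hy0 : 0 ≤ y := by positivity
  have hJ : ‖jumpOp A w‖ ^ 2 ≤ C * G := hC w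
  have hxG : G / 2 ≤ x := by
    have h1 : b * ‖jumpOp A w‖ ^ 2 ≤ G / 2 := by
      rcases le_total b 0 with hb0 | hb0
      · have : b * ‖jumpOp A w‖ ^ 2 ≤ 0 := mul_nonpos_of_nonpos_of_nonneg hb0 (by positivity)
        linarith
      · calc b * ‖jumpOp A w‖ ^ 2 ≤ (1 / (2 * (C + 1))) * (C * G) := by gcongr
          _ = (C / (C + 1)) * (G / 2) := by field_simp
          _ ≤ 1 * (G / 2) := by
              gcongr
              rw [div_le_one (by positivity)]
              linarith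
          _ = G / 2 := one_mul _
    linarith
  have hx0 : 0 ≤ x := by linarith
  have e : (inner ℂ w (formOp A b z w) : ℂ) = (x : ℂ) - z * (y : ℂ) := by
    rw [inner_formOp]
    simp only [inner_self_eq_norm_sq_to_K]
    rw [hx, hy, hG]
    push_cast
    rfl
  rw [e]
  refine le_trans ?_ (hκ' x y hx0 hy0)
  rw [norm_sq_W w]
  have : ‖coordW _ 0 w‖ ^ 2 + ‖coordW _ 1 w‖ ^ 2 + ‖coordW _ 2 w‖ ^ 2 = y + G := by
    rw [hy, hG]; ring
  rw [this]
  calc κ / 2 * (y + G) = κ * (G / 2 + y / 2) := by ring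
    _ ≤ κ * (x + y) := by
        gcongr
        linarith

/-- The element of `W` with given components. -/
noncomputable def mkW {Λ : Set (ℝ × ℝ)} {u g₁ g₂ : L2} (h : IsWeakGradient Λ u g₁ g₂) : W Λ :=
  ⟨WithLp.toLp 2 ![u, g₁, g₂], h⟩

lemma coordW_mkW_zero {Λ : Set (ℝ × ℝ)} {u g₁ g₂ : L2} (h : IsWeakGradient Λ u g₁ g₂) :
    coordW Λ 0 (mkW h) = u := rfl
lemma coordW_mkW_one {Λ : Set (ℝ × ℝ)} {u g₁ g₂ : L2} (h : IsWeakGradient Λ u g₁ g₂) :
    coordW Λ 1 (mkW h) = g₁ := rfl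
lemma coordW_mkW_two {Λ : Set (ℝ × ℝ)} {u g₁ g₂ : L2} (h : IsWeakGradient Λ u g₁ g₂) :
    coordW Λ 2 (mkW h) = g₂ := rfl

lemma formValue_eq' (b : ℝ) {v h₁ h₂ u g₁ g₂ : L2} (hv : IsWeakGradient A.carrier v h₁ h₂)
    (hu : IsWeakGradient A.carrier u g₁ g₂) (z : ℂ) :
    formValue A b v h₁ h₂ u g₁ g₂ =
      inner ℂ (mkW hv) (formOp A b z (mkW hu)) + z * inner ℂ v u := by
  have h := formValue_eq A b (mkW hv) (mkW hu)
  rw [inner_formOp]
  rw [coordW_mkW_zero, coordW_mkW_one, coordW_mkW_two, coordW_mkW_zero, coordW_mkW_one,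
    coordW_mkW_two] at *
  change formValue A b v h₁ h₂ u g₁ g₂ = _ at h
  rw [h]
  ring

/-- The resolvent set contains the complement of the half line. -/
theorem exists_resolvent : ∃ b₀ : ℝ, 0 < b₀ ∧ ∀ b : ℝ, b ≤ b₀ → ∀ z : ℂ,
    ¬ (0 ≤ z.re ∧ z.im = 0) → z ∉ spectrumOf (hamiltonianGraph A b) := by
  obtain ⟨b₀, hb₀, h⟩ := exists_coercive A
  refine ⟨b₀, hb₀, fun b hb z hz => ?_⟩
  obtain ⟨c, hc, hcoer⟩ := h b hb z hz
  obtain ⟨e, he⟩ := exists_equiv_of_coercive (formOp A b z) hc hcoer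
  simp only [spectrumOf, mem_ofPred_eq, not_not]
  set P := coordW A.carrier 0 with hP
  refine ⟨P ∘L ((e.symm : W A.carrier →L[ℂ] W A.carrier) ∘L P.adjoint), ?_⟩
  intro f u
  constructor
  · intro hu
    set w : W A.carrier := e.symm (P.adjoint f) with hw
    have hPw : P w = u := hu
    have hew : formOp A b z w = P.adjoint f := by
      rw [← he, hw, ContinuousLinearEquiv.apply_symm_apply]
    have hww : w = mkW w.2 := by
      apply W_ext
      intro i
      fin_cases i <;> rfl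
    have hu0 : (w : H3) 0 = u := hPw
    refine ⟨(w : H3) 1, (w : H3) 2, ?_, ?_⟩
    · rw [← hu0]
      exact w.2
    · intro v h₁ h₂ hv
      have h1 := formValue_eq' A b hv w.2 z
      rw [← hww, hew, ContinuousLinearMap.adjoint_inner_right] at h1
      simp only
      rw [← hu0, h1, inner_add_right, inner_smul_right]
      rfl
  · rintro ⟨g₁, g₂, hu, hform⟩
    simp only at hu hform
    have hkey : formOp A b z (mkW hu) = P.adjoint f := by
      apply ext_inner_left ℂ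
      intro v
      have h1 := formValue_eq' A b v.2 hu z
      have h2 := hform _ _ _ v.2
      have hvv : v = mkW v.2 := by
        apply W_ext
        intro i
        fin_cases i <;> rfl
      rw [h1, ← hvv, inner_add_right, inner_smul_right] at h2
      rw [ContinuousLinearMap.adjoint_inner_right]
      have h3 := add_right_cancel h2
      rw [h3]
      rfl
    have h4 : e.symm (P.adjoint f) = mkW hu := by
      rw [← hkey, ← he, ContinuousLinearEquiv.symm_apply_apply]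
    show P (e.symm (P.adjoint f)) = u
    rw [h4]
    rfl

end Pool.Agent.MP_178ab7_mp
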