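import Mathlib
import Pool.Agent.MP_178ab7_mp.Resolvent

open MeasureTheory Set Filter Topology Metric
open scoped ENNReal ContDiff ComplexConjugate InnerProductSpace

namespace Pool.Agent.MP_178ab7_mp

/-- Directional derivative. -/
noncomputable def dir (p : ℝ × ℝ → ℝ) (v : ℝ × ℝ) (x : ℝ × ℝ) : ℝ := fderiv ℝ p x v

lemma contDiff_dir {p : ℝ × ℝ → ℝ} (h : ContDiff ℝ ∞ p) (v : ℝ × ℝ) : ContDiff ℝ ∞ (dir p v) :=
  (h.fderiv_right (m := ∞) (by simp)).clm_apply contDiff_const

lemma hasCompactSupport_dir {p : ℝ × ℝ → ℝ} (h : HasCompactSupport p) (v : ℝ × ℝ) :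
    HasCompactSupport (dir p v) := h.fderiv_apply (𝕜 := ℝ) v

lemma tsupport_dir {p : ℝ × ℝ → ℝ} (v : ℝ × ℝ) : tsupport (dir p v) ⊆ tsupport p :=
  tsupport_fderiv_apply_subset ℝ v

/-- A real test function as an element of `L²`. -/
noncomputable def toR (p : ℝ × ℝ → ℝ) (h : ContDiff ℝ ∞ p) (hc : HasCompactSupport p) : L2 :=
  toL2 (fun x => ((p x : ℝ) : ℂ)) (continuous_ofRealφ h) (hasCompactSupport_ofRealφ hc)

lemma toR_ae {p : ℝ × ℝ → ℝ} (h : ContDiff ℝ ∞ p) (hc : HasCompactSupport p) :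
    toR p h hc =ᵐ[volume] fun x => ((p x : ℝ) : ℂ) := toL2_ae _ _ _

lemma weak_toR (Λ : Set (ℝ × ℝ)) {p : ℝ × ℝ → ℝ} (h : ContDiff ℝ ∞ p)
    (hc : HasCompactSupport p) : IsWeakGradient Λ (toR p h hc)
      (toR (dir p (1, 0)) (contDiff_dir h _) (hasCompactSupport_dir hc _))
      (toR (dir p (0, 1)) (contDiff_dir h _) (hasCompactSupport_dir hc _)) := by
  intro φ hφ hφc _
  have key : ∀ v : ℝ × ℝ, (∫ x, toR p h hc x * ((fderiv ℝ φ x v : ℝ) : ℂ)) =
      - ∫ x, toR (dir p v) (contDiff_dir h _) (hasCompactSupport_dir hc _) x *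
        ((φ x : ℝ) : ℂ) := by
    intro v
    have e1 : (∫ x, toR p h hc x * ((fderiv ℝ φ x v : ℝ) : ℂ)) =
        ∫ x, ((p x * fderiv ℝ φ x v : ℝ) : ℂ) := by
      apply integral_congr_ae
      filter_upwards [toR_ae h hc] with x hx
      rw [hx, Complex.ofReal_mul]
    have e2 : (∫ x, toR (dir p v) (contDiff_dir h _) (hasCompactSupport_dir hc _) x *
        ((φ x : ℝ) : ℂ)) = ∫ x, ((fderiv ℝ p x v * φ x : ℝ) : ℂ) := by
      apply integral_congr_ae
      filter_upwards [toR_ae (contDiff_dir h v) (hasCompactSupport_dir hc v)] with x hx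
      rw [hx, Complex.ofReal_mul]
      rfl
    rw [e1, e2, integral_complex_ofReal, integral_complex_ofReal, ← Complex.ofReal_neg]
    congr 1
    have c1 : Continuous fun x => fderiv ℝ φ x v := (contDiff_dir hφ v).continuous
    have c2 : Continuous fun x => fderiv ℝ p x v := (contDiff_dir h v).continuous
    apply integral_mul_fderiv_eq_neg_fderiv_mul_of_integrable
    · exact (c2.mul hφ.continuous).integrable_of_hasCompactSupport
        ((hasCompactSupport_dir hc v).mul_right)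
    · exact (h.continuous.mul c1).integrable_of_hasCompactSupport hc.mul_right
    · exact (h.continuous.mul hφ.continuous).integrable_of_hasCompactSupport hc.mul_right
    · intro x _
      exact (h.differentiable (by simp)) x
    · intro x _
      exact (hφ.differentiable (by simp)) x
  exact ⟨key _, key _⟩

variable {A : Arc}

/-- The traces of a continuous function are its values. -/
lemma ae_trace_continuous (T : Tube A) {w : L2} {ψ : ℝ × ℝ → ℂ} (hψ : Continuous ψ)
    (hw : w =ᵐ[volume] ψ) {σ : ℝ} (hσ : σ = 1 ∨ σ = -1) :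
    ∀ᵐ s ∂(volume.restrict (Ioo (0 : ℝ) 1)),
      Tendsto (fun ε => A.sideAverage w σ s ε) (𝓝[>] 0) (𝓝 (ψ (A.γ s))) := by
  have hG := T.good_side hσ
  filter_upwards [ae_restrict_mem measurableSet_Ioo, hG.ae (p := fun x => w x = ψ x) hw]
    with s hs h1
  have hcont : Continuous fun t : ℝ => ψ (T.Φ (s, σ * t)) :=
    hψ.comp (T.contDiff.continuous.comp (by fun_prop))
  have h0 : T.Φ (s, σ * 0) = A.γ s := by
    rw [T.eq s (Ioo_subset_Icc_self hs)]
    simp
  have hder : HasDerivAt (fun x => ∫ t in (0 : ℝ)..x, ψ (T.Φ (s, σ * t)))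
      (ψ (T.Φ (s, σ * 0))) 0 :=
    intervalIntegral.integral_hasDerivAt_right (hcont.intervalIntegrable 0 0)
      (hcont.stronglyMeasurableAtFilter _ _) hcont.continuousAt
  have h2 := hder.tendsto_slope_zero_right
  rw [h0] at h2
  refine h2.congr' ?_
  filter_upwards [Ioo_mem_nhdsGT T.c_pos] with ε hε
  simp only [zero_add, intervalIntegral.integral_same, sub_zero]
  unfold Arc.sideAverage
  rw [Complex.real_smul, one_div]
  congr 1
  apply intervalIntegral.integral_congr_ae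
  rw [ae_restrict_iff' measurableSet_Ioo] at h1
  filter_upwards [h1] with t ht ht'
  rw [uIoc_of_le hε.1.le] at ht'
  rw [← T.eq s (Ioo_subset_Icc_self hs)]
  exact (ht ⟨ht'.1, ht'.2.trans_lt hε.2⟩).symm

lemma ae_jump_continuous (A : Arc) {w : L2} {ψ : ℝ × ℝ → ℂ} (hψ : Continuous ψ)
    (hw : w =ᵐ[volume] ψ) :
    ∀ᵐ s ∂(volume.restrict (Ioo (0 : ℝ) 1)), A.jump w s = 0 := by
  obtain ⟨T⟩ := exists_tube A
  filter_upwards [ae_trace_continuous T hψ hw (Or.inl rfl),
    ae_trace_continuous T hψ hw (Or.inr rfl)] with s h1 h2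
  unfold Arc.jump Arc.trace
  rw [h1.limUnder_eq, h2.limUnder_eq, sub_self]

lemma inner_weak {v h : L2} {p : ℝ × ℝ → ℝ} {e : ℝ × ℝ} (hp : ContDiff ℝ ∞ p)
    (hc : HasCompactSupport p)
    (hw : (∫ x, v x * ((fderiv ℝ (dir p e) x e : ℝ) : ℂ)) =
      - ∫ x, h x * ((dir p e x : ℝ) : ℂ)) :
    inner ℂ h (toR (dir p e) (contDiff_dir hp _) (hasCompactSupport_dir hc _)) =
      - inner ℂ v (toR (dir (dir p e) e) (contDiff_dir (contDiff_dir hp _) _)
        (hasCompactSupport_dir (hasCompactSupport_dir hc _) _)) := by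
  unfold toR
  rw [inner_toL2_right, inner_toL2_right]
  have e1 : ∫ x, conj (h x) * ((dir p e x : ℝ) : ℂ) =
      conj (∫ x, h x * ((dir p e x : ℝ) : ℂ)) := by
    rw [← integral_conj]
    congr 1
    funext x
    rw [map_mul, Complex.conj_ofReal]
  have e2 : ∫ x, conj (v x) * ((dir (dir p e) e x : ℝ) : ℂ) =
      conj (∫ x, v x * ((fderiv ℝ (dir p e) x e : ℝ) : ℂ)) := by
    rw [← integral_conj]
    congr 1
    funext x
    rw [map_mul, Complex.conj_ofReal]
    rfl
  rw [e1, e2, hw, map_neg, neg_neg]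

/-- Test functions belong to the domain of the Hamiltonian, which acts as `-Δ` on them. -/
lemma toR_mem_graph (A : Arc) (b : ℝ) {p : ℝ × ℝ → ℝ} (hp : ContDiff ℝ ∞ p)
    (hc : HasCompactSupport p) (hs : tsupport p ⊆ A.carrierᶜ) :
    (toR p hp hc, -(toR (dir (dir p (1, 0)) (1, 0)) (contDiff_dir (contDiff_dir hp _) _)
        (hasCompactSupport_dir (hasCompactSupport_dir hc _) _) +
      toR (dir (dir p (0, 1)) (0, 1)) (contDiff_dir (contDiff_dir hp _) _)
        (hasCompactSupport_dir (hasCompactSupport_dir hc _) _))) ∈ hamiltonianGraph A b := by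
  refine ⟨_, _, weak_toR _ hp hc, ?_⟩
  intro v h₁ h₂ hv
  have w1 := hv (dir p (1, 0)) (contDiff_dir hp _) (hasCompactSupport_dir hc _)
    ((tsupport_dir _).trans hs)
  have w2 := hv (dir p (0, 1)) (contDiff_dir hp _) (hasCompactSupport_dir hc _)
    ((tsupport_dir _).trans hs)
  have i1 := inner_weak hp hc w1.1
  have i2 := inner_weak hp hc w2.2
  have hj : ∫ s in Ioo (0 : ℝ) 1, conj (A.jump v s) * A.jump (toR p hp hc) s *
      ((A.speed s : ℝ) : ℂ) = 0 := by
    rw [← integral_zero ℝ ℂ (μ := volume.restrict (Ioo (0 : ℝ) 1))]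
    apply integral_congr_ae
    filter_upwards [ae_jump_continuous A (continuous_ofRealφ hp) (toR_ae hp hc)] with s hs
    rw [hs]
    simp
  unfold formValue
  simp only
  rw [i1, i2, hj, inner_neg_right, inner_add_right]
  ring

/-! ### Weyl sequences -/

lemma dir_mul {f g : ℝ × ℝ → ℝ} (hf : ContDiff ℝ ∞ f) (hg : ContDiff ℝ ∞ g) (v : ℝ × ℝ) :
    dir (fun x => f x * g x) v = fun x => dir f v x * g x + f x * dir g v x := by
  funext x
  unfold dir
  have h1 : HasFDerivAt f (fderiv ℝ f x) x := ((hf.differentiable (by simp)) x).hasFDerivAt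
  have h2 : HasFDerivAt g (fderiv ℝ g x) x := ((hg.differentiable (by simp)) x).hasFDerivAt
  have h3 : HasFDerivAt (fun x => f x * g x) (f x • fderiv ℝ g x + g x • fderiv ℝ f x) x :=
    h1.mul h2
  rw [h3.fderiv]
  simp only [add_apply, smul_apply, smul_eq_mul]
  ring

lemma dir_add {f g : ℝ × ℝ → ℝ} (hf : ContDiff ℝ ∞ f) (hg : ContDiff ℝ ∞ g) (v : ℝ × ℝ) :
    dir (fun x => f x + g x) v = fun x => dir f v x + dir g v x := by
  funext x
  unfold dir
  have h1 : HasFDerivAt f (fderiv ℝ f x) x := ((hf.differentiable (by simp)) x).hasFDerivAt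
  have h2 : HasFDerivAt g (fderiv ℝ g x) x := ((hg.differentiable (by simp)) x).hasFDerivAt
  have h3 : HasFDerivAt (fun x => f x + g x) (fderiv ℝ f x + fderiv ℝ g x) x := h1.add h2
  rw [h3.fderiv]
  rfl

/-- `cos (k x₁)` -/
noncomputable def cs (k : ℝ) (x : ℝ × ℝ) : ℝ := Real.cos (k * x.1)
/-- `sin (k x₁)` -/
noncomputable def sn (k : ℝ) (x : ℝ × ℝ) : ℝ := Real.sin (k * x.1)

lemma contDiff_cs (k : ℝ) : ContDiff ℝ ∞ (cs k) :=
  Real.contDiff_cos.comp (contDiff_const.mul contDiff_fst)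
lemma contDiff_sn (k : ℝ) : ContDiff ℝ ∞ (sn k) :=
  Real.contDiff_sin.comp (contDiff_const.mul contDiff_fst)

lemma dir_cs (k : ℝ) (v : ℝ × ℝ) : dir (cs k) v = fun x => -(k * v.1) * sn k x := by
  funext x
  unfold dir
  have h1 : HasFDerivAt (fun p : ℝ × ℝ => p.1) (ContinuousLinearMap.fst ℝ ℝ ℝ) x := hasFDerivAt_fst
  have h2 := (h1.const_mul k).cos
  have h3 : HasFDerivAt (cs k) (-Real.sin (k * x.1) • k • ContinuousLinearMap.fst ℝ ℝ ℝ) x := h2
  rw [h3.fderiv]
  simp only [smul_apply, ContinuousLinearMap.coe_fst', smul_eq_mul, sn]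
  ring

lemma dir_sn (k : ℝ) (v : ℝ × ℝ) : dir (sn k) v = fun x => (k * v.1) * cs k x := by
  funext x
  unfold dir
  have h1 : HasFDerivAt (fun p : ℝ × ℝ => p.1) (ContinuousLinearMap.fst ℝ ℝ ℝ) x := hasFDerivAt_fst
  have h2 := (h1.const_mul k).sin
  have h3 : HasFDerivAt (sn k) (Real.cos (k * x.1) • k • ContinuousLinearMap.fst ℝ ℝ ℝ) x := h2
  rw [h3.fderiv]
  simp only [smul_apply, ContinuousLinearMap.coe_fst', smul_eq_mul, cs]
  ring

lemma dir_const_mul {f : ℝ × ℝ → ℝ} (hf : ContDiff ℝ ∞ f) (c : ℝ) (v : ℝ × ℝ) :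
    dir (fun x => c * f x) v = fun x => c * dir f v x := by
  funext x
  unfold dir
  have h1 : HasFDerivAt f (fderiv ℝ f x) x := ((hf.differentiable (by simp)) x).hasFDerivAt
  rw [(h1.const_mul c).fderiv]
  rfl

/-- Second derivative of `a cos (k x₁)`. -/
lemma dir_dir_cs {a : ℝ × ℝ → ℝ} (ha : ContDiff ℝ ∞ a) (k : ℝ) (v : ℝ × ℝ) (x : ℝ × ℝ) :
    dir (dir (fun x => a x * cs k x) v) v x =
      dir (dir a v) v x * cs k x - 2 * (k * v.1) * dir a v x * sn k x
        - (k * v.1) ^ 2 * (a x * cs k x) := by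
  have hs := contDiff_sn k
  have hc := contDiff_cs k
  rw [dir_mul ha hc, dir_cs]
  have e : (fun x => dir a v x * cs k x + a x * (-(k * v.1) * sn k x)) =
      fun x => (dir a v x * cs k x) + (a x * ((-(k * v.1)) * sn k x)) := rfl
  rw [e, dir_add ((contDiff_dir ha v).mul hc) (ha.mul (contDiff_const.mul hs)),
    dir_mul (contDiff_dir ha v) hc, dir_mul ha (contDiff_const.mul hs), dir_const_mul hs, dir_sn,
    dir_cs]
  simp only
  ring

lemma dir_dir_sn {a : ℝ × ℝ → ℝ} (ha : ContDiff ℝ ∞ a) (k : ℝ) (v : ℝ × ℝ) (x : ℝ × ℝ) :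
    dir (dir (fun x => a x * sn k x) v) v x =
      dir (dir a v) v x * sn k x + 2 * (k * v.1) * dir a v x * cs k x
        - (k * v.1) ^ 2 * (a x * sn k x) := by
  have hs := contDiff_sn k
  have hc := contDiff_cs k
  rw [dir_mul ha hs, dir_sn]
  have e : (fun x => dir a v x * sn k x + a x * ((k * v.1) * cs k x)) =
      fun x => (dir a v x * sn k x) + (a x * ((k * v.1) * cs k x)) := rfl
  rw [e, dir_add ((contDiff_dir ha v).mul hs) (ha.mul (contDiff_const.mul hc)),
    dir_mul (contDiff_dir ha v) hs, dir_mul ha (contDiff_const.mul hc), dir_const_mul hc, dir_cs,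
    dir_sn]
  simp only
  ring

lemma dir_scale {f : ℝ × ℝ → ℝ} (hf : ContDiff ℝ ∞ f) (c : ℝ) (x₀ v : ℝ × ℝ) :
    dir (fun x => f (c • (x - x₀))) v = fun x => c * dir f v (c • (x - x₀)) := by
  funext x
  unfold dir
  have h1 : HasFDerivAt f (fderiv ℝ f (c • (x - x₀))) (c • (x - x₀)) :=
    ((hf.differentiable (by simp)) _).hasFDerivAt
  have h2 : HasFDerivAt (fun x : ℝ × ℝ => c • (x - x₀)) (c • ContinuousLinearMap.id ℝ (ℝ × ℝ)) x :=
    ((hasFDerivAt_id x).sub_const x₀).const_smul c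
  have h3 : HasFDerivAt (fun x => f (c • (x - x₀)))
      ((fderiv ℝ f (c • (x - x₀))).comp (c • ContinuousLinearMap.id ℝ (ℝ × ℝ))) x := h1.comp x h2
  rw [h3.fderiv]
  simp

lemma norm_sq_le_of_bound {F : L2} {f : ℝ × ℝ → ℝ} (hF : F =ᵐ[volume] fun x => ((f x : ℝ) : ℂ))
    {β : ℝ} {S : Set (ℝ × ℝ)} (hS : MeasurableSet S) (hSv : volume S ≠ ⊤)
    (h1 : ∀ x, |f x| ≤ β) (h2 : ∀ x, x ∉ S → f x = 0) : ‖F‖ ^ 2 ≤ β ^ 2 * (volume S).toReal := by
  have e : ENNReal.ofReal (‖F‖ ^ 2) ≤ ENNReal.ofReal (β ^ 2 * (volume S).toReal) := by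
    rw [ofReal_norm_sq_L2, ENNReal.ofReal_mul (sq_nonneg _), ENNReal.ofReal_toReal hSv,
      ← lintegral_indicator_const hS]
    apply lintegral_mono_ae
    filter_upwards [hF] with x hx
    rw [hx]
    by_cases hxS : x ∈ S
    · rw [indicator_of_mem hxS, ← ofReal_norm, Complex.norm_real, Real.norm_eq_abs,
        ← ENNReal.ofReal_pow (abs_nonneg _)]
      apply ENNReal.ofReal_le_ofReal
      exact pow_le_pow_left₀ (abs_nonneg _) (h1 x) 2
    · rw [indicator_of_notMem hxS, h2 x hxS]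
      simp
  exact (ENNReal.ofReal_le_ofReal_iff (by positivity)).1 e

/-- The spectrum contains the half line. -/
theorem halfLine_subset (A : Arc) (b : ℝ) {z : ℂ} (hz : 0 ≤ z.re ∧ z.im = 0) :
    z ∈ spectrumOf (hamiltonianGraph A b) := by
  rintro ⟨R, hR⟩
  set k : ℝ := √z.re with hk
  have hzk : z = ((k ^ 2 : ℝ) : ℂ) := by
    rw [hk, Real.sq_sqrt hz.1]
    apply Complex.ext
    · simp
    · simp [hz.2]
  have hk0 : 0 ≤ k := Real.sqrt_nonneg _
  -- the cut-off
  let χ : ContDiffBump (0 : ℝ × ℝ) := ⟨1, 2, one_pos, one_lt_two⟩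
  have hχ : ContDiff ℝ ∞ (χ : ℝ × ℝ → ℝ) := χ.contDiff
  have hχc : HasCompactSupport (χ : ℝ × ℝ → ℝ) := χ.hasCompactSupport
  have bd : ∀ f : ℝ × ℝ → ℝ, ContDiff ℝ ∞ f → HasCompactSupport f → ∃ M, 0 ≤ M ∧ ∀ x, |f x| ≤ M := by
    intro f h1 h2
    obtain ⟨M, hM⟩ := h2.exists_bound_of_continuous h1.continuous
    exact ⟨max M 0, le_max_right _ _, fun x => (hM x).trans (le_max_left _ _)⟩
  obtain ⟨M₁, hM₁0, hM₁⟩ := bd (dir χ (1, 0)) (contDiff_dir hχ _) (hasCompactSupport_dir hχc _)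
  obtain ⟨M₂, hM₂0, hM₂⟩ := bd (dir (dir χ (1, 0)) (1, 0)) (contDiff_dir (contDiff_dir hχ _) _)
    (hasCompactSupport_dir (hasCompactSupport_dir hχc _) _)
  obtain ⟨M₃, hM₃0, hM₃⟩ := bd (dir (dir χ (0, 1)) (0, 1)) (contDiff_dir (contDiff_dir hχ _) _)
    (hasCompactSupport_dir (hasCompactSupport_dir hχc _) _)
  set B : ℝ := M₂ + M₃ + 2 * k * M₁ with hB
  have hB0 : 0 ≤ B := by positivity
  set v : ℝ := (volume (closedBall (0 : ℝ × ℝ) 1)).toReal with hv
  have hvfin : volume (closedBall (0 : ℝ × ℝ) 1) ≠ ⊤ := (isCompact_closedBall _ _).measure_lt_top.ne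
  have hv0 : 0 < v := ENNReal.toReal_pos (measure_closedBall_pos _ _ one_pos).ne' hvfin
  have hvol : ∀ (x : ℝ × ℝ) (r : ℝ), 0 ≤ r → (volume (closedBall x r)).toReal = r ^ 2 * v := by
    intro x r hr
    rw [Measure.addHaar_closedBall' volume x hr, ENNReal.toReal_mul,
      ENNReal.toReal_ofReal (by positivity)]
    simp [hv]
  -- the curve is bounded
  obtain ⟨ρ, hρ⟩ := (isCompact_carrier A).isBounded.subset_closedBall (0 : ℝ × ℝ)
  have main : ∀ n : ℕ, 1 ≤ n → (n : ℝ) ^ 2 ≤ 8 * ‖R‖ ^ 2 * B ^ 2 := by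
    intro n hn
    have hn1 : (1 : ℝ) ≤ n := by exact_mod_cast hn
    have hn0 : (0 : ℝ) < n := by linarith
    set x₀ : ℝ × ℝ := (|ρ| + 2 * n + 1, 0) with hx₀
    set c : ℝ := 1 / n with hc
    have hc0 : 0 < c := by positivity
    have hc1 : c ≤ 1 := by
      rw [hc, div_le_one hn0]; exact hn1
    set a : ℝ × ℝ → ℝ := fun x => χ (c • (x - x₀)) with ha
    have hlin : ContDiff ℝ ∞ fun x : ℝ × ℝ => c • (x - x₀) := by fun_prop
    have has : ContDiff ℝ ∞ a := hχ.comp hlin
    have hasupp : Function.support a ⊆ closedBall x₀ (2 * n) := by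
      intro x hx
      have h1 : c • (x - x₀) ∈ Function.support (χ : ℝ × ℝ → ℝ) := hx
      rw [χ.support_eq, mem_ball_zero_iff, norm_smul, Real.norm_of_nonneg hc0.le] at h1
      have h2 : c * ‖x - x₀‖ < 2 := h1
      rw [mem_closedBall, dist_eq_norm]
      rw [hc, one_div, inv_mul_lt_iff₀ hn0] at h2
      linarith
    have hats : tsupport a ⊆ closedBall x₀ (2 * n) := closure_minimal hasupp isClosed_closedBall
    have hac : HasCompactSupport a :=
      (isCompact_closedBall _ _).of_isClosed_subset (isClosed_tsupport _) hats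
    have hdisj : closedBall x₀ (2 * n) ⊆ A.carrierᶜ := by
      intro x hx hxA
      have h1 := hρ hxA
      rw [mem_closedBall, dist_eq_norm] at hx
      rw [mem_closedBall_zero_iff] at h1
      have h2 : |x.1 - x₀.1| ≤ 2 * n := (norm_fst_le (x - x₀)).trans hx
      have h3 : |x.1| ≤ ρ := (norm_fst_le x).trans h1
      have h4 := abs_le.1 h2
      have h5 := abs_le.1 h3
      have h6 := le_abs_self ρ
      simp only [hx₀] at h4
      linarith [h4.1, h5.2]
    -- derivatives of the cut-off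
    have d1 : ∀ v, dir a v = fun x => c * dir χ v (c • (x - x₀)) := fun v => dir_scale hχ c x₀ v
    have d2 : ∀ v x, dir (dir a v) v x = c * (c * dir (dir χ v) v (c • (x - x₀))) := by
      intro v x
      rw [d1]
      have hs : ContDiff ℝ ∞ fun x => dir (χ : ℝ × ℝ → ℝ) v (c • (x - x₀)) :=
        (contDiff_dir hχ v).comp hlin
      rw [dir_const_mul hs, dir_scale (contDiff_dir hχ v)]
    have b1 : ∀ x, |dir a (1, 0) x| ≤ c * M₁ := by
      intro x
      rw [d1]
      simp only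
      rw [abs_mul, abs_of_pos hc0]
      gcongr
      exact hM₁ _
    have b2 : ∀ x, |dir (dir a (1, 0)) (1, 0) x| ≤ c * M₂ := by
      intro x
      rw [d2, abs_mul, abs_mul, abs_of_pos hc0]
      calc c * (c * |dir (dir χ (1, 0)) (1, 0) (c • (x - x₀))|) ≤ c * (1 * M₂) := by
            gcongr
            exact hM₂ _
        _ = c * M₂ := by ring
    have b3 : ∀ x, |dir (dir a (0, 1)) (0, 1) x| ≤ c * M₃ := by
      intro x
      rw [d2, abs_mul, abs_mul, abs_of_pos hc0]
      calc c * (c * |dir (dir χ (0, 1)) (0, 1) (c • (x - x₀))|) ≤ c * (1 * M₃) := by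
            gcongr
            exact hM₃ _
        _ = c * M₃ := by ring
    -- the estimate for one function
    have est : ∀ (p : ℝ × ℝ → ℝ) (hp : ContDiff ℝ ∞ p) (hpc : HasCompactSupport p)
        (hps : tsupport p ⊆ closedBall x₀ (2 * n))
        (hpb : ∀ x, |dir (dir p (1, 0)) (1, 0) x + dir (dir p (0, 1)) (0, 1) x + k ^ 2 * p x| ≤
          c * B), ‖toR p hp hpc‖ ^ 2 ≤ ‖R‖ ^ 2 * (4 * B ^ 2 * v) := by
      intro p hp hpc hps hpb
      set Δ₁ := toR (dir (dir p (1, 0)) (1, 0)) (contDiff_dir (contDiff_dir hp _) _)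
        (hasCompactSupport_dir (hasCompactSupport_dir hpc _) _) with hΔ₁
      set Δ₂ := toR (dir (dir p (0, 1)) (0, 1)) (contDiff_dir (contDiff_dir hp _) _)
        (hasCompactSupport_dir (hasCompactSupport_dir hpc _) _) with hΔ₂
      have hmem := toR_mem_graph A b hp hpc (hps.trans hdisj)
      set F : L2 := -(Δ₁ + Δ₂) - z • toR p hp hpc with hF
      have hRF : R F = toR p hp hpc := by
        rw [hR, hF, sub_add_cancel]
        exact hmem
      have hFae : F =ᵐ[volume] fun x => ((-(dir (dir p (1, 0)) (1, 0) x +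
          dir (dir p (0, 1)) (0, 1) x + k ^ 2 * p x) : ℝ) : ℂ) := by
        filter_upwards [Lp.coeFn_sub (-(Δ₁ + Δ₂)) (z • toR p hp hpc), Lp.coeFn_neg (Δ₁ + Δ₂),
          Lp.coeFn_add Δ₁ Δ₂, Lp.coeFn_smul z (toR p hp hpc), toR_ae hp hpc,
          toR_ae (contDiff_dir (contDiff_dir hp (1, 0)) (1, 0))
            (hasCompactSupport_dir (hasCompactSupport_dir hpc _) _),
          toR_ae (contDiff_dir (contDiff_dir hp (0, 1)) (0, 1))
            (hasCompactSupport_dir (hasCompactSupport_dir hpc _) _)] with x a1 a2 a3 a4 a5 a6 a7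
        rw [hF, a1, Pi.sub_apply, a2, Pi.neg_apply, a3, Pi.add_apply, a4, Pi.smul_apply, a5, a6, a7,
          hzk]
        push_cast
        rw [smul_eq_mul]
        ring
      have hFn : ‖F‖ ^ 2 ≤ 4 * B ^ 2 * v := by
        have h1 := norm_sq_le_of_bound hFae (β := c * B) (S := closedBall x₀ (2 * n))
          measurableSet_closedBall (isCompact_closedBall _ _).measure_lt_top.ne
          (fun x => by rw [abs_neg]; exact hpb x) (by
            intro x hx
            have h2 : x ∉ tsupport p := fun h => hx (hps h)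
            have h3 : p x = 0 := image_eq_zero_of_notMem_tsupport h2
            have h4 : dir (dir p (1, 0)) (1, 0) x = 0 :=
              image_eq_zero_of_notMem_tsupport fun h => h2 (tsupport_dir _ (tsupport_dir _ h))
            have h5 : dir (dir p (0, 1)) (0, 1) x = 0 :=
              image_eq_zero_of_notMem_tsupport fun h => h2 (tsupport_dir _ (tsupport_dir _ h))
            rw [h3, h4, h5]
            simp)
        rw [hvol _ _ (by positivity)] at h1
        refine h1.trans (le_of_eq ?_)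
        rw [hc]
        field_simp
        ring
      calc ‖toR p hp hpc‖ ^ 2 = ‖R F‖ ^ 2 := by rw [hRF]
        _ ≤ (‖R‖ * ‖F‖) ^ 2 := by
            gcongr
            exact R.le_opNorm F
        _ = ‖R‖ ^ 2 * ‖F‖ ^ 2 := mul_pow _ _ _
        _ ≤ ‖R‖ ^ 2 * (4 * B ^ 2 * v) := by gcongr
    -- the two functions
    have hpc' : HasCompactSupport fun x => a x * cs k x := hac.mul_right
    have hqc' : HasCompactSupport fun x => a x * sn k x := hac.mul_right
    have hp := has.mul (contDiff_cs k)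
    have hq := has.mul (contDiff_sn k)
    have hcs1 : ∀ x, |cs k x| ≤ 1 := fun x => Real.abs_cos_le_one _
    have hsn1 : ∀ x, |sn k x| ≤ 1 := fun x => Real.abs_sin_le_one _
    have e1 := est (fun x => a x * cs k x) hp hpc' ((tsupport_mul_subset_left).trans hats) (by
      intro x
      rw [dir_dir_cs has, dir_dir_cs has]
      have e : dir (dir a (1, 0)) (1, 0) x * cs k x - 2 * (k * ((1 : ℝ), (0 : ℝ)).1) *
          dir a (1, 0) x * sn k x - (k * ((1 : ℝ), (0 : ℝ)).1) ^ 2 * (a x * cs k x) +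
          (dir (dir a (0, 1)) (0, 1) x * cs k x - 2 * (k * ((0 : ℝ), (1 : ℝ)).1) *
          dir a (0, 1) x * sn k x - (k * ((0 : ℝ), (1 : ℝ)).1) ^ 2 * (a x * cs k x)) +
          k ^ 2 * (a x * cs k x) = dir (dir a (1, 0)) (1, 0) x * cs k x +
          dir (dir a (0, 1)) (0, 1) x * cs k x - 2 * k * (dir a (1, 0) x * sn k x) := by
        simp only
        ring
      rw [e]
      have t1 : |dir (dir a (1, 0)) (1, 0) x * cs k x| ≤ c * M₂ := by
        rw [abs_mul]
        calc _ ≤ (c * M₂) * 1 := mul_le_mul (b2 x) (hcs1 x) (abs_nonneg _) (by positivity)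
          _ = c * M₂ := mul_one _
      have t2 : |dir (dir a (0, 1)) (0, 1) x * cs k x| ≤ c * M₃ := by
        rw [abs_mul]
        calc _ ≤ (c * M₃) * 1 := mul_le_mul (b3 x) (hcs1 x) (abs_nonneg _) (by positivity)
          _ = c * M₃ := mul_one _
      have t3 : |2 * k * (dir a (1, 0) x * sn k x)| ≤ 2 * k * (c * M₁) := by
        rw [abs_mul, abs_of_nonneg (by positivity : 0 ≤ 2 * k), abs_mul]
        apply mul_le_mul_of_nonneg_left _ (by positivity)
        calc _ ≤ (c * M₁) * 1 := mul_le_mul (b1 x) (hsn1 x) (abs_nonneg _) (by positivity)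
          _ = c * M₁ := mul_one _
      calc _ ≤ |dir (dir a (1, 0)) (1, 0) x * cs k x + dir (dir a (0, 1)) (0, 1) x * cs k x| +
            |2 * k * (dir a (1, 0) x * sn k x)| := abs_sub _ _
        _ ≤ (c * M₂ + c * M₃) + 2 * k * (c * M₁) := by
            gcongr
            exact (abs_add_le _ _).trans (add_le_add t1 t2)
        _ = c * B := by rw [hB]; ring)
    have e2 := est (fun x => a x * sn k x) hq hqc' ((tsupport_mul_subset_left).trans hats) (by
      intro x
      rw [dir_dir_sn has, dir_dir_sn has]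
      have e : dir (dir a (1, 0)) (1, 0) x * sn k x + 2 * (k * ((1 : ℝ), (0 : ℝ)).1) *
          dir a (1, 0) x * cs k x - (k * ((1 : ℝ), (0 : ℝ)).1) ^ 2 * (a x * sn k x) +
          (dir (dir a (0, 1)) (0, 1) x * sn k x + 2 * (k * ((0 : ℝ), (1 : ℝ)).1) *
          dir a (0, 1) x * cs k x - (k * ((0 : ℝ), (1 : ℝ)).1) ^ 2 * (a x * sn k x)) +
          k ^ 2 * (a x * sn k x) = dir (dir a (1, 0)) (1, 0) x * sn k x +
          dir (dir a (0, 1)) (0, 1) x * sn k x + 2 * k * (dir a (1, 0) x * cs k x) := by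
        simp only
        ring
      rw [e]
      have t1 : |dir (dir a (1, 0)) (1, 0) x * sn k x| ≤ c * M₂ := by
        rw [abs_mul]
        calc _ ≤ (c * M₂) * 1 := mul_le_mul (b2 x) (hsn1 x) (abs_nonneg _) (by positivity)
          _ = c * M₂ := mul_one _
      have t2 : |dir (dir a (0, 1)) (0, 1) x * sn k x| ≤ c * M₃ := by
        rw [abs_mul]
        calc _ ≤ (c * M₃) * 1 := mul_le_mul (b3 x) (hsn1 x) (abs_nonneg _) (by positivity)
          _ = c * M₃ := mul_one _
      have t3 : |2 * k * (dir a (1, 0) x * cs k x)| ≤ 2 * k * (c * M₁) := by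
        rw [abs_mul, abs_of_nonneg (by positivity : 0 ≤ 2 * k), abs_mul]
        apply mul_le_mul_of_nonneg_left _ (by positivity)
        calc _ ≤ (c * M₁) * 1 := mul_le_mul (b1 x) (hcs1 x) (abs_nonneg _) (by positivity)
          _ = c * M₁ := mul_one _
      calc _ ≤ |dir (dir a (1, 0)) (1, 0) x * sn k x + dir (dir a (0, 1)) (0, 1) x * sn k x| +
            |2 * k * (dir a (1, 0) x * cs k x)| := abs_add_le _ _
        _ ≤ (c * M₂ + c * M₃) + 2 * k * (c * M₁) := by
            gcongr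
            exact (abs_add_le _ _).trans (add_le_add t1 t2)
        _ = c * B := by rw [hB]; ring)
    -- lower bound for the norms
    have hlow : (n : ℝ) ^ 2 * v ≤ ‖toR _ hp hpc'‖ ^ 2 + ‖toR _ hq hqc'‖ ^ 2 := by
      have h1 : ENNReal.ofReal ((n : ℝ) ^ 2 * v) ≤
          ENNReal.ofReal (‖toR _ hp hpc'‖ ^ 2 + ‖toR _ hq hqc'‖ ^ 2) := by
        rw [ENNReal.ofReal_add (by positivity) (by positivity), ofReal_norm_sq_L2,
          ofReal_norm_sq_L2, ← lintegral_add_left ((measurable_L2 _).enorm.pow_const 2),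
          ← hvol x₀ n hn0.le, ENNReal.ofReal_toReal (isCompact_closedBall _ _).measure_lt_top.ne,
          ← lintegral_indicator_one measurableSet_closedBall]
        apply lintegral_mono_ae
        filter_upwards [toR_ae hp hpc', toR_ae hq hqc'] with x h1 h2
        rw [h1, h2]
        by_cases hx : x ∈ closedBall x₀ n
        · rw [indicator_of_mem hx]
          have h3 : a x = 1 := by
            apply χ.one_of_mem_closedBall
            rw [mem_closedBall_zero_iff, norm_smul, Real.norm_of_nonneg hc0.le, hc, one_div,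
              inv_mul_le_iff₀ hn0]
            rw [mem_closedBall, dist_eq_norm] at hx
            change ‖x - x₀‖ ≤ n * 1
            linarith
          simp only [h3, one_mul, Pi.one_apply]
          rw [← ofReal_norm, ← ofReal_norm, Complex.norm_real, Complex.norm_real,
            Real.norm_eq_abs, Real.norm_eq_abs, ← ENNReal.ofReal_pow (abs_nonneg _),
            ← ENNReal.ofReal_pow (abs_nonneg _), ← ENNReal.ofReal_add (by positivity)
            (by positivity), sq_abs, sq_abs]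
          rw [← ENNReal.ofReal_one]
          apply ENNReal.ofReal_le_ofReal
          have := Real.sin_sq_add_cos_sq (k * x.1)
          simp only [cs, sn]
          linarith
        · rw [indicator_of_notMem hx]
          exact zero_le
      exact (ENNReal.ofReal_le_ofReal_iff (by positivity)).1 h1
    have h3 : (n : ℝ) ^ 2 * v ≤ (8 * ‖R‖ ^ 2 * B ^ 2) * v := by
      calc (n : ℝ) ^ 2 * v ≤ ‖toR _ hp hpc'‖ ^ 2 + ‖toR _ hq hqc'‖ ^ 2 := hlow
        _ ≤ ‖R‖ ^ 2 * (4 * B ^ 2 * v) + ‖R‖ ^ 2 * (4 * B ^ 2 * v) := add_le_add e1 e2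
        _ = _ := by ring
    exact le_of_mul_le_mul_right h3 hv0
  obtain ⟨n, hn⟩ := exists_nat_gt (8 * ‖R‖ ^ 2 * B ^ 2 + 1)
  have hn1 : (1 : ℝ) < n := lt_of_le_of_lt (by
    have : 0 ≤ 8 * ‖R‖ ^ 2 * B ^ 2 := by positivity
    linarith) hn
  have h1 := main n (by exact_mod_cast hn1.le)
  nlinarith

end Pool.Agent.MP_178ab7_mp
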